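import Pool.Agent.H59.MO.Defs

/-!
[H59 MO] Blk: block diagonal operators on an `ℓ²` direct sum.

PROOF. For `ξ ∈ lp H 2` the family `n ↦ A n (ξ n)` is in `ℓ²` because `‖A n (ξ n)‖ ≤ C ‖ξ n‖`
(`Memℓp` of a dominated family; use `memℓp_gen` or `Memℓp.of_norm..`, comparison of summable series of
squares). Linear in `ξ`, and `‖B ξ‖ ≤ C ‖ξ‖` (`lp.norm_rpow_eq_tsum`, comparison), so
`LinearMap.mkContinuous`.
-/

open scoped ENNReal

namespace Pool.Agent.H59.MO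

universe u

theorem blk_exists (H : ℕ → Type u) [∀ n, NormedAddCommGroup (H n)]
    [∀ n, InnerProductSpace ℂ (H n)] (A : ∀ n, H n →L[ℂ] H n) {C : ℝ}
    (hC : ∀ n, ‖A n‖ ≤ C) :
    ∃ B : lp H 2 →L[ℂ] lp H 2, (∀ (ξ : lp H 2) (n : ℕ), (B ξ : ∀ n, H n) n = A n (ξ n)) ∧
      ‖B‖ ≤ C := by
  classical
  have hC0 : 0 ≤ C := (norm_nonneg _).trans (hC 0)
  have hle : ∀ (n : ℕ) (x : H n), ‖A n x‖ ≤ C * ‖x‖ := fun n x =>
    (A n).le_of_opNorm_le (hC n) x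
  have hmem : ∀ ξ : lp H 2, Memℓp (fun n => A n (ξ n)) 2 := by
    intro ξ
    have h1 : Memℓp (fun n => (C : ℂ) • (ξ n : H n)) 2 := (lp.memℓp ξ).const_smul (C : ℂ)
    rw [memℓp_gen_iff (by norm_num)] at h1 ⊢
    refine Summable.of_nonneg_of_le (fun n => by positivity) (fun n => ?_) h1
    refine Real.rpow_le_rpow (norm_nonneg _) ?_ (by norm_num)
    rw [norm_smul]
    simpa [abs_of_nonneg hC0] using hle n (ξ n)
  have hnorm : ∀ ξ : lp H 2, ‖(⟨fun n => A n (ξ n), hmem ξ⟩ : lp H 2)‖ ≤ C * ‖ξ‖ := by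
    intro ξ
    refine lp.norm_le_of_forall_sum_le (by norm_num) (by positivity) fun s => ?_
    have h2 := lp.norm_rpow_eq_tsum (p := 2) (by norm_num) ξ
    rw [Real.mul_rpow hC0 (norm_nonneg _), h2]
    have h3 : Summable fun n => ‖ξ n‖ ^ (2 : ℝ≥0∞).toReal := (memℓp_gen_iff (by norm_num)).1
      (lp.memℓp ξ)
    calc ∑ n ∈ s, ‖A n (ξ n)‖ ^ (2 : ℝ≥0∞).toReal
        ≤ ∑ n ∈ s, C ^ (2 : ℝ≥0∞).toReal * ‖ξ n‖ ^ (2 : ℝ≥0∞).toReal := by
          refine Finset.sum_le_sum fun n _ => ?_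
          rw [← Real.mul_rpow hC0 (norm_nonneg _)]
          exact Real.rpow_le_rpow (norm_nonneg _) (hle n _) (by norm_num)
      _ = C ^ (2 : ℝ≥0∞).toReal * ∑ n ∈ s, ‖ξ n‖ ^ (2 : ℝ≥0∞).toReal := by
          rw [Finset.mul_sum]
      _ ≤ _ := by
          gcongr
          exact h3.sum_le_tsum s (fun n _ => by positivity)
  refine ⟨LinearMap.mkContinuous
    { toFun := fun ξ => ⟨fun n => A n (ξ n), hmem ξ⟩
      map_add' := fun ξ η => by
        ext n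
        exact map_add (A n) (ξ n) (η n)
      map_smul' := fun c ξ => by
        ext n
        exact map_smul (A n) c (ξ n) } C hnorm, fun ξ n => rfl, LinearMap.mkContinuous_norm_le _ hC0 _⟩

end Pool.Agent.H59.MO
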