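import Pool.Agent.H59.MO.Defs

/-!
[H59 MO] BrInv: bridges are equivariant.

PROOF. `x ↦ g x` is a graph isomorphism from `Gr S ω` onto `Gr S (act g ω)` (`act_apply`,
`(g x)⁻¹ (g y) = x⁻¹ y`, injectivity) and from `Gm S ω x y` onto `Gm S (act g ω) (g x) (g y)`; graph
isomorphisms preserve adjacency and reachability (`SimpleGraph.Iso.reachable_iff`).
-/

namespace Pool.Agent.H59.MO

universe u

theorem br_act {Γ : Type u} [Group Γ] (g : Γ) (S : Finset Γ) (ω : Conf Γ) (x y : Γ) :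
    Br S (act g ω) (g * x) (g * y) ↔ Br S ω x y := by
  have hadj : ∀ a b : Γ, (Gr S (act g ω)).Adj (g * a) (g * b) ↔ (Gr S ω).Adj a b := by
    intro a b
    have h1 : (g * a)⁻¹ * (g * b) = a⁻¹ * b := by group
    have h2 : (g * b)⁻¹ * (g * a) = b⁻¹ * a := by group
    have h3 : act g ω s(g * a, g * b) = ω s(a, b) := by
      rw [act_apply]
      simp
    change (g * a ≠ g * b ∧ (g * a)⁻¹ * (g * b) ∈ S ∧ (g * b)⁻¹ * (g * a) ∈ S ∧
      act g ω s(g * a, g * b) = true) ↔ (a ≠ b ∧ a⁻¹ * b ∈ S ∧ b⁻¹ * a ∈ S ∧ ω s(a, b) = true)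
    rw [h1, h2, h3]
    simp
  have hm : ∀ a b : Γ, (Gm S (act g ω) (g * x) (g * y)).Adj (g * a) (g * b) ↔
      (Gm S ω x y).Adj a b := by
    intro a b
    unfold Gm
    rw [SimpleGraph.deleteEdges_adj, SimpleGraph.deleteEdges_adj, hadj]
    simp only [Set.mem_singleton_iff, Sym2.eq_iff, mul_right_inj]
  let φ : Gm S ω x y ≃g Gm S (act g ω) (g * x) (g * y) :=
    { toEquiv := Equiv.mulLeft g
      map_rel_iff' := fun {a b} => hm a b }
  have hr : (Gm S (act g ω) (g * x) (g * y)).Reachable (g * x) (g * y) ↔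
      (Gm S ω x y).Reachable x y := SimpleGraph.Iso.reachable_iff (φ := φ)
  unfold Br
  rw [hadj, hr]

end Pool.Agent.H59.MO
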