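import Pool.Agent.H59.MO.Defs

/-!
[H59 MO] PMeas: measurability of bridges and parents.

PROOF. `{ω | (Gr S ω).Adj x y}` is measurable: it is empty or the preimage of `{true}` under the
coordinate `s(x, y)`. `{ω | (Gm S ω a b).Adj x y}` is it or empty. `{ω | (Gm S ω a b).Reachable x y}` is
measurable: reachability is `Relation.ReflTransGen` of adjacency
(`SimpleGraph.reachable_iff_reflTransGen`), i.e. the union over the countably many lists `l : List Γ` of
the sets of `ω` for which `l` is a chain of adjacent vertices from `x` to `y` (finite intersection of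
measurable sets); alternatively by induction on `n` the relation `being connected by a walk of length n`
is measurable: `R (n+1) x y ↔ ∃ z, Adj x z ∧ R n z y` (countable union), and
`Reachable ↔ ∃ n, R n`. `Br` and `Par` are then countable unions, intersections and complements
(`MeasurableSet.iUnion`, `MeasurableSet.iInter`, `Countable Γ`). `measurable_par1`: `Γ` is countable, so
it suffices that the section at every `x : Γ` is measurable (`measurable_from_prod_countable_right` or
`_left`), `Measurable.ite`.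
-/

open MeasureTheory

namespace Pool.Agent.H59.MO

universe u

variable {Γ : Type u} [Group Γ] [Countable Γ]

omit [Countable Γ] in
theorem measurableSet_adj (S : Finset Γ) (x y : Γ) :
    MeasurableSet {ω : Conf Γ | (Gr S ω).Adj x y} := by
  by_cases h : x ≠ y ∧ x⁻¹ * y ∈ S ∧ y⁻¹ * x ∈ S
  · have h1 : {ω : Conf Γ | (Gr S ω).Adj x y} = (fun ω : Conf Γ => ω s(x, y)) ⁻¹' {true} := by
      ext ω
      change (x ≠ y ∧ x⁻¹ * y ∈ S ∧ y⁻¹ * x ∈ S ∧ ω s(x, y) = true) ↔ ω s(x, y) = true
      exact ⟨fun h' => h'.2.2.2, fun h' => ⟨h.1, h.2.1, h.2.2, h'⟩⟩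
    rw [h1]
    exact measurable_pi_apply _ (MeasurableSet.singleton true)
  · have h1 : {ω : Conf Γ | (Gr S ω).Adj x y} = ∅ := by
      ext ω
      simp only [Set.mem_ofPred_eq, Set.mem_empty_iff_false, iff_false]
      exact fun h' => h ⟨h'.1, h'.2.1, h'.2.2.1⟩
    rw [h1]
    exact MeasurableSet.empty

/-- connected by a walk of length `n` -/
def Rn (G : SimpleGraph Γ) : ℕ → Γ → Γ → Prop
  | 0, x, y => x = y
  | n + 1, x, y => ∃ z, G.Adj x z ∧ Rn G n z y

omit [Group Γ] [Countable Γ] in
theorem reachable_iff_Rn (G : SimpleGraph Γ) (x y : Γ) : G.Reachable x y ↔ ∃ n, Rn G n x y := by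
  constructor
  · rintro ⟨p⟩
    induction p with
    | nil => exact ⟨0, rfl⟩
    | cons h p ih =>
      obtain ⟨n, hn⟩ := ih
      exact ⟨n + 1, _, h, hn⟩
  · rintro ⟨n, hn⟩
    induction n generalizing x with
    | zero => cases hn; exact SimpleGraph.Reachable.refl _
    | succ n ih =>
      obtain ⟨z, hz, hn⟩ := hn
      exact hz.reachable.trans (ih z hn)

theorem measurableSet_Rn (S : Finset Γ) (a b : Γ) (n : ℕ) (x y : Γ) :
    MeasurableSet {ω : Conf Γ | Rn (Gm S ω a b) n x y} := by
  induction n generalizing x with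
  | zero => exact MeasurableSet.const _
  | succ n ih =>
    have h1 : {ω : Conf Γ | Rn (Gm S ω a b) (n + 1) x y} =
        ⋃ z, ({ω : Conf Γ | (Gm S ω a b).Adj x z} ∩ {ω : Conf Γ | Rn (Gm S ω a b) n z y}) := by
      ext ω
      simp [Rn]
    rw [h1]
    refine MeasurableSet.iUnion fun z => MeasurableSet.inter ?_ (ih z)
    have h2 : {ω : Conf Γ | (Gm S ω a b).Adj x z} =
        {ω : Conf Γ | (Gr S ω).Adj x z} ∩ {_ω : Conf Γ | s(x, z) ∉ ({s(a, b)} : Set (Sym2 Γ))} := by
      ext ω
      simp only [Gm, SimpleGraph.deleteEdges_adj, Set.mem_ofPred_eq, Set.mem_inter_iff]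
    rw [h2]
    exact (measurableSet_adj S x z).inter (MeasurableSet.const _)

theorem measurableSet_reach (S : Finset Γ) (a b x y : Γ) :
    MeasurableSet {ω : Conf Γ | (Gm S ω a b).Reachable x y} := by
  have h1 : {ω : Conf Γ | (Gm S ω a b).Reachable x y} =
      ⋃ n, {ω : Conf Γ | Rn (Gm S ω a b) n x y} := by
    ext ω
    simp [reachable_iff_Rn]
  rw [h1]
  exact MeasurableSet.iUnion fun n => measurableSet_Rn S a b n x y

theorem measurableSet_br (S : Finset Γ) (x y : Γ) : MeasurableSet {ω : Conf Γ | Br S ω x y} := by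
  have h1 : {ω : Conf Γ | Br S ω x y} = {ω : Conf Γ | (Gr S ω).Adj x y} ∩
      {ω : Conf Γ | (Gm S ω x y).Reachable x y}ᶜ := by
    ext ω
    simp [Br]
  rw [h1]
  exact (measurableSet_adj S x y).inter (measurableSet_reach S x y x y).compl

theorem measurableSet_par (idx : Γ → ℕ) (S : Finset Γ) (x y : Γ) :
    MeasurableSet {ω : Conf Γ | Par idx S ω x y} := by
  have h1 : {ω : Conf Γ | Par idx S ω x y} = {ω : Conf Γ | Br S ω x y} ∩
      ⋃ z, ({ω : Conf Γ | (Gm S ω x y).Reachable y z} ∩
        ⋂ z', ({ω : Conf Γ | (Gm S ω x y).Reachable x z'}ᶜ ∪ {_ω : Conf Γ | idx z < idx z'})) := by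
    ext ω
    simp only [Par, Set.mem_ofPred_eq, Set.mem_inter_iff, Set.mem_iUnion, Set.mem_iInter,
      Set.mem_union, Set.mem_compl_iff, imp_iff_not_or]
  rw [h1]
  refine (measurableSet_br S x y).inter (MeasurableSet.iUnion fun z => ?_)
  refine (measurableSet_reach S x y y z).inter (MeasurableSet.iInter fun z' => ?_)
  exact (measurableSet_reach S x y x z').compl.union (MeasurableSet.const _)

theorem measurable_par1 [MeasurableSpace Γ] [MeasurableSingletonClass Γ] (idx : Γ → ℕ)
    (S : Finset Γ) (s : Γ) : Measurable (par1 idx S s) := by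
  have h1 : MeasurableSet {y : Γ × Conf Γ | Par idx S y.2 y.1 (y.1 * s)} := by
    have h2 : {y : Γ × Conf Γ | Par idx S y.2 y.1 (y.1 * s)} =
        ⋃ x : Γ, (({x} : Set Γ) ×ˢ {ω : Conf Γ | Par idx S ω x (x * s)}) := by
      ext y
      simp only [Set.mem_ofPred_eq, Set.mem_iUnion, Set.mem_prod, Set.mem_singleton_iff]
      constructor
      · intro h
        exact ⟨y.1, rfl, h⟩
      · rintro ⟨x, hx, h⟩
        rw [hx]
        exact h
    rw [h2]
    exact MeasurableSet.iUnion fun x =>
      (measurableSet_singleton x).prod (measurableSet_par idx S x (x * s))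
  unfold par1
  exact Measurable.ite h1 measurable_const measurable_const

end Pool.Agent.H59.MO
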