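import Pool.Agent.H59.MO.Defs

/-!
[H59 MO] Par1: a vertex has at most one parent.

PROOF. Suppose `y ≠ y'` are both parents of `x`. Let `z` be the vertex for `(x, y)` and `z'` the one for
`(x, y')`. CLAIM: `z'` is reachable from `x` in `Gm S ω x y`. Indeed there is a walk from `y'` to `z'` in
`Gm S ω x y' = Gr.deleteEdges {s(x, y')}`. No vertex of this walk is `x` (otherwise `x` and `y'` would be
connected in `Gm S ω x y'`, contradicting `Br S ω x y'`). So the walk does not use the edge `s(x, y)`
(which contains `x`) and it is a walk in `Gm S ω x y` (`Walk.transfer`; or prove by induction on the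
walk / on `Relation.ReflTransGen`: every vertex `v` reachable from `y'` in `Gm S ω x y'` is reachable
from `y'` in `Gm S ω x y`; step `v ~ v'` in `Gm S ω x y'` with `v, v' ≠ x` since both are reachable
from `y'` there, hence `s(v, v') ≠ s(x, y)`). The edge `s(x, y')` is in `Gm S ω x y`
(`s(x, y') ≠ s(x, y)`), so `x` is adjacent to `y'` there. Hence `idx z < idx z'` by the second
condition for `(x, y)`, and symmetrically `idx z' < idx z`: contradiction.
-/

namespace Pool.Agent.H59.MO

universe u

theorem Par.unique {Γ : Type u} [Group Γ] {idx : Γ → ℕ} {S : Finset Γ} {ω : Conf Γ} {x y y' : Γ}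
    (h : Par idx S ω x y) (h' : Par idx S ω x y') : y = y' := by
  classical
  by_contra hne
  -- the claim, for both orders
  have claim : ∀ a b z : Γ, a ≠ b → Br S ω x a → Br S ω x b → (Gm S ω x b).Reachable b z →
      (Gm S ω x a).Reachable x z := by
    intro a b z hab ha hb hr
    have hstep : ∀ v, (Gm S ω x b).Reachable b v → (Gm S ω x a).Reachable b v := by
      intro v hv
      rw [SimpleGraph.reachable_iff_reflTransGen] at hv
      induction hv with
      | refl => exact SimpleGraph.Reachable.refl _
      | @tail c d hbc hcd ih =>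
        refine ih.trans ?_
        have hc : c ≠ x := by
          rintro rfl
          exact hb.2 ((SimpleGraph.reachable_iff_reflTransGen b c).2 hbc).symm
        have hd : d ≠ x := by
          rintro rfl
          exact hb.2 ((SimpleGraph.reachable_iff_reflTransGen b d).2 (hbc.tail hcd)).symm
        apply SimpleGraph.Adj.reachable
        unfold Gm at hcd ⊢
        rw [SimpleGraph.deleteEdges_adj] at hcd ⊢
        refine ⟨hcd.1, ?_⟩
        rw [Set.mem_singleton_iff, Sym2.eq_iff]
        rintro (⟨h1, -⟩ | ⟨-, h1⟩)
        · exact hc h1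
        · exact hd h1
    have hxb : (Gm S ω x a).Adj x b := by
      unfold Gm
      rw [SimpleGraph.deleteEdges_adj]
      refine ⟨hb.1, ?_⟩
      rw [Set.mem_singleton_iff, Sym2.eq_iff]
      rintro (⟨-, h1⟩ | ⟨h1, h2⟩)
      · exact hab h1.symm
      · exact hb.1.ne h2.symm
    exact hxb.reachable.trans (hstep z hr)
  obtain ⟨hb, z, hz, hlt⟩ := h
  obtain ⟨hb', z', hz', hlt'⟩ := h'
  have h1 := hlt z' (claim y y' z' hne hb hb' hz')
  have h2 := hlt' z (claim y' y z (fun h => hne h.symm) hb' hb hz)
  exact absurd h1 (not_lt.2 h2.le)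

end Pool.Agent.H59.MO
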