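import Pool.Agent.H59.MO.Defs

/-!
[H59 MO] Par2: every bridge is oriented.

PROOF. `Gm S ω x y = Gm S ω y x` (`Sym2.eq_swap`). Let `m` be the least value of `idx` on the set of
vertices reachable from `x` or from `y` in `Gm S ω x y` (`Nat.find` / `WellFounded.min`; the set contains
`x`), attained at `z`. If `z` is reachable from `y`: for every `z'` reachable from `x` one has
`idx z ≤ idx z'`, and `idx z = idx z'` would give `z = z'`, so `x` and `y` would be connected in
`Gm S ω x y`, contradicting `Br`; so `Par idx S ω x y`. If `z` is reachable from `x`: symmetrically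
`Par idx S ω y x` (with `Br.symm`).
-/

namespace Pool.Agent.H59.MO

universe u

theorem Gm_symm {Γ : Type u} [Group Γ] (S : Finset Γ) (ω : Conf Γ) (x y : Γ) :
    Gm S ω x y = Gm S ω y x := by
  unfold Gm
  rw [Sym2.eq_swap]

theorem Br.symm {Γ : Type u} [Group Γ] {S : Finset Γ} {ω : Conf Γ} {x y : Γ}
    (h : Br S ω x y) : Br S ω y x :=
  ⟨h.1.symm, by rw [← Gm_symm]; exact fun hr => h.2 hr.symm⟩

theorem Par.or_of_br {Γ : Type u} [Group Γ] {idx : Γ → ℕ} (hidx : Function.Injective idx)
    {S : Finset Γ} {ω : Conf Γ} {x y : Γ} (h : Br S ω x y) :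
    Par idx S ω x y ∨ Par idx S ω y x := by
  classical
  let R : Γ → Prop := fun z => (Gm S ω x y).Reachable x z ∨ (Gm S ω x y).Reachable y z
  have hex : ∃ n, ∃ z, R z ∧ idx z = n := ⟨idx x, x, Or.inl (SimpleGraph.Reachable.refl x), rfl⟩
  obtain ⟨z, hz, hzn⟩ := Nat.find_spec hex
  have hmin : ∀ z', R z' → idx z ≤ idx z' := by
    intro z' hz'
    rw [hzn]
    exact Nat.find_min' hex ⟨z', hz', rfl⟩
  rcases hz with hz | hz
  · right
    refine ⟨h.symm, z, ?_, ?_⟩
    · rw [← Gm_symm]; exact hz
    · intro z' hz'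
      rw [← Gm_symm] at hz'
      refine lt_of_le_of_ne (hmin z' (Or.inr hz')) fun he => ?_
      have := hidx he
      subst this
      exact h.2 (hz.trans hz'.symm)
  · left
    refine ⟨h, z, hz, ?_⟩
    intro z' hz'
    refine lt_of_le_of_ne (hmin z' (Or.inl hz')) fun he => ?_
    have := hidx he
    subst this
    exact h.2 (hz'.trans hz.symm)

end Pool.Agent.H59.MO
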