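import Pool.Agent.H59.MO.WEx

/-!
[H59 MO] Schur: Schur test for finite sums of weighted composition operators.

PROOF. `ContinuousLinearMap.opNorm_le_bound`. Let `ξ ∈ L²`, `ζ := ∑ i ∈ S, W ν (a i) (R i) ξ`. By
`W_spec` and `Lp.coeFn_finset_sum` (or induction) a.e. `ζ y = ∑ i ∈ S, a i y * ξ (R i y)`, so by
Cauchy-Schwarz (`Finset.sum_mul_sq_le_sq_mul_sq` with `√‖a‖`, `√‖a‖ ‖ξ‖`, or
`inner_mul_le_norm_mul_norm`)
`‖ζ y‖² ≤ (∑ ‖a i y‖) (∑ ‖a i y‖ ‖ξ (R i y)‖²) ≤ M ∑ i ∈ S, ‖a i y‖ ‖ξ (R i y)‖²`.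
Take `∫⁻` of both sides (as `ENNReal`): for each `i`, since `R' i` preserves `ν`
(`MeasurePreserving.lintegral_comp`, measurability of a strongly measurable representative of `ξ`, e.g.
`(Lp.stronglyMeasurable ξ)`),
`∫⁻ ‖a i y‖ ‖ξ (R i y)‖² dν = ∫⁻ ‖a i (R' i y)‖ ‖ξ (R i (R' i y))‖² dν = ∫⁻ ‖a i (R' i y)‖ ‖ξ y‖² dν`.
Sum over `i` and use `col`: the total is at most `M * M * ∫⁻ ‖ξ‖²`. Then `‖ζ‖² ≤ M² ‖ξ‖²`
(`MeasureTheory.L2`: `‖ξ‖ ^ 2 = ∫ ‖ξ y‖ ^ 2`, or `Lp.norm_def`, `eLpNorm` with exponent two).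
-/

open MeasureTheory
open scoped ENNReal

namespace Pool.Agent.H59.MO

universe u

theorem norm_sq_lintegral {Y : Type u} [MeasurableSpace Y] {ν : Measure Y} (ξ : Lp ℂ 2 ν) :
    ENNReal.ofReal (‖ξ‖ ^ 2) = ∫⁻ y, ENNReal.ofReal (‖ξ y‖ ^ 2) ∂ν := by
  rw [ENNReal.ofReal_pow (norm_nonneg _), Lp.norm_def, ENNReal.ofReal_toReal (Lp.eLpNorm_ne_top ξ),
    eLpNorm_eq_lintegral_rpow_enorm_toReal (by norm_num) (by norm_num)]
  rw [← ENNReal.rpow_natCast, ← ENNReal.rpow_mul]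
  simp only [ENNReal.toReal_ofNat, Nat.cast_ofNat, one_div, ne_eq, OfNat.ofNat_ne_zero,
    not_false_eq_true, inv_mul_cancel₀, ENNReal.rpow_one]
  refine lintegral_congr fun y => ?_
  rw [ENNReal.ofReal_pow (norm_nonneg _), ofReal_norm]
  norm_cast

theorem coeFn_fsum {Y : Type u} [MeasurableSpace Y] {ν : Measure Y} {ι : Type*} (S : Finset ι)
    (F : ι → Lp ℂ 2 ν) : (∑ i ∈ S, F i : Lp ℂ 2 ν) =ᵐ[ν] fun y => ∑ i ∈ S, F i y := by
  classical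
  induction S using Finset.induction_on with
  | empty =>
    simp only [Finset.sum_empty]
    exact Lp.coeFn_zero _ _ _
  | insert a S ha ih =>
    rw [Finset.sum_insert ha]
    filter_upwards [Lp.coeFn_add (F a) (∑ i ∈ S, F i), ih] with y h1 h2
    rw [h1, Pi.add_apply, h2, Finset.sum_insert ha]

theorem pointwise_schur {ι : Type*} (S : Finset ι) (a x : ι → ℂ) {M : ℝ}
    (h : ∑ i ∈ S, ‖a i‖ ≤ M) :
    ‖∑ i ∈ S, a i * x i‖ ^ 2 ≤ M * ∑ i ∈ S, ‖a i‖ * ‖x i‖ ^ 2 := by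
  have h1 : ‖∑ i ∈ S, a i * x i‖ ≤ ∑ i ∈ S, ‖a i‖ * ‖x i‖ := by
    refine (norm_sum_le _ _).trans (le_of_eq ?_)
    exact Finset.sum_congr rfl fun i _ => norm_mul _ _
  have h2 : (∑ i ∈ S, ‖a i‖ * ‖x i‖) ^ 2 ≤ (∑ i ∈ S, ‖a i‖) * ∑ i ∈ S, ‖a i‖ * ‖x i‖ ^ 2 := by
    have h3 := Finset.sum_mul_sq_le_sq_mul_sq S (fun i => √‖a i‖) (fun i => √‖a i‖ * ‖x i‖)
    have h4 : ∀ i, √‖a i‖ * (√‖a i‖ * ‖x i‖) = ‖a i‖ * ‖x i‖ := fun i => by
      rw [← mul_assoc, Real.mul_self_sqrt (norm_nonneg _)]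
    have h5 : ∀ i, √‖a i‖ ^ 2 = ‖a i‖ := fun i => Real.sq_sqrt (norm_nonneg _)
    have h6 : ∀ i, (√‖a i‖ * ‖x i‖) ^ 2 = ‖a i‖ * ‖x i‖ ^ 2 := fun i => by
      rw [mul_pow, h5]
    simp only [h4, h5, h6] at h3
    exact h3
  have h7 : 0 ≤ ∑ i ∈ S, ‖a i‖ * ‖x i‖ ^ 2 := Finset.sum_nonneg fun i _ => by positivity
  calc ‖∑ i ∈ S, a i * x i‖ ^ 2 ≤ (∑ i ∈ S, ‖a i‖ * ‖x i‖) ^ 2 := by gcongr
    _ ≤ _ := h2
    _ ≤ M * ∑ i ∈ S, ‖a i‖ * ‖x i‖ ^ 2 := by gcongr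

theorem schur {Y : Type u} [MeasurableSpace Y] {ν : Measure Y} {ι : Type*} (S : Finset ι)
    (a : ι → Y → ℂ) (R R' : ι → Y → Y) (ha : ∀ i ∈ S, Measurable (a i))
    (ha1 : ∀ i ∈ S, ∀ y, ‖a i y‖ ≤ 1) (hR : ∀ i ∈ S, MeasurePreserving (R i) ν ν)
    (hR' : ∀ i ∈ S, MeasurePreserving (R' i) ν ν) (hinv : ∀ i ∈ S, ∀ y, R i (R' i y) = y)
    {M : ℝ} (row : ∀ y, ∑ i ∈ S, ‖a i y‖ ≤ M) (col : ∀ y, ∑ i ∈ S, ‖a i (R' i y)‖ ≤ M)
    (hM : 0 ≤ M) : ‖∑ i ∈ S, W ν (a i) (R i)‖ ≤ M := by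
  classical
  refine ContinuousLinearMap.opNorm_le_bound _ hM fun ξ => ?_
  set ζ := (∑ i ∈ S, W ν (a i) (R i)) ξ with hζ
  have hξm : Measurable (ξ : Y → ℂ) := (Lp.stronglyMeasurable ξ).measurable
  have hζae : ∀ᵐ y ∂ν, ζ y = ∑ i ∈ S, a i y * ξ (R i y) := by
    have h1 : ζ = ∑ i ∈ S, W ν (a i) (R i) ξ := by
      rw [hζ, ContinuousLinearMap.sum_apply]
    have h2 : ∀ᵐ y ∂ν, ∀ i ∈ S, W ν (a i) (R i) ξ y = a i y * ξ (R i y) := by
      rw [Filter.eventually_all_finset]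
      exact fun i hi => W_spec (ha i hi) (ha1 i hi) (hR i hi) ξ
    filter_upwards [coeFn_fsum S (fun i => W ν (a i) (R i) ξ), h2] with y h3 h4
    rw [h1, h3]
    exact Finset.sum_congr rfl h4
  have h1 : ENNReal.ofReal (‖ζ‖ ^ 2) ≤ ENNReal.ofReal ((M * ‖ξ‖) ^ 2) := by
    rw [norm_sq_lintegral]
    calc ∫⁻ y, ENNReal.ofReal (‖ζ y‖ ^ 2) ∂ν
        ≤ ∫⁻ y, ∑ i ∈ S, ENNReal.ofReal (M * (‖a i y‖ * ‖ξ (R i y)‖ ^ 2)) ∂ν := by
          refine lintegral_mono_ae ?_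
          filter_upwards [hζae] with y hy
          rw [hy, ← ENNReal.ofReal_sum_of_nonneg (fun i _ => by positivity), ← Finset.mul_sum]
          exact ENNReal.ofReal_le_ofReal (pointwise_schur S (fun i => a i y)
            (fun i => ξ (R i y)) (row y))
      _ = ∑ i ∈ S, ∫⁻ y, ENNReal.ofReal (M * (‖a i y‖ * ‖ξ (R i y)‖ ^ 2)) ∂ν := by
          refine lintegral_finset_sum' _ fun i hi => ?_
          refine (ENNReal.measurable_ofReal.comp ?_).aemeasurable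
          exact measurable_const.mul (((ha i hi).norm).mul
            (((hξm.comp (hR i hi).measurable).norm).pow_const 2))
      _ = ∑ i ∈ S, ∫⁻ y, ENNReal.ofReal (M * (‖a i (R' i y)‖ * ‖ξ y‖ ^ 2)) ∂ν := by
          refine Finset.sum_congr rfl fun i hi => ?_
          have hm : Measurable fun y => ENNReal.ofReal (M * (‖a i y‖ * ‖ξ (R i y)‖ ^ 2)) :=
            ENNReal.measurable_ofReal.comp (measurable_const.mul (((ha i hi).norm).mul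
            (((hξm.comp (hR i hi).measurable).norm).pow_const 2)))
          rw [← (hR' i hi).lintegral_comp hm]
          refine lintegral_congr fun y => ?_
          rw [hinv i hi y]
      _ = ∫⁻ y, ∑ i ∈ S, ENNReal.ofReal (M * (‖a i (R' i y)‖ * ‖ξ y‖ ^ 2)) ∂ν := by
          refine (lintegral_finset_sum' _ fun i hi => ?_).symm
          refine (ENNReal.measurable_ofReal.comp ?_).aemeasurable
          exact measurable_const.mul ((((ha i hi).comp (hR' i hi).measurable).norm).mul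
            ((hξm.norm).pow_const 2))
      _ ≤ ∫⁻ y, ENNReal.ofReal (M ^ 2) * ENNReal.ofReal (‖ξ y‖ ^ 2) ∂ν := by
          refine lintegral_mono fun y => ?_
          rw [← ENNReal.ofReal_sum_of_nonneg (fun i _ => by positivity), ← Finset.mul_sum,
            ← Finset.sum_mul, ← ENNReal.ofReal_mul (by positivity)]
          apply ENNReal.ofReal_le_ofReal
          have h5 := col y
          have h6 : (0 : ℝ) ≤ ‖ξ y‖ ^ 2 := by positivity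
          calc M * ((∑ i ∈ S, ‖a i (R' i y)‖) * ‖ξ y‖ ^ 2) ≤ M * (M * ‖ξ y‖ ^ 2) := by gcongr
            _ = M ^ 2 * ‖ξ y‖ ^ 2 := by ring
      _ = ENNReal.ofReal ((M * ‖ξ‖) ^ 2) := by
          rw [lintegral_const_mul' _ _ ENNReal.ofReal_ne_top, ← norm_sq_lintegral,
            ← ENNReal.ofReal_mul (by positivity), mul_pow]
  have h2 : ‖ζ‖ ^ 2 ≤ (M * ‖ξ‖) ^ 2 :=
    (ENNReal.ofReal_le_ofReal_iff (by positivity)).1 h1
  exact (pow_le_pow_iff_left₀ (norm_nonneg _) (by positivity) (by norm_num)).1 h2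

end Pool.Agent.H59.MO
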