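import Pool.Agent.H59.MO.Rep
import Pool.Agent.H59.MO.Schur
import Pool.Agent.H59.MO.Par1
import Pool.Agent.H59.MO.Par2
import Pool.Agent.H59.MO.BrInv
import Pool.Agent.H59.MO.PMeas

/-!
[H59 MO] Comm: the commutator of the parent operator with the representation has norm at most two.

PROOF. Let `g := γ.right`, `v := γ.left`. `sgn v (rho s y) = sgn v y` and
`tau g (rho s y) = rho s (tau g y)`. By `W_comp`, `W_sub`
`W (par1 s) (rho s) ∘ op γ - op γ ∘ W (par1 s) (rho s) = W (b s) (rho s) ∘ op γ` with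
`b s y := par1 idx S s y - par1 idx S s (tau g y)` (values in `{-1, 0, 1}`). Summing over `s ∈ S`
(`ContinuousLinearMap.finset_sum_comp` / `comp_finset_sum`, or `Finset.sum_mul`, `Finset.mul_sum` with
`∘L = *`) the commutator is `(∑ s ∈ S, W (b s) (rho s)) ∘ op γ` and `‖op γ‖ ≤ 1`. `schur` with
`R := rho`, `R' s := rho s⁻¹`, `M = 2`.
Row: `∑ s ∈ S, |b s y| ≤ ∑ par1 s y + ∑ par1 s (tau g y) ≤ 1 + 1`, since by `Par.unique` at most one
`s` has `par1 s y ≠ 0` (`y.1 * s = y.1 * s'` gives `s = s'`).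
Column, at `y = (x, ω)`: `b s (x s⁻¹, ω) = 1[Par ω (x s⁻¹) x] - 1[Par ω' (g⁻¹ x s⁻¹) (g⁻¹ x)]` with
`ω' := act g⁻¹ ω` (note `x s⁻¹ * s = x`). If the first holds and the second fails, then
`Br S ω (x s⁻¹) x`, so `Br S ω' (g⁻¹ x s⁻¹) (g⁻¹ x)` (`br_act`), so by `Par.or_of_br`
`Par ω' (g⁻¹ x) (g⁻¹ x s⁻¹)`; if the second holds and the first fails, then `Par ω x (x s⁻¹)`. Each of
these happens for at most one `s` (`Par.unique`). So the column sum is at most two.
-/

open MeasureTheory

namespace Pool.Agent.H59.MO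

universe u

open Classical in
theorem sum_ite_le_one {Γ : Type u} (S : Finset Γ) (p : Γ → Prop)
    (hp : ∀ s s', p s → p s' → s = s') : ∑ s ∈ S, (if p s then (1 : ℝ) else 0) ≤ 1 := by
  rw [Finset.sum_boole]
  have : (S.filter p).card ≤ 1 := by
    rw [Finset.card_le_one]
    intro a ha b hb
    exact hp a b (Finset.mem_filter.1 ha).2 (Finset.mem_filter.1 hb).2
  exact_mod_cast this

variable {Γ : Type u} [Group Γ] [Countable Γ] [MeasurableSpace Γ] [MeasurableSingletonClass Γ]

open Classical in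
omit [Countable Γ] [MeasurableSpace Γ] [MeasurableSingletonClass Γ] in
theorem norm_par1 (idx : Γ → ℕ) (S : Finset Γ) (s : Γ) (y : Γ × Conf Γ) :
    ‖par1 idx S s y‖ = if Par idx S y.2 y.1 (y.1 * s) then 1 else 0 := by
  unfold par1
  split_ifs <;> simp

omit [Countable Γ] [MeasurableSpace Γ] [MeasurableSingletonClass Γ] in
theorem row_par1 (idx : Γ → ℕ) (S : Finset Γ) (y : Γ × Conf Γ) :
    ∑ s ∈ S, ‖par1 idx S s y‖ ≤ 1 := by
  classical
  simp_rw [norm_par1]
  exact sum_ite_le_one S (fun s => Par idx S y.2 y.1 (y.1 * s))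
    (fun s s' h h' => mul_left_cancel (h.unique h'))

omit [Countable Γ] [MeasurableSpace Γ] [MeasurableSingletonClass Γ] in
theorem norm_diff_par1 (idx : Γ → ℕ) (S : Finset Γ) (s : Γ) (y y' : Γ × Conf Γ) :
    ‖par1 idx S s y - par1 idx S s y'‖ ≤ 1 := by
  unfold par1
  split_ifs <;> simp

theorem col_par1 {idx : Γ → ℕ} (hidx : Function.Injective idx) (S : Finset Γ) (g : Γ)
    (y : Γ × Conf Γ) :
    ∑ s ∈ S, ‖par1 idx S s (rho s⁻¹ y) - par1 idx S s (tau g (rho s⁻¹ y))‖ ≤ 2 := by
  classical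
  obtain ⟨x, ω⟩ := y
  have h1 : ∀ s ∈ S, ‖par1 idx S s (rho s⁻¹ (x, ω)) - par1 idx S s (tau g (rho s⁻¹ (x, ω)))‖ ≤
      (if Par idx S (act g⁻¹ ω) (g⁻¹ * x) (g⁻¹ * (x * s⁻¹)) then (1 : ℝ) else 0) +
        (if Par idx S ω x (x * s⁻¹) then (1 : ℝ) else 0) := by
    intro s _
    have e1 : par1 idx S s (rho s⁻¹ (x, ω)) = if Par idx S ω (x * s⁻¹) x then 1 else 0 := by
      simp [par1, rho]
    have e2 : par1 idx S s (tau g (rho s⁻¹ (x, ω))) =
        if Par idx S (act g⁻¹ ω) (g⁻¹ * (x * s⁻¹)) (g⁻¹ * x) then 1 else 0 := by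
      have h0 : g⁻¹ * (x * s⁻¹) * s = g⁻¹ * x := by group
      simp only [par1, rho, tau, h0]
    rw [e1, e2]
    by_cases hA : Par idx S ω (x * s⁻¹) x
    · by_cases hB : Par idx S (act g⁻¹ ω) (g⁻¹ * (x * s⁻¹)) (g⁻¹ * x)
      · rw [if_pos hA, if_pos hB]
        simp only [sub_self, norm_zero]
        positivity
      · have hbr : Br S (act g⁻¹ ω) (g⁻¹ * (x * s⁻¹)) (g⁻¹ * x) := (br_act g⁻¹ S ω _ _).2 hA.1
        have hC : Par idx S (act g⁻¹ ω) (g⁻¹ * x) (g⁻¹ * (x * s⁻¹)) :=
          (Par.or_of_br hidx hbr).resolve_left hB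
        rw [if_pos hA, if_neg hB, if_pos hC]
        simp only [sub_zero, norm_one]
        have : (0 : ℝ) ≤ if Par idx S ω x (x * s⁻¹) then 1 else 0 := by split_ifs <;> norm_num
        linarith
    · by_cases hB : Par idx S (act g⁻¹ ω) (g⁻¹ * (x * s⁻¹)) (g⁻¹ * x)
      · have hbr : Br S ω (x * s⁻¹) x := (br_act g⁻¹ S ω _ _).1 hB.1
        have hC : Par idx S ω x (x * s⁻¹) := (Par.or_of_br hidx hbr).resolve_left hA
        rw [if_neg hA, if_pos hB, if_pos hC]
        simp only [zero_sub, norm_neg, norm_one]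
        have : (0 : ℝ) ≤ if Par idx S (act g⁻¹ ω) (g⁻¹ * x) (g⁻¹ * (x * s⁻¹)) then 1 else 0 := by
          split_ifs <;> norm_num
        linarith
      · rw [if_neg hA, if_neg hB]
        simp only [sub_self, norm_zero]
        positivity
  refine (Finset.sum_le_sum h1).trans ?_
  rw [Finset.sum_add_distrib]
  have h2 := sum_ite_le_one S (fun s => Par idx S (act g⁻¹ ω) (g⁻¹ * x) (g⁻¹ * (x * s⁻¹)))
    (fun s s' h h' => by
      have := mul_left_cancel (mul_left_cancel (h.unique h'))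
      exact inv_injective this)
  have h3 := sum_ite_le_one S (fun s => Par idx S ω x (x * s⁻¹))
    (fun s s' h h' => inv_injective (mul_left_cancel (h.unique h')))
  linarith

theorem commutator_le (w : Γ → ℝ) {idx : Γ → ℕ} (hidx : Function.Injective idx) (S : Finset Γ)
    (γ : Ext Γ) : ‖pop idx S w ∘L op w γ - op w γ ∘L pop idx S w‖ ≤ 2 := by
  classical
  set g := γ.right with hg
  set v := γ.left with hv
  have hpm : ∀ s, Measurable (par1 idx S s) := fun s => measurable_par1 idx S s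
  have hp1 : ∀ s y, ‖par1 idx S s y‖ ≤ 1 := fun s y => by
    rw [norm_par1]; split_ifs <;> norm_num
  have hτ := measurePreserving_tau w g
  have hρ := fun s => measurePreserving_rho w s
  have hb : ∀ s, Measurable (fun y : Γ × Conf Γ => par1 idx S s y - par1 idx S s (tau g y)) :=
    fun s => (hpm s).sub ((hpm s).comp hτ.measurable)
  have hb1 : ∀ s (y : Γ × Conf Γ), ‖par1 idx S s y - par1 idx S s (tau g y)‖ ≤ 1 :=
    fun s y => norm_diff_par1 idx S s _ _
  have hsv : ∀ y, ‖sgn v y‖ ≤ 1 := fun y => (norm_sgn v y).le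
  have key : ∀ s ∈ S, W (nu w) (par1 idx S s) (rho s) ∘L op w γ -
      op w γ ∘L W (nu w) (par1 idx S s) (rho s) =
      W (nu w) (fun y => par1 idx S s y - par1 idx S s (tau g y)) (rho s) ∘L op w γ := by
    intro s _
    unfold op
    rw [W_comp (hpm s) (hp1 s) (hρ s) (measurable_sgn v) hsv hτ,
      W_comp (measurable_sgn v) hsv hτ (hpm s) (hp1 s) (hρ s),
      W_comp (hb s) (hb1 s) (hρ s) (measurable_sgn v) hsv hτ]
    have hmap : (fun y : Γ × Conf Γ => rho s (tau g y)) = fun y => tau g (rho s y) := by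
      funext y
      simp [rho, tau, mul_assoc]
    rw [hmap, W_sub]
    · congr 1
      funext y
      have : sgn v (rho s y) = sgn v y := rfl
      rw [this]
      ring
    · exact (hpm s).mul ((measurable_sgn v).comp (hρ s).measurable)
    · intro y
      rw [norm_mul]
      exact mul_le_one₀ (hp1 s y) (norm_nonneg _) (hsv _)
    · exact (measurable_sgn v).mul ((hpm s).comp hτ.measurable)
    · intro y
      rw [norm_mul]
      exact mul_le_one₀ (hsv y) (norm_nonneg _) (hp1 s _)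
    · intro y
      have : sgn v (rho s y) = sgn v y := rfl
      rw [this, mul_comm, ← mul_sub, norm_mul]
      exact mul_le_one₀ (hsv y) (norm_nonneg _) (hb1 s y)
    · exact hτ.comp (hρ s)
  have hsum : pop idx S w ∘L op w γ - op w γ ∘L pop idx S w =
      (∑ s ∈ S, W (nu w) (fun y => par1 idx S s y - par1 idx S s (tau g y)) (rho s)) ∘L
        op w γ := by
    unfold pop
    rw [ContinuousLinearMap.finset_sum_comp, ContinuousLinearMap.finset_sum_comp,
      ContinuousLinearMap.comp_finset_sum, ← Finset.sum_sub_distrib]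
    exact Finset.sum_congr rfl key
  rw [hsum]
  have hop : ‖op w γ‖ ≤ 1 := ContinuousLinearMap.opNorm_le_bound _ zero_le_one fun ξ => by
    rw [one_mul]
    exact W_norm_le (measurable_sgn v) hsv hτ ξ
  have hS : ‖∑ s ∈ S, W (nu w) (fun y => par1 idx S s y - par1 idx S s (tau g y)) (rho s)‖ ≤ 2 := by
    refine schur S (fun s y => par1 idx S s y - par1 idx S s (tau g y)) (fun s => rho s)
      (fun s => rho s⁻¹) (fun s _ => hb s) (fun s _ => hb1 s) (fun s _ => hρ s)
      (fun s _ => hρ s⁻¹) ?_ ?_ ?_ (by norm_num)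
    · intro s _ y
      simp [rho]
    · intro y
      refine (Finset.sum_le_sum fun s _ => norm_sub_le _ _).trans ?_
      rw [Finset.sum_add_distrib]
      have h1 := row_par1 idx S y
      have h2 := row_par1 idx S (tau g y)
      linarith
    · intro y
      exact col_par1 hidx S g y
  refine (ContinuousLinearMap.opNorm_comp_le _ _).trans ?_
  nlinarith [norm_nonneg (op w γ), norm_nonneg (∑ s ∈ S,
    W (nu w) (fun y => par1 idx S s y - par1 idx S s (tau g y)) (rho s))]

end Pool.Agent.H59.MO
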