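import Pool.Agent.H59.MO.DerU

/-!
[H59 MO] Crit: a criterion for non-unitarisability.

PROOF. Suppose `G` is unitarisable. Choose the data `H n, π n, f n, ξ n` of `h n` for all `n` (pack them
in one structure or use `Classical.choose` step by step; instances with `letI`). Let
`D n g := f n ∘ π n g - π n g ∘ f n`; then `D n (g h) = D n g ∘ π n h + π n g ∘ D n h`, norm `≤ 2`.
`der_uniform` gives `K`, `T n` with `‖T n‖ ≤ K` and `φ n := f n - T n` commutes with all `π n g`. So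
`‖φ n ξ‖ = ‖φ n* ξ‖` and
`n ≤ ‖f n ξ‖ ≤ ‖φ n ξ‖ + K = ‖φ n* ξ‖ + K ≤ ‖f n* ξ‖ + ‖T n*‖ + K ≤ 1 + 2 K`,
false for large `n`.
-/

namespace Pool.Agent.H59.MO

open Pool.Agent.H58.Lit

universe u

theorem not_unitarisable_of_models {G : Type u} [Group G]
    (h : ∀ n : ℕ, ∃ (H : Type u) (_ : NormedAddCommGroup H) (_ : InnerProductSpace ℂ H)
      (_ : CompleteSpace H) (π : G →* (H →L[ℂ] H)) (f : H →L[ℂ] H) (ξ : H),
      (∀ g, π g ∈ unitary (H →L[ℂ] H)) ∧ (∀ g, ‖f ∘L π g - π g ∘L f‖ ≤ 2) ∧ ‖ξ‖ = 1 ∧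
      (∀ K : H →L[ℂ] H, (∀ g, K ∘L π g = π g ∘L K) →
        ‖K ξ‖ = ‖ContinuousLinearMap.adjoint K ξ‖) ∧
      ‖ContinuousLinearMap.adjoint f ξ‖ ≤ 1 ∧ (n : ℝ) ≤ ‖f ξ‖) : ¬ Unitarisable G := by
  intro hG
  choose H i1 i2 i3 π f ξ hπ hcomm hξ htr hadj hbig using h
  have hder : ∀ n g h', (f n ∘L π n (g * h') - π n (g * h') ∘L f n) =
      (f n ∘L π n g - π n g ∘L f n) ∘L π n h' + π n g ∘L (f n ∘L π n h' - π n h' ∘L f n) := by
    intro n g h'
    rw [map_mul]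
    ext x
    simp
  obtain ⟨K, T, hT⟩ := der_uniform hG H π hπ (fun n g => f n ∘L π n g - π n g ∘L f n) hcomm hder
  obtain ⟨n, hn⟩ := exists_nat_gt (1 + 2 * K)
  obtain ⟨hK, hTn⟩ := hT n
  have h1 := htr n (f n - T n) (fun g => by
    have h2 := hTn g
    ext x
    have h3 := congrArg (fun A : H n →L[ℂ] H n => A x) h2
    simp only [ContinuousLinearMap.coe_sub', Pi.sub_apply, ContinuousLinearMap.coe_comp',
      Function.comp_apply, map_sub] at h3 ⊢
    have h4 : f n (π n g x) - T n (π n g x) = π n g (f n x) - π n g (T n x) := by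
      rw [sub_eq_sub_iff_sub_eq_sub]
      exact h3
    exact h4)
  have h5 : ‖f n (ξ n)‖ ≤ ‖(f n - T n) (ξ n)‖ + K := by
    have h6 : f n (ξ n) = (f n - T n) (ξ n) + T n (ξ n) := by simp
    rw [h6]
    refine (norm_add_le _ _).trans (add_le_add (by simp) ?_)
    refine ((T n).le_opNorm _).trans ?_
    rw [hξ n, mul_one]
    exact hK
  have h7 : ‖ContinuousLinearMap.adjoint (f n - T n) (ξ n)‖ ≤ 1 + K := by
    rw [map_sub]
    refine (norm_sub_le _ _).trans (add_le_add (hadj n) ?_)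
    refine ((ContinuousLinearMap.adjoint (T n)).le_opNorm _).trans ?_
    rw [hξ n, mul_one, LinearIsometryEquiv.norm_map]
    exact hK
  have h8 := hbig n
  rw [h1] at h5
  linarith

end Pool.Agent.H59.MO
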