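import Pool.Agent.H59.MO.Defs

/-!
[H59 MO] Cyl: probability that all pairs of a finite set are open.

PROOF. `Measure.infinitePi_pi` with `t z = {true}`; `(PMF.bernoulli p h).toMeasure {true} = p`
(`PMF.toMeasure_apply_singleton`, `PMF.bernoulli_apply`).
-/

open MeasureTheory
open scoped ENNReal

namespace Pool.Agent.H59.MO

universe u

theorem Pm_all_open {Γ : Type u} [Group Γ] (w : Γ → ℝ) (A : Finset (Sym2 Γ)) :
    Pm w {ω : Conf Γ | ∀ z ∈ A, ω z = true} = ∏ z ∈ A, (ew w z : ℝ≥0∞) := by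
  have h1 : {ω : Conf Γ | ∀ z ∈ A, ω z = true} = Set.pi (A : Set (Sym2 Γ)) (fun _ => {true}) := by
    ext ω
    simp [Set.mem_pi]
  rw [h1]
  unfold Pm
  rw [Measure.infinitePi_pi _ (fun i _ => MeasurableSet.singleton true)]
  refine Finset.prod_congr rfl fun z _ => ?_
  rw [PMF.toMeasure_apply_singleton _ _ (MeasurableSet.singleton true)]
  exact PMF.bernoulli_apply _ true

end Pool.Agent.H59.MO
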