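import Pool.Agent.H59.MO.Defs

/-!
[H59 MO] DD1 (Day, Dixmier): an invariant inner product for a uniformly bounded representation of an
amenable group.

PROOF. `m` the left-invariant mean. For `x y : H` put `F x y g := ⟪π g⁻¹ x, π g⁻¹ y⟫` (bounded by
`C² ‖x‖ ‖y‖`) and `B x y := m (re F) + i m (im F)`: additive in both variables, conjugate linear in `x`,
linear in `y` (multiplication by a complex number mixes real and imaginary parts; use additivity and
homogeneity of `m` on bounded functions), `‖B x y‖ ≤ 2 C² ‖x‖ ‖y‖`. So there is a bounded operator `P`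
with `⟪P x, y⟫ = B x y` (`InnerProductSpace.continuousLinearMapOfBilin`, or Riesz
`InnerProductSpace.toDual` for every fixed `x`; `LinearMap.mkContinuous₂`). `conj (B x y) = B y x`, so `P`
is self-adjoint (symmetric). `re ⟪P x, x⟫ = m (g ↦ ‖π g⁻¹ x‖²) ≥ ‖x‖² / C²` since
`‖x‖ = ‖π g (π g⁻¹ x)‖ ≤ C ‖π g⁻¹ x‖` (here `C > 0` may be assumed: replace it by `max C 1`).
Invariance: `F (π h x) (π h y) g = ⟪π (g⁻¹ h) x, π (g⁻¹ h) y⟫ = F x y (h⁻¹ g)`, and `m` is
left-invariant (`m (fun g => f (h⁻¹ * g)) = m f`).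
-/

open scoped InnerProductSpace

namespace Pool.Agent.H59.MO

open Pool.Agent.H58.Lit

universe u

/-- the complex mean associated with a real mean -/
noncomputable def mc {G : Type u} (m : (G → ℝ) → ℝ) (F : G → ℂ) : ℂ :=
  ⟨m (fun g => (F g).re), m (fun g => (F g).im)⟩

theorem dd_bdd_re {G : Type u} {F : G → ℂ} {C : ℝ} (h : ∀ g, ‖F g‖ ≤ C) : Bdd (fun g => (F g).re) :=
  ⟨C, fun g => (Complex.abs_re_le_norm _).trans (h g)⟩

theorem dd_bdd_im {G : Type u} {F : G → ℂ} {C : ℝ} (h : ∀ g, ‖F g‖ ≤ C) : Bdd (fun g => (F g).im) :=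
  ⟨C, fun g => (Complex.abs_im_le_norm _).trans (h g)⟩

theorem dd_bdd_smul {G : Type u} {f : G → ℝ} (c : ℝ) (h : Bdd f) : Bdd (c • f) := by
  obtain ⟨C, hC⟩ := h
  refine ⟨|c| * C, fun x => ?_⟩
  rw [Pi.smul_apply, smul_eq_mul, abs_mul]
  exact mul_le_mul_of_nonneg_left (hC x) (abs_nonneg _)

theorem exists_invariant_operator {G : Type u} [Group G] (hG : Amenable G) {H : Type u}
    [NormedAddCommGroup H] [InnerProductSpace ℂ H] [CompleteSpace H] (π : G →* (H →L[ℂ] H))
    {C : ℝ} (hπ : ∀ g, ‖π g‖ ≤ C) :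
    ∃ P : H →L[ℂ] H, (∀ x y, ⟪P x, y⟫_ℂ = ⟪x, P y⟫_ℂ) ∧
      (∃ c : ℝ, 0 < c ∧ ∀ x, c * ‖x‖ ^ 2 ≤ (⟪P x, x⟫_ℂ).re) ∧
      ∀ g x y, ⟪P (π g x), π g y⟫_ℂ = ⟪P x, y⟫_ℂ := by
  obtain ⟨m, madd, msmul, mpos, mone, minv⟩ := hG
  -- elementary properties of the mean
  have mle : ∀ (f : G → ℝ) (c : ℝ), Bdd f → (∀ x, c ≤ f x) → c ≤ m f := by
    intro f c hf hc
    have hb1 : Bdd (fun _ : G => (1 : ℝ)) := ⟨1, fun _ => by simp⟩
    have h1 : m (f + (-c) • (fun _ : G => (1 : ℝ))) = m f + (-c) * 1 := by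
      rw [madd _ _ hf (dd_bdd_smul _ hb1), msmul _ _ hb1, mone]
    have h2 : 0 ≤ m (f + (-c) • (fun _ : G => (1 : ℝ))) := by
      apply mpos
      · obtain ⟨C, hC⟩ := hf
        refine ⟨C + |c|, fun x => ?_⟩
        simp only [Pi.add_apply, Pi.smul_apply, smul_eq_mul, mul_one]
        exact (abs_add_le _ _).trans (add_le_add (hC x) (by rw [abs_neg]))
      · intro x
        simp only [Pi.add_apply, Pi.smul_apply, smul_eq_mul, mul_one]
        linarith [hc x]
    linarith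
  have mabs : ∀ (f : G → ℝ) (c : ℝ), (∀ x, |f x| ≤ c) → |m f| ≤ c := by
    intro f c hf
    have hb : Bdd f := ⟨c, hf⟩
    rw [abs_le]
    refine ⟨mle f (-c) hb fun x => (abs_le.1 (hf x)).1, ?_⟩
    have h1 := mle ((-1 : ℝ) • f) (-c) (dd_bdd_smul _ hb) fun x => by
      rw [Pi.smul_apply, smul_eq_mul]
      linarith [(abs_le.1 (hf x)).2]
    rw [msmul _ _ hb] at h1
    linarith
  have mcadd : ∀ (F F' : G → ℂ) (c c' : ℝ), (∀ g, ‖F g‖ ≤ c) → (∀ g, ‖F' g‖ ≤ c') →
      mc m (fun g => F g + F' g) = mc m F + mc m F' := by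
    intro F F' c c' h h'
    apply Complex.ext
    · change m (fun g => (F g + F' g).re) = m (fun g => (F g).re) + m (fun g => (F' g).re)
      rw [← madd _ _ (dd_bdd_re h) (dd_bdd_re h')]
      rfl
    · change m (fun g => (F g + F' g).im) = m (fun g => (F g).im) + m (fun g => (F' g).im)
      rw [← madd _ _ (dd_bdd_im h) (dd_bdd_im h')]
      rfl
  have mcmul : ∀ (a : ℂ) (F : G → ℂ) (c : ℝ), (∀ g, ‖F g‖ ≤ c) →
      mc m (fun g => a * F g) = a * mc m F := by
    intro a F c h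
    apply Complex.ext
    · rw [Complex.mul_re]
      change m (fun g => (a * F g).re) =
        a.re * m (fun g => (F g).re) - a.im * m (fun g => (F g).im)
      have h1 : (fun g => (a * F g).re) =
          a.re • (fun g => (F g).re) + (-a.im) • (fun g => (F g).im) := by
        funext g
        simp only [Complex.mul_re, Pi.add_apply, Pi.smul_apply, smul_eq_mul]
        ring
      rw [h1, madd _ _ (dd_bdd_smul _ (dd_bdd_re h)) (dd_bdd_smul _ (dd_bdd_im h)), msmul _ _ (dd_bdd_re h),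
        msmul _ _ (dd_bdd_im h)]
      ring
    · rw [Complex.mul_im]
      change m (fun g => (a * F g).im) =
        a.re * m (fun g => (F g).im) + a.im * m (fun g => (F g).re)
      have h1 : (fun g => (a * F g).im) =
          a.re • (fun g => (F g).im) + a.im • (fun g => (F g).re) := by
        funext g
        simp only [Complex.mul_im, Pi.add_apply, Pi.smul_apply, smul_eq_mul]
      rw [h1, madd _ _ (dd_bdd_smul _ (dd_bdd_im h)) (dd_bdd_smul _ (dd_bdd_re h)), msmul _ _ (dd_bdd_re h),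
        msmul _ _ (dd_bdd_im h)]
  have mcbd : ∀ (F : G → ℂ) (c : ℝ), (∀ g, ‖F g‖ ≤ c) → ‖mc m F‖ ≤ 2 * c := by
    intro F c h
    refine (Complex.norm_le_abs_re_add_abs_im _).trans ?_
    have h1 := mabs (fun g => (F g).re) c fun g => (Complex.abs_re_le_norm _).trans (h g)
    have h2 := mabs (fun g => (F g).im) c fun g => (Complex.abs_im_le_norm _).trans (h g)
    change |m (fun g => (F g).re)| + |m (fun g => (F g).im)| ≤ 2 * c
    linarith
  -- the matrix coefficients
  have hC1 : ∀ g, ‖π g‖ ≤ max C 1 := fun g => (hπ g).trans (le_max_left _ _)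
  set C' : ℝ := max C 1 with hC'
  have hC'1 : 1 ≤ C' := le_max_right _ _
  have hC'0 : 0 < C' := by linarith
  have hx : ∀ g (x : H), ‖π g x‖ ≤ C' * ‖x‖ := fun g x =>
    ((π g).le_opNorm x).trans (mul_le_mul_of_nonneg_right (hC1 g) (norm_nonneg _))
  let F : H → H → G → ℂ := fun x y g => ⟪π g⁻¹ x, π g⁻¹ y⟫_ℂ
  have hF : ∀ x y g, ‖F x y g‖ ≤ C' ^ 2 * (‖x‖ * ‖y‖) := by
    intro x y g
    refine (norm_inner_le_norm _ _).trans ?_
    calc ‖π g⁻¹ x‖ * ‖π g⁻¹ y‖ ≤ (C' * ‖x‖) * (C' * ‖y‖) :=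
          mul_le_mul (hx _ _) (hx _ _) (norm_nonneg _) (by positivity)
      _ = C' ^ 2 * (‖x‖ * ‖y‖) := by ring
  let B0 : H →ₗ⋆[ℂ] H →ₗ[ℂ] ℂ := LinearMap.mk₂'ₛₗ (starRingEnd ℂ) (RingHom.id ℂ)
    (fun x y => mc m (F x y))
    (fun x x' y => by
      rw [← mcadd _ _ _ _ (hF x y) (hF x' y)]
      congr 1
      funext g
      simp only [F, map_add, inner_add_left])
    (fun c x y => by
      rw [smul_eq_mul, ← mcmul _ _ _ (hF x y)]
      congr 1
      funext g
      simp only [F, map_smul, inner_smul_left])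
    (fun x y y' => by
      rw [← mcadd _ _ _ _ (hF x y) (hF x y')]
      congr 1
      funext g
      simp only [F, map_add, inner_add_right])
    (fun c x y => by
      rw [RingHom.id_apply, smul_eq_mul, ← mcmul _ _ _ (hF x y)]
      congr 1
      funext g
      simp only [F, map_smul, inner_smul_right])
  have hB0 : ∀ x y, ‖B0 x y‖ ≤ (2 * C' ^ 2) * ‖x‖ * ‖y‖ := by
    intro x y
    refine (mcbd _ _ (hF x y)).trans (le_of_eq ?_)
    ring
  let B : H →L⋆[ℂ] H →L[ℂ] ℂ := LinearMap.mkContinuous₂ B0 (2 * C' ^ 2) hB0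
  let P : H →L[ℂ] H := InnerProductSpace.continuousLinearMapOfBilin B
  have hP : ∀ x y, ⟪P x, y⟫_ℂ = mc m (F x y) := fun x y =>
    InnerProductSpace.continuousLinearMapOfBilin_apply B x y
  have hconj : ∀ x y, mc m (F x y) = (starRingEnd ℂ) (mc m (F y x)) := by
    intro x y
    have h1 : ∀ g, F x y g = (starRingEnd ℂ) (F y x g) := fun g => (inner_conj_symm _ _).symm
    apply Complex.ext
    · rw [Complex.conj_re]
      change m (fun g => (F x y g).re) = m (fun g => (F y x g).re)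
      congr 1
      funext g
      rw [h1, Complex.conj_re]
    · rw [Complex.conj_im]
      change m (fun g => (F x y g).im) = - m (fun g => (F y x g).im)
      have h2 : (fun g => (F x y g).im) = (-1 : ℝ) • (fun g => (F y x g).im) := by
        funext g
        rw [h1, Complex.conj_im, Pi.smul_apply, smul_eq_mul, neg_one_mul]
      rw [h2, msmul _ _ (dd_bdd_im (hF y x)), neg_one_mul]
  refine ⟨P, fun x y => ?_, ⟨1 / C' ^ 2, by positivity, fun x => ?_⟩, fun h x y => ?_⟩
  · rw [hP, hconj, ← hP, inner_conj_symm]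
  · rw [hP]
    change _ ≤ m (fun g => (F x x g).re)
    refine mle _ _ (dd_bdd_re (hF x x)) fun g => ?_
    have h1 : (F x x g).re = ‖π g⁻¹ x‖ ^ 2 := by
      have h2 := inner_self_eq_norm_sq (𝕜 := ℂ) (π g⁻¹ x)
      exact h2
    rw [h1]
    have h3 : ‖x‖ ≤ C' * ‖π g⁻¹ x‖ := by
      have h4 : π g (π g⁻¹ x) = x := by
        have h5 : (π g * π g⁻¹) x = x := by
          rw [← map_mul, mul_inv_cancel, map_one]
          rfl
        exact h5
      calc ‖x‖ = ‖π g (π g⁻¹ x)‖ := by rw [h4]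
        _ ≤ _ := hx _ _
    rw [div_mul_eq_mul_div, one_mul, div_le_iff₀ (by positivity), mul_comm, ← mul_pow]
    exact pow_le_pow_left₀ (norm_nonneg _) h3 2
  · rw [hP, hP]
    have h1 : F (π h x) (π h y) = fun g => F x y (h⁻¹ * g) := by
      funext g
      have h2 : ∀ z, π g⁻¹ (π h z) = π (h⁻¹ * g)⁻¹ z := by
        intro z
        rw [mul_inv_rev, inv_inv, map_mul]
        rfl
      simp only [F, h2]
    rw [h1]
    apply Complex.ext
    · exact minv h⁻¹ (fun g => (F x y g).re) (dd_bdd_re (hF x y))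
    · exact minv h⁻¹ (fun g => (F x y g).im) (dd_bdd_im (hF x y))

end Pool.Agent.H59.MO
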