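import Pool.Agent.H59.MO.DD1

/-!
[H59 MO] DD2 (Day, Dixmier): amenable groups are unitarisable.

PROOF. Let `P` be as in `exists_invariant_operator`. `P` is positive
(`ContinuousLinearMap.IsPositive`, `0 ≤ P` in the C*-algebra `H →L H`) and `c • 1 ≤ P`, so `P` is
invertible (`CStarAlgebra.isUnit_of_le`, or: bounded below and self-adjoint). Let `R := CFC.sqrt P`
(`CFC.sqrt_mul_sqrt_self`): self-adjoint, `R * R = P`, invertible because `R * R` is (`R` commutes with
itself: `isUnit_of_mul_isUnit_left` / `Commute.isUnit_mul_iff`). Let `S : H ≃L H` be the equivalence of `R`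
(`ContinuousLinearEquiv.unitsEquiv`). `u g := S ∘ π g ∘ S⁻¹` satisfies
`⟪u g x, u g y⟫ = ⟪R π g x', R π g y'⟫ = ⟪P π g x', π g y'⟫ = ⟪P x', y'⟫ = ⟪R x', R y'⟫ = ⟪x, y⟫` with
`x' = S⁻¹ x`, `y' = S⁻¹ y`, and `u g ∘ u g⁻¹ = 1`, so `u g` is an invertible isometry: unitary.
-/

open scoped InnerProductSpace

namespace Pool.Agent.H59.MO

open Pool.Agent.H58.Lit

universe u

theorem unitarisable_of_amenable {G : Type u} [Group G] (hG : Amenable G) : Unitarisable G := by
  intro H _ _ _ π hπ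
  obtain ⟨C, hC⟩ := hπ
  obtain ⟨P, hsym, ⟨c, hc, hpos⟩, hinv⟩ := exists_invariant_operator hG π hC
  have hPpos : P.IsPositive := by
    refine ⟨fun x y => hsym x y, fun x => ?_⟩
    have h1 := hpos x
    exact le_trans (by positivity) h1
  have hP0 : 0 ≤ P := (ContinuousLinearMap.nonneg_iff_isPositive P).2 hPpos
  have hPu : IsUnit P := by
    refine ContinuousLinearMap.isUnit_of_forall_le_norm_inner_map P (c := ⟨c, hc.le⟩) hc
      fun x => ?_
    have h1 := hpos x
    have h2 : (⟪P x, x⟫_ℂ).re ≤ ‖⟪P x, x⟫_ℂ‖ := Complex.re_le_norm _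
    change ‖x‖ ^ 2 * c ≤ _
    linarith
  have hRR : CFC.sqrt P * CFC.sqrt P = P := CFC.sqrt_mul_sqrt_self P hP0
  have hRsa : IsSelfAdjoint (CFC.sqrt P) := IsSelfAdjoint.of_nonneg (CFC.sqrt_nonneg P)
  set R : H →L[ℂ] H := CFC.sqrt P with hR
  have hRu : IsUnit R := by
    rw [← isUnit_pow_iff (two_ne_zero), sq, hRR]
    exact hPu
  obtain ⟨u, hu⟩ := hRu
  let S : H ≃L[ℂ] H := ContinuousLinearEquiv.ofUnit u
  have hS : ∀ x, S x = R x := fun x => by
    rw [← hu]
    rfl
  have hRin : ∀ x y, ⟪R x, R y⟫_ℂ = ⟪P x, y⟫_ℂ := by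
    intro x y
    have h1 : ContinuousLinearMap.adjoint R = R := hRsa
    rw [← ContinuousLinearMap.adjoint_inner_left, h1, ← hRR]
    rfl
  refine ⟨S, fun g => ?_⟩
  let U : G → (H →L[ℂ] H) := fun g => (S : H →L[ℂ] H) ∘L π g ∘L (S.symm : H →L[ℂ] H)
  have hU : ∀ g x, U g x = S (π g (S.symm x)) := fun g x => rfl
  have hUin : ∀ g x y, ⟪U g x, U g y⟫_ℂ = ⟪x, y⟫_ℂ := by
    intro g x y
    rw [hU, hU, hS, hS, hRin, hinv, ← hRin, ← hS, ← hS, S.apply_symm_apply, S.apply_symm_apply]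
  have hUU : ∀ g x, U g (U g⁻¹ x) = x := by
    intro g x
    rw [hU, hU, S.symm_apply_apply]
    have h5 : (π g * π g⁻¹) (S.symm x) = S.symm x := by
      rw [← map_mul, mul_inv_cancel, map_one]
      rfl
    have h6 : π g (π g⁻¹ (S.symm x)) = S.symm x := h5
    rw [h6, S.apply_symm_apply]
  have had1 : ∀ g x, ContinuousLinearMap.adjoint (U g) (U g x) = x := by
    intro g x
    apply ext_inner_right ℂ
    intro y
    rw [ContinuousLinearMap.adjoint_inner_left, hUin]
  have had2 : ∀ g x, ContinuousLinearMap.adjoint (U g) x = U g⁻¹ x := by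
    intro g x
    have h1 := had1 g (U g⁻¹ x)
    rwa [hUU] at h1
  change U g ∈ unitary (H →L[ℂ] H)
  rw [Unitary.mem_iff]
  constructor
  · apply ContinuousLinearMap.ext
    intro x
    exact had1 g x
  · apply ContinuousLinearMap.ext
    intro x
    change U g (ContinuousLinearMap.adjoint (U g) x) = x
    rw [had2, hUU]

end Pool.Agent.H59.MO
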