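import Mathlib
import Pool.Agent.H58.Lit.Defs

/-!
Common definitions. Everything is proved here.
-/

open MeasureTheory
open scoped ENNReal NNReal

namespace Pool.Agent.H59.MO

universe u

/-! ### the left regular representation space -/

/-- `ℓ²(Γ)` -/
abbrev L2 (Γ : Type u) : Type u := lp (fun _ : Γ => ℂ) 2

/-- total weight of the words `(s₁, …, s_k)` over `T` with product `x` -/
noncomputable def ret {Γ : Type u} [Group Γ] (w : Γ → ℝ) (T : Finset Γ) : ℕ → Γ → ℝ
  | 0 => fun x => by classical exact if x = 1 then 1 else 0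
  | k + 1 => fun x => ∑ s ∈ T, w s * ret w T k (s⁻¹ * x)

/-! ### the random graph -/

/-- configurations: which unordered pairs are open -/
abbrev Conf (Γ : Type u) : Type u := Sym2 Γ → Bool

section

variable {Γ : Type u} [Group Γ]

/-- left translation of configurations -/
def act (g : Γ) (ω : Conf Γ) : Conf Γ := fun z => ω (Sym2.map (fun x => g⁻¹ * x) z)

theorem act_one (ω : Conf Γ) : act 1 ω = ω := by
  funext z
  simp [act]

theorem act_mul (g h : Γ) (ω : Conf Γ) : act (g * h) ω = act g (act h ω) := by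
  funext z
  simp [act, Sym2.map_map, Function.comp_def, mul_assoc]

theorem act_apply (g : Γ) (ω : Conf Γ) (x y : Γ) : act g ω s(x, y) = ω s(g⁻¹ * x, g⁻¹ * y) := rfl

theorem measurable_act (g : Γ) : Measurable (act g : Conf Γ → Conf Γ) :=
  measurable_pi_iff.2 fun z => measurable_pi_apply _

/-- the graph of the open pairs `{x, y}` with `x⁻¹ y ∈ S`, `y⁻¹ x ∈ S` -/
def Gr (S : Finset Γ) (ω : Conf Γ) : SimpleGraph Γ where
  Adj x y := x ≠ y ∧ x⁻¹ * y ∈ S ∧ y⁻¹ * x ∈ S ∧ ω s(x, y) = true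
  symm := ⟨fun x y h => ⟨h.1.symm, h.2.2.1, h.2.1, by rw [Sym2.eq_swap]; exact h.2.2.2⟩⟩
  loopless := ⟨fun x h => h.1 rfl⟩

/-- the graph without the edge `{x, y}` -/
def Gm (S : Finset Γ) (ω : Conf Γ) (x y : Γ) : SimpleGraph Γ := (Gr S ω).deleteEdges {s(x, y)}

/-- `{x, y}` is an edge whose removal disconnects `x` from `y` -/
def Br (S : Finset Γ) (ω : Conf Γ) (x y : Γ) : Prop :=
  (Gr S ω).Adj x y ∧ ¬ (Gm S ω x y).Reachable x y

/-- `y` is the parent of `x`: `{x, y}` is a bridge and after its removal the component of `y` has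
a vertex whose index is smaller than all indices of the component of `x` -/
def Par (idx : Γ → ℕ) (S : Finset Γ) (ω : Conf Γ) (x y : Γ) : Prop :=
  Br S ω x y ∧ ∃ z, (Gm S ω x y).Reachable y z ∧ ∀ z', (Gm S ω x y).Reachable x z' → idx z < idx z'

/-- the edges of the path which starts at `x` and has the increments `l` -/
def edgesFrom : Γ → List Γ → List (Sym2 Γ)
  | _, [] => []
  | x, g :: l => s(x, x * g) :: edgesFrom (x * g) l

/-- the path from `1` with increments `l` has distinct edges, all of them open -/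
def Open (l : List Γ) (ω : Conf Γ) : Prop :=
  (edgesFrom 1 l).Nodup ∧ ∀ z ∈ edgesFrom 1 l, ω z = true

/-- a symmetric weight of total mass `c`, supported on the finite symmetric set `T`, with small
return weights -/
def IsWt (c : ℝ) (T : Finset Γ) (w : Γ → ℝ) : Prop :=
  (∀ x, 0 ≤ w x) ∧ (∀ x, x ∉ T → w x = 0) ∧ (∀ x, w x⁻¹ = w x) ∧ (∀ x ∈ T, x⁻¹ ∈ T) ∧
    ∑ x ∈ T, w x = c ∧ ∀ k : ℕ, 1 ≤ k → ret w T k 1 ≤ (1 / 2) ^ k

/-! ### the random configuration -/

/-- the probability that a pair is open, for a weight `w` on the group -/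
noncomputable def ew (w : Γ → ℝ) (z : Sym2 Γ) : ℝ≥0 :=
  min 1 (Sym2.lift ⟨fun x y => max (w (x⁻¹ * y)).toNNReal (w (y⁻¹ * x)).toNNReal,
    fun x y => max_comm _ _⟩ z)

/-- the Bernoulli product measure -/
noncomputable def Pm (w : Γ → ℝ) : Measure (Conf Γ) :=
  Measure.infinitePi fun z => (PMF.bernoulli (ew w z) (min_le_left _ _)).toMeasure

instance (w : Γ → ℝ) : IsProbabilityMeasure (Pm w) := by
  unfold Pm
  infer_instance

/-! ### the group `V ⋊ Γ` -/

end

section

variable (Γ : Type u) [Group Γ]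

/-- the group of measurable functions `Conf Γ → {1, -1}` -/
def V : Subgroup (Conf Γ → ℤˣ) where
  carrier := {v | MeasurableSet {ω | v ω = 1}}
  mul_mem' := by
    intro v w hv hw
    simp only [Set.mem_ofPred_eq] at hv hw ⊢
    have : {ω : Conf Γ | (v * w) ω = 1} = ({ω | v ω = 1} ∩ {ω | w ω = 1}) ∪
        ({ω | v ω = 1}ᶜ ∩ {ω | w ω = 1}ᶜ) := by
      ext ω
      simp only [Pi.mul_apply, Set.mem_ofPred_eq, Set.mem_union, Set.mem_inter_iff,
        Set.mem_compl_iff]
      rcases Int.units_eq_one_or (v ω) with h1 | h1 <;>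
        rcases Int.units_eq_one_or (w ω) with h2 | h2 <;> simp [h1, h2]
    rw [this]
    exact (hv.inter hw).union (hv.compl.inter hw.compl)
  one_mem' := by simp
  inv_mem' := by
    intro v hv
    simp only [Set.mem_ofPred_eq] at hv ⊢
    simpa using hv

variable {Γ}

/-- translation of an element of `V` -/
def vtr (g : Γ) (v : V Γ) : V Γ :=
  ⟨fun ω => v.1 (act g⁻¹ ω), measurable_act g⁻¹ v.2⟩

variable (Γ)

/-- `Γ` acts on `V` by translations -/
def vact : Γ →* MulAut (V Γ) where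
  toFun g :=
    { toFun := vtr g
      invFun := vtr g⁻¹
      left_inv := fun v => by
        apply Subtype.ext
        funext ω
        simp [vtr, ← act_mul, act_one]
      right_inv := fun v => by
        apply Subtype.ext
        funext ω
        simp [vtr, ← act_mul, act_one]
      map_mul' := fun v w => rfl }
  map_one' := by
    apply MulEquiv.ext
    intro v
    apply Subtype.ext
    funext ω
    change v.1 (act 1⁻¹ ω) = v.1 ω
    rw [inv_one, act_one]
  map_mul' := fun g h => by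
    apply MulEquiv.ext
    intro v
    apply Subtype.ext
    funext ω
    change v.1 (act (g * h)⁻¹ ω) = v.1 (act h⁻¹ (act g⁻¹ ω))
    rw [mul_inv_rev, act_mul]

/-- the group `V ⋊ Γ` -/
abbrev Ext : Type u := V Γ ⋊[vact Γ] Γ

end

/-! ### weighted composition operators -/

open Classical in
/-- the weighted composition operator `ξ ↦ a * (ξ ∘ τ)` on `L²(ν)` (zero if it does not exist) -/
noncomputable def W {Y : Type u} [MeasurableSpace Y] (ν : Measure Y) (a : Y → ℂ) (τ : Y → Y) :
    Lp ℂ 2 ν →L[ℂ] Lp ℂ 2 ν :=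
  if h : ∃ T : Lp ℂ 2 ν →L[ℂ] Lp ℂ 2 ν, ∀ ξ : Lp ℂ 2 ν, T ξ =ᵐ[ν] fun y => a y * ξ (τ y)
  then h.choose else 0

section

variable {Γ : Type u} [Group Γ] [MeasurableSpace Γ]

/-- the measure on `Γ × Conf Γ` -/
noncomputable def nu (w : Γ → ℝ) : Measure (Γ × Conf Γ) := (Measure.count : Measure Γ).prod (Pm w)

/-- the point map of `g`: `(x, ω) ↦ (g⁻¹ x, g⁻¹ ω)` -/
def tau (g : Γ) (y : Γ × Conf Γ) : Γ × Conf Γ := (g⁻¹ * y.1, act g⁻¹ y.2)

/-- right translation `(x, ω) ↦ (x s, ω)` -/
def rho (s : Γ) (y : Γ × Conf Γ) : Γ × Conf Γ := (y.1 * s, y.2)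

/-- the sign function of an element of `V` -/
noncomputable def sgn (v : V Γ) (y : Γ × Conf Γ) : ℂ := (((v.1 y.2 : ℤˣ) : ℤ) : ℂ)

/-- the operator of an element of `V ⋊ Γ` -/
noncomputable def op (w : Γ → ℝ) (γ : Ext Γ) :
    Lp ℂ 2 (nu w) →L[ℂ] Lp ℂ 2 (nu w) := W (nu w) (sgn γ.left) (tau γ.right)

open Classical in
/-- the function `1` if `x s` is the parent of `x` -/
noncomputable def par1 (idx : Γ → ℕ) (S : Finset Γ) (s : Γ) (y : Γ × Conf Γ) : ℂ :=
  if Par idx S y.2 y.1 (y.1 * s) then 1 else 0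

/-- the parent operator -/
noncomputable def pop (idx : Γ → ℕ) (S : Finset Γ) (w : Γ → ℝ) :
    Lp ℂ 2 (nu w) →L[ℂ] Lp ℂ 2 (nu w) := ∑ s ∈ S, W (nu w) (par1 idx S s) (rho s)

end

end Pool.Agent.H59.MO
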