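import Pool.Agent.H59.MO.Cyl

/-!
[H59 MO] PWord: probability that a path is open with distinct edges.

PROOF. If `edgesFrom 1 l` has a duplicate the set is empty. Otherwise it is contained in (equal to)
`{ω | ∀ z ∈ (edgesFrom 1 l).toFinset, ω z = true}`, of measure
`∏ z ∈ (edgesFrom 1 l).toFinset, ew w z = ((edgesFrom 1 l).map (ew w)).prod` (`List.prod_toFinset`,
`Nodup`). By induction on `l` (for all starting points `x`)
`((edgesFrom x l).map (fun z => (ew w z : ENNReal))).prod ≤ (l.map (fun g => ENNReal.ofReal (w g))).prod`,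
because `ew w s(x, x * g) ≤ max (w g).toNNReal (w g⁻¹).toNNReal = (w g).toNNReal`.
-/

open MeasureTheory
open scoped ENNReal

namespace Pool.Agent.H59.MO

universe u

theorem prod_edges_le {Γ : Type u} [Group Γ] {w : Γ → ℝ} (hw : ∀ x, w x⁻¹ = w x) (x : Γ)
    (l : List Γ) : ((edgesFrom x l).map (fun z => (ew w z : ℝ≥0∞))).prod ≤
      (l.map (fun g => ENNReal.ofReal (w g))).prod := by
  induction l generalizing x with
  | nil => simp [edgesFrom]
  | cons g l ih =>
    simp only [edgesFrom, List.map_cons, List.prod_cons]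
    refine mul_le_mul' ?_ (ih _)
    unfold ew
    rw [Sym2.lift_mk]
    have h1 : x⁻¹ * (x * g) = g := by group
    have h2 : (x * g)⁻¹ * x = g⁻¹ := by group
    simp only [h1, h2, hw, max_self]
    exact ENNReal.coe_le_coe.2 (min_le_right _ _)

theorem Pm_open_le {Γ : Type u} [Group Γ] {w : Γ → ℝ} (hw : ∀ x, w x⁻¹ = w x) (l : List Γ) :
    Pm w {ω : Conf Γ | Open l ω} ≤ (l.map (fun g => ENNReal.ofReal (w g))).prod := by
  classical
  by_cases hnd : (edgesFrom 1 l).Nodup
  · have h1 : {ω : Conf Γ | Open l ω} =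
        {ω : Conf Γ | ∀ z ∈ (edgesFrom 1 l).toFinset, ω z = true} := by
      ext ω
      simp [Open, hnd]
    rw [h1, Pm_all_open, List.prod_toFinset _ hnd]
    exact prod_edges_le hw 1 l
  · have h1 : {ω : Conf Γ | Open l ω} = ∅ := by
      ext ω
      simp [Open, hnd]
    rw [h1]
    simp

end Pool.Agent.H59.MO
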