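import Pool.Agent.H59.MO.Defs

/-!
[H59 MO] Ret: the total weight of the words of length `k` with product `x`.

PROOF. Induction on `k` for all `x`. `k = 0`: only `l = []` contributes (`tsum_eq_single []`).
`k + 1`: the summand vanishes at `[]`, and `(g, l') ↦ g :: l'` is injective with range the nonempty
lists, so (`Function.Injective.tsum_eq`) the sum equals
`∑' (g, l'), if l'.length = k ∧ g * l'.prod = x then ofReal (w g) * (l'.map ..).prod else 0
 = ∑' g, ofReal (w g) * ∑' l', (if l'.length = k ∧ l'.prod = g⁻¹ * x then (l'.map ..).prod else 0)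
 = ∑' g, ofReal (w g) * ofReal (ret w T k (g⁻¹ * x))` (`ENNReal.tsum_prod'`, `ENNReal.tsum_mul_left`),
and this is the finite sum over `T` (`tsum_eq_sum`, `w = 0` off `T`); `ENNReal.ofReal_sum_of_nonneg`,
`ENNReal.ofReal_mul`; `ret w T k y ≥ 0` by induction.
-/

open scoped ENNReal

namespace Pool.Agent.H59.MO

universe u

variable {Γ : Type u} [Group Γ]

theorem ret_nonneg {w : Γ → ℝ} (hw : ∀ x, 0 ≤ w x) (T : Finset Γ) (k : ℕ) (x : Γ) :
    0 ≤ ret w T k x := by
  induction k generalizing x with
  | zero =>
    simp only [ret]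
    split_ifs <;> norm_num
  | succ k ih =>
    simp only [ret]
    exact Finset.sum_nonneg fun s _ => mul_nonneg (hw s) (ih _)

open Classical in
theorem tsum_words {w : Γ → ℝ} (hw : ∀ x, 0 ≤ w x) {T : Finset Γ} (hT : ∀ x, x ∉ T → w x = 0)
    (k : ℕ) (x : Γ) :
    ∑' l : List Γ, (if l.length = k ∧ l.prod = x
      then (l.map (fun g => ENNReal.ofReal (w g))).prod else 0) =
      ENNReal.ofReal (ret w T k x) := by
  induction k generalizing x with
  | zero =>
    rw [tsum_eq_single []]
    · simp only [List.length_nil, List.prod_nil, true_and, List.map_nil, ret]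
      by_cases h : (1 : Γ) = x
      · rw [if_pos h, if_pos h.symm, ENNReal.ofReal_one]
      · rw [if_neg h, if_neg (fun h' => h h'.symm), ENNReal.ofReal_zero]
    · intro l hl
      rw [if_neg]
      rintro ⟨h1, -⟩
      exact hl (List.length_eq_zero_iff.1 h1)
  | succ k ih =>
    let e : Γ × List Γ → List Γ := fun p => p.1 :: p.2
    have he : Function.Injective e := by
      rintro ⟨a, b⟩ ⟨c, d⟩ h
      simp only [e, List.cons.injEq] at h
      rw [h.1, h.2]
    rw [← Function.Injective.tsum_eq he]
    · rw [ENNReal.tsum_prod']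
      have h1 : ∀ g : Γ, ∑' l' : List Γ, (if (e (g, l')).length = k + 1 ∧ (e (g, l')).prod = x
          then ((e (g, l')).map (fun g => ENNReal.ofReal (w g))).prod else 0) =
          ENNReal.ofReal (w g) * ENNReal.ofReal (ret w T k (g⁻¹ * x)) := by
        intro g
        rw [← ih (g⁻¹ * x), ← ENNReal.tsum_mul_left]
        refine tsum_congr fun l' => ?_
        have h2 : ((e (g, l')).length = k + 1 ∧ (e (g, l')).prod = x) ↔
            (l'.length = k ∧ l'.prod = g⁻¹ * x) := by
          simp only [e, List.length_cons, List.prod_cons, add_left_inj]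
          constructor
          · rintro ⟨h3, h4⟩
            exact ⟨h3, by rw [← h4]; group⟩
          · rintro ⟨h3, h4⟩
            exact ⟨h3, by rw [h4]; group⟩
        by_cases h3 : l'.length = k ∧ l'.prod = g⁻¹ * x
        · rw [if_pos (h2.2 h3), if_pos h3]
          simp [e]
        · rw [if_neg (fun h => h3 (h2.1 h)), if_neg h3, mul_zero]
      simp_rw [h1]
      rw [tsum_eq_sum (s := T)]
      · simp only [ret]
        rw [ENNReal.ofReal_sum_of_nonneg (fun s _ => mul_nonneg (hw s) (ret_nonneg hw T k _))]
        refine Finset.sum_congr rfl fun s _ => ?_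
        rw [ENNReal.ofReal_mul (hw s)]
      · intro g hg
        rw [hT g hg]
        simp
    · intro l hl
      cases l with
      | nil =>
        exfalso
        simp at hl
      | cons g l' => exact ⟨(g, l'), rfl⟩

end Pool.Agent.H59.MO
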