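import Pool.Agent.H59.MO.Walk
import Pool.Agent.H59.MO.PWord
import Pool.Agent.H59.MO.Ret
import Pool.Agent.H59.MO.PMeas

/-!
[H59 MO] Deg: the expected number of bridges at the vertex `1` is at least `c - 1`.

PROOF. Write `T, w` for the data. (1) `w s ≤ 1` for all `s`: for `s ∈ T`,
`w s ^ 2 = w s * w s⁻¹ ≤ ret w T 2 1 ≤ 1 / 4` (`ret w T 1 x = w x` for `x ∈ T`). Also
`w 1 = ret w T 1 1 ≤ 1 / 2` if `1 ∈ T` and `w 1 = 0` otherwise. (2) For `s ∈ T`, `s ≠ 1`:
`Pm w {ω | (Gr T ω).Adj 1 s} = Pm w {ω | ω s(1, s) = true} = ew w s(1, s) = w s` (`Pm_all_open` with a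
singleton; `min 1 (w s).toNNReal = (w s).toNNReal`). (3) By `exists_open_cycle`
`{Adj 1 s} ⊆ {Br 1 s} ∪ ⋃ l ∈ L s, {Open l}`, where `L s` is the set of the lists `l` with
`l.head? = some s`, `l.prod = 1`, `3 ≤ l.length` (countably many since `Γ` is countable), so with
`Pm_open_le` `w s ≤ Pm w {Br 1 s} + ∑' l, 1[l ∈ L s] (l.map ..).prod` (`measure_iUnion_le`). (4) Sum over
`s ∈ T.erase 1`: the sets `L s` are disjoint, so
`∑ s, ∑' l, 1[l ∈ L s] (..) ≤ ∑' l, 1[l.prod = 1 ∧ 3 ≤ l.length] (..)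
 = ∑' k, 1[3 ≤ k] ∑' l, 1[l.length = k ∧ l.prod = 1] (..) = ∑' k, 1[3 ≤ k] ofReal (ret w T k 1)
 ≤ ∑' k, (1 / 2) ^ (k + 3) = 1 / 4`. Hence
`c - w 1 = ∑ s ∈ T.erase 1, w s ≤ ∑ s ∈ T, Pm w {Br 1 s} + 1 / 4`.
-/

open MeasureTheory
open scoped ENNReal NNReal

namespace Pool.Agent.H59.MO

universe u

open Classical in
theorem ret_one {Γ : Type u} [Group Γ] (w : Γ → ℝ) (T : Finset Γ) {x : Γ} (hx : x ∈ T) :
    ret w T 1 x = w x := by
  simp only [ret]
  rw [Finset.sum_eq_single x]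
  · simp
  · intro b _ hb
    have : b⁻¹ * x ≠ 1 := by
      intro h
      exact hb (inv_mul_eq_one.1 h)
    simp [this]
  · intro h
    exact absurd hx h

theorem wt_le_one {Γ : Type u} [Group Γ] {c : ℝ} {T : Finset Γ} {w : Γ → ℝ}
    (h : IsWt c T w) (s : Γ) : w s ≤ 1 := by
  obtain ⟨hw0, hT, hsym, hTs, hsum, hret⟩ := h
  by_cases hs : s ∈ T
  · have h2 := hret 2 (by norm_num)
    have h3 : w s * w s ≤ ret w T 2 1 := by
      have h4 : ret w T 2 1 = ∑ t ∈ T, w t * ret w T 1 (t⁻¹ * 1) := rfl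
      rw [h4]
      have h5 : w s * w s = w s * ret w T 1 (s⁻¹ * 1) := by
        rw [mul_one, ret_one w T (hTs s hs), hsym]
      rw [h5]
      exact Finset.single_le_sum (f := fun t => w t * ret w T 1 (t⁻¹ * 1))
        (fun t _ => mul_nonneg (hw0 t) (ret_nonneg hw0 T 1 _)) hs
    have h6 : (1 / 2 : ℝ) ^ 2 = 1 / 4 := by norm_num
    nlinarith [hw0 s]
  · rw [hT s hs]; norm_num

theorem adj_prob {Γ : Type u} [Group Γ] {c : ℝ} {T : Finset Γ} {w : Γ → ℝ}
    (h : IsWt c T w) {s : Γ} (hs : s ∈ T) (hs1 : s ≠ 1) :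
    ENNReal.ofReal (w s) ≤ Pm w {ω : Conf Γ | (Gr T ω).Adj 1 s} := by
  have hle := wt_le_one h s
  obtain ⟨hw0, hT, hsym, hTs, hsum, hret⟩ := h
  have h1 := Pm_all_open w {s(1, s)}
  rw [Finset.prod_singleton] at h1
  have h2 : (ew w s(1, s) : ℝ≥0∞) = ENNReal.ofReal (w s) := by
    unfold ew
    rw [Sym2.lift_mk]
    simp only [inv_one, one_mul, mul_one, hsym, max_self]
    rw [min_eq_right (by
      rw [← Real.toNNReal_one]
      exact Real.toNNReal_le_toNNReal hle)]
    rfl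
  rw [← h2, ← h1]
  refine measure_mono fun ω hω => ?_
  simp only [Finset.mem_singleton, forall_eq, Set.mem_ofPred_eq] at hω
  refine ⟨fun h => hs1 h.symm, ?_, ?_, hω⟩
  · simpa using hs
  · simpa using hTs s hs

open Classical in
theorem geom_tail {Γ : Type u} [Group Γ] {c : ℝ} {T : Finset Γ} {w : Γ → ℝ}
    (h : IsWt c T w) :
    ∑' l : List Γ, (if l.prod = 1 ∧ 3 ≤ l.length
      then (l.map (fun g => ENNReal.ofReal (w g))).prod else 0) ≤ ENNReal.ofReal (1 / 4) := by
  obtain ⟨hw0, hT, hsym, hTs, hsum, hret⟩ := h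
  have h1 : ∀ l : List Γ, (if l.prod = 1 ∧ 3 ≤ l.length
      then (l.map (fun g => ENNReal.ofReal (w g))).prod else 0) =
      ∑' k : ℕ, (if 3 ≤ k then (if l.length = k ∧ l.prod = 1
        then (l.map (fun g => ENNReal.ofReal (w g))).prod else 0) else 0) := by
    intro l
    rw [tsum_eq_single l.length]
    · by_cases h3 : 3 ≤ l.length <;> by_cases h4 : l.prod = 1 <;> simp [h3, h4]
    · intro k hk
      simp [hk.symm]
  simp_rw [h1]
  rw [ENNReal.tsum_comm]
  have h2 : ∀ k : ℕ, ∑' l : List Γ, (if 3 ≤ k then (if l.length = k ∧ l.prod = 1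
        then (l.map (fun g => ENNReal.ofReal (w g))).prod else 0) else 0) ≤
        if 3 ≤ k then ENNReal.ofReal ((1 / 2) ^ k) else 0 := by
    intro k
    split_ifs with h3
    · rw [tsum_words hw0 hT k 1]
      exact ENNReal.ofReal_le_ofReal (hret k (by omega))
    · simp
  refine (ENNReal.tsum_le_tsum h2).trans ?_
  have hinj : Function.Injective (fun j : ℕ => j + 3) := fun a b hab => by simpa using hab
  rw [← Function.Injective.tsum_eq hinj]
  · simp only [le_add_iff_nonneg_left, zero_le, if_true]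
    rw [← ENNReal.ofReal_tsum_of_nonneg (fun j => by positivity)]
    · apply ENNReal.ofReal_le_ofReal
      have h5 : ∀ j : ℕ, ((1 : ℝ) / 2) ^ (j + 3) = (1 / 8) * (1 / 2) ^ j := fun j => by
        rw [pow_add]; ring
      simp_rw [h5]
      rw [tsum_mul_left, tsum_geometric_two]
      norm_num
    · exact (summable_nat_add_iff 3).2 summable_geometric_two
  · intro k hk
    simp only [Function.mem_support, ne_eq, ite_eq_right_iff, Classical.not_imp] at hk
    exact ⟨k - 3, by simp only; omega⟩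

theorem expected_bridges {Γ : Type u} [Group Γ] [Countable Γ] {c : ℝ} {T : Finset Γ} {w : Γ → ℝ}
    (h : IsWt c T w) : c ≤ ∑ s ∈ T, (Pm w {ω : Conf Γ | Br T ω 1 s}).toReal + 1 := by
  classical
  have hle := wt_le_one h
  have hgeo := geom_tail h
  have hadj := fun s hs hs1 => adj_prob h (s := s) hs hs1
  obtain ⟨hw0, hT, hsym, hTs, hsum, hret⟩ := h
  have hw1 : w 1 ≤ 1 / 2 := by
    by_cases h1 : (1 : Γ) ∈ T
    · rw [← ret_one w T h1]
      simpa using hret 1 le_rfl
    · rw [hT 1 h1]; norm_num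
  let wt : List Γ → ℝ≥0∞ := fun l => (l.map (fun g => ENNReal.ofReal (w g))).prod
  have h3 : ∀ s ∈ T.erase 1, ENNReal.ofReal (w s) ≤ Pm w {ω : Conf Γ | Br T ω 1 s} +
      ∑' l : List Γ, (if l.head? = some s ∧ l.prod = 1 ∧ 3 ≤ l.length then wt l else 0) := by
    intro s hs
    obtain ⟨hs1, hsT⟩ := Finset.mem_erase.1 hs
    refine (hadj s hsT hs1).trans ?_
    have hsub : {ω : Conf Γ | (Gr T ω).Adj 1 s} ⊆ {ω : Conf Γ | Br T ω 1 s} ∪
        ⋃ l : List Γ, {ω : Conf Γ | (l.head? = some s ∧ l.prod = 1 ∧ 3 ≤ l.length) ∧ Open l ω} := by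
      intro ω hω
      by_cases hb : Br T ω 1 s
      · exact Or.inl hb
      · right
        obtain ⟨l, h1, h2, h3, h4⟩ := exists_open_cycle hω hb
        exact Set.mem_iUnion.2 ⟨l, ⟨h1, h2, h3⟩, h4⟩
    refine (measure_mono hsub).trans ((measure_union_le _ _).trans (add_le_add le_rfl ?_))
    refine (measure_iUnion_le _).trans (ENNReal.tsum_le_tsum fun l => ?_)
    split_ifs with hl
    · simp only [hl, true_and]
      exact Pm_open_le hsym l
    · simp only [hl, false_and]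
      simp
  have h4 : ∑ s ∈ T.erase 1, ENNReal.ofReal (w s) ≤
      ∑ s ∈ T, Pm w {ω : Conf Γ | Br T ω 1 s} + ENNReal.ofReal (1 / 4) := by
    refine (Finset.sum_le_sum h3).trans ?_
    rw [Finset.sum_add_distrib]
    refine add_le_add (Finset.sum_le_sum_of_subset (Finset.erase_subset _ _)) ?_
    rw [← Summable.tsum_finsetSum (fun i _ => ENNReal.summable)]
    refine le_trans (ENNReal.tsum_le_tsum fun l => ?_) hgeo
    by_cases hl : l.prod = 1 ∧ 3 ≤ l.length
    · rw [if_pos hl]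
      cases hh : l.head? with
      | none => simp
      | some a =>
        have : ∀ s ∈ T.erase 1, (if some a = some s ∧ l.prod = 1 ∧ 3 ≤ l.length then wt l else 0)
            = if a = s then wt l else 0 := by
          intro s _
          simp [hl]
        rw [Finset.sum_congr rfl this, Finset.sum_ite_eq]
        split_ifs
        · exact le_rfl
        · exact zero_le
    · rw [if_neg hl]
      refine le_of_eq (Finset.sum_eq_zero fun s _ => ?_)
      rw [if_neg (fun h => hl h.2)]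
  have hfin : ∀ s ∈ T, Pm w {ω : Conf Γ | Br T ω 1 s} ≠ ⊤ := fun s _ => measure_ne_top _ _
  have h5 := ENNReal.toReal_mono (by
    refine ENNReal.add_ne_top.2 ⟨ENNReal.sum_ne_top.2 hfin, ENNReal.ofReal_ne_top⟩) h4
  rw [ENNReal.toReal_sum (fun s _ => ENNReal.ofReal_ne_top), ENNReal.toReal_add
    (ENNReal.sum_ne_top.2 hfin) ENNReal.ofReal_ne_top, ENNReal.toReal_sum hfin,
    ENNReal.toReal_ofReal (by norm_num)] at h5
  have h6 : ∑ s ∈ T.erase 1, (ENNReal.ofReal (w s)).toReal = ∑ s ∈ T.erase 1, w s :=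
    Finset.sum_congr rfl fun s _ => ENNReal.toReal_ofReal (hw0 s)
  rw [h6] at h5
  have h7 : c ≤ ∑ s ∈ T.erase 1, w s + 1 / 2 := by
    rw [← hsum]
    by_cases h1 : (1 : Γ) ∈ T
    · rw [← Finset.add_sum_erase T w h1]
      linarith
    · rw [Finset.erase_eq_of_notMem h1]
      linarith
  linarith

end Pool.Agent.H59.MO
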