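import Pool.Agent.H59.MO.Inv

/-!
[H59 MO] Der: bounded derivations of a unitarisable group (for a unitary representation) are inner.

PROOF. `K := WithLp 2 (H × H)`, `π' g (x, y) := (π g x + D g y, π g y)`; this is a continuous linear
map with norm at most `C'` independent of `g` (e.g. `2 * (1 + |C|)`), and `g ↦ π' g` is a monoid
homomorphism: `π' (g h) (x, y) = (π g (π h x) + D (g h) y, π g (π h y))` and
`π' g (π' h (x, y)) = (π g (π h x + D h y) + D g (π h y), ...)`; use `hder`. (`D 1 = 0`: put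
`g = h = 1` in `hder`.) `M := {(x, 0)}` is closed and invariant. `inv_proj` gives `P`. For `y : H` let
`A y := (P (0, y)).1` (a continuous linear map `H →L H`). Then `P (x, y) = (x + A y, 0)`. Comparing the
first components of `P (π' g (0, y)) = P (D g y, π g y) = (D g y + A (π g y), 0)` and
`π' g (P (0, y)) = (π g (A y), 0)`: `D g y = π g (A y) - A (π g y)`. So `T := -A` works.
-/

namespace Pool.Agent.H59.MO

open Pool.Agent.H58.Lit

universe u

theorem der_inner {G : Type u} [Group G] (hG : Unitarisable G) {H : Type u}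
    [NormedAddCommGroup H] [InnerProductSpace ℂ H] [CompleteSpace H] (π : G →* (H →L[ℂ] H))
    (hπ : ∀ g, π g ∈ unitary (H →L[ℂ] H)) (D : G → (H →L[ℂ] H)) {C : ℝ} (hD : ∀ g, ‖D g‖ ≤ C)
    (hder : ∀ g h, D (g * h) = D g ∘L π h + π g ∘L D h) :
    ∃ T : H →L[ℂ] H, ∀ g, D g = T ∘L π g - π g ∘L T := by
  classical
  let E : WithLp 2 (H × H) ≃L[ℂ] H × H := WithLp.prodContinuousLinearEquiv 2 ℂ H H
  let F : G → (H × H →L[ℂ] H × H) := fun g =>
    ((π g ∘L ContinuousLinearMap.fst ℂ H H + D g ∘L ContinuousLinearMap.snd ℂ H H).prod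
      (π g ∘L ContinuousLinearMap.snd ℂ H H))
  have hF : ∀ g (z : H × H), F g z = (π g z.1 + D g z.2, π g z.2) := fun g z => rfl
  have hD1 : D 1 = 0 := by
    have h1 := hder 1 1
    rw [mul_one, map_one] at h1
    have h2 : D 1 = D 1 + D 1 := by
      ext x
      have h3 := congrArg (fun A : H →L[ℂ] H => A x) h1
      simpa using h3
    simpa using h2
  have hFmul : ∀ g h (z : H × H), F (g * h) z = F g (F h z) := by
    intro g h z
    rw [hF, hF, hF, hder, map_mul]
    simp only [ContinuousLinearMap.mul_def, ContinuousLinearMap.add_apply,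
      ContinuousLinearMap.comp_apply, map_add]
    congr 1
    abel
  have hF1 : ∀ z : H × H, F 1 z = z := by
    intro z
    rw [hF, hD1, map_one]
    simp
  let P' : G →* (WithLp 2 (H × H) →L[ℂ] WithLp 2 (H × H)) :=
    { toFun := fun g => (E.symm : H × H →L[ℂ] WithLp 2 (H × H)) ∘L F g ∘L
        (E : WithLp 2 (H × H) →L[ℂ] H × H)
      map_one' := by
        apply ContinuousLinearMap.ext
        intro x
        change E.symm (F 1 (E x)) = x
        rw [hF1, E.symm_apply_apply]
      map_mul' := fun g h => by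
        apply ContinuousLinearMap.ext
        intro x
        change E.symm (F (g * h) (E x)) = E.symm (F g (E (E.symm (F h (E x)))))
        rw [hFmul, E.apply_symm_apply] }
  have hP' : ∀ g x, P' g x = E.symm (F g (E x)) := fun g x => rfl
  have hbd : ∃ C' : ℝ, ∀ g, ‖P' g‖ ≤ C' := by
    refine ⟨‖(E.symm : H × H →L[ℂ] WithLp 2 (H × H))‖ * ((1 + C) *
      ‖(E : WithLp 2 (H × H) →L[ℂ] H × H)‖), fun g => ?_⟩
    have hC0 : 0 ≤ C := (norm_nonneg _).trans (hD g)
    have h1 : ‖F g‖ ≤ 1 + C := by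
      refine ContinuousLinearMap.opNorm_le_bound _ (by positivity) fun z => ?_
      rw [hF, Prod.norm_def]
      have h2 : ‖π g z.1‖ = ‖z.1‖ := ContinuousLinearMap.norm_map_of_mem_unitary (hπ g) _
      have h3 : ‖π g z.2‖ = ‖z.2‖ := ContinuousLinearMap.norm_map_of_mem_unitary (hπ g) _
      have h4 : ‖D g z.2‖ ≤ C * ‖z.2‖ := (D g).le_of_opNorm_le (hD g) _
      have h5 : ‖z.1‖ ≤ ‖z‖ := norm_fst_le z
      have h6 : ‖z.2‖ ≤ ‖z‖ := norm_snd_le z
      refine max_le ?_ ?_
      · refine (norm_add_le _ _).trans ?_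
        rw [h2]
        nlinarith
      · simp only
        rw [h3]
        nlinarith [norm_nonneg z]
    refine (ContinuousLinearMap.opNorm_comp_le _ _).trans ?_
    gcongr
    refine (ContinuousLinearMap.opNorm_comp_le _ _).trans ?_
    gcongr
  let M : Submodule ℂ (WithLp 2 (H × H)) :=
    LinearMap.ker ((ContinuousLinearMap.snd ℂ H H ∘L (E : WithLp 2 (H × H) →L[ℂ] H × H)) :
      WithLp 2 (H × H) →L[ℂ] H).toLinearMap
  have hMem : ∀ x, x ∈ M ↔ (E x).2 = 0 := fun x => LinearMap.mem_ker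
  have hMc : IsClosed (M : Set (WithLp 2 (H × H))) :=
    ContinuousLinearMap.isClosed_ker (ContinuousLinearMap.snd ℂ H H ∘L
      (E : WithLp 2 (H × H) →L[ℂ] H × H))
  obtain ⟨P, hP1, hP2, hP3⟩ := inv_proj hG P' hbd M hMc (fun g x hx => by
    rw [hMem] at hx ⊢
    rw [hP', E.apply_symm_apply, hF]
    simp only
    rw [hx, map_zero])
  let A : H →L[ℂ] H := ContinuousLinearMap.fst ℂ H H ∘L (E : WithLp 2 (H × H) →L[ℂ] H × H) ∘L
    P ∘L (E.symm : H × H →L[ℂ] WithLp 2 (H × H)) ∘L ContinuousLinearMap.inr ℂ H H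
  have hA : ∀ y, A y = (E (P (E.symm (0, y)))).1 := fun y => rfl
  refine ⟨-A, fun g => ?_⟩
  apply ContinuousLinearMap.ext
  intro y
  have h1 := congrArg (fun B : WithLp 2 (H × H) →L[ℂ] WithLp 2 (H × H) =>
    (E (B (E.symm (0, y)))).1) (hP3 g)
  simp only [ContinuousLinearMap.comp_apply] at h1
  have h2 : P' g (E.symm (0, y)) = E.symm (D g y, 0) + E.symm (0, π g y) := by
    rw [hP', E.apply_symm_apply, hF, ← map_add]
    simp
  have h3 : P (E.symm (D g y, 0)) = E.symm (D g y, 0) := by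
    apply hP1
    rw [hMem, E.apply_symm_apply]
  rw [h2, map_add, h3, map_add, E.apply_symm_apply, Prod.fst_add, ← hA] at h1
  have h4 : (E (P (E.symm (0, y)))).2 = 0 := (hMem _).1 (hP2 _)
  rw [hP', E.apply_symm_apply, hF, h4, map_zero, add_zero, ← hA] at h1
  simp only at h1
  change D g y = -A (π g y) - π g (-A y)
  rw [map_neg, ← h1]
  abel

end Pool.Agent.H59.MO
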