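import Pool.Agent.H59.MO.Der
import Pool.Agent.H59.MO.Blk

/-!
[H59 MO] DerU: uniform version of `der_inner` for a sequence of representations and derivations.

PROOF. Let `K := lp H 2` and let `Π g`, `Δ g` be the block diagonal operators (`blk_exists`, choose) of
`n ↦ π n g` (norm at most one since `π n g` is unitary) and of `n ↦ D n g` (norm at most two). `Π` is a
monoid homomorphism `G →* (K →L K)` (check coordinates: `Subtype.ext`, `funext`), `Π g` is unitary
(`(Π g)* = Π g⁻¹`: check inner products coordinatewise with `lp.inner_eq_tsum`; or: `Π g` is an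
isometry because every coordinate is, and surjective because `Π g ∘ Π g⁻¹ = 1`), and `Δ` satisfies the
derivation identity coordinatewise. `der_inner` gives `T : K →L K` with
`Δ g = T ∘ Π g - Π g ∘ T`. Put `T n x := (T (lp.single 2 n x)) n`, `‖T n‖ ≤ ‖T‖ =: K`
(`lp.norm_single`, `lp.norm_apply_le_norm`). Evaluate the identity at `lp.single 2 n x` in coordinate
`n`: `Π g (lp.single 2 n x) = lp.single 2 n (π n g x)` and `(Π g ζ) n = π n g (ζ n)`.
-/

namespace Pool.Agent.H59.MO

open Pool.Agent.H58.Lit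

universe u

theorem mem_unitary_of_inverse {H : Type*} [NormedAddCommGroup H] [InnerProductSpace ℂ H]
    [CompleteSpace H] {A B : H →L[ℂ] H} (hA : ∀ x, ‖A x‖ ≤ ‖x‖) (hB : ∀ x, ‖B x‖ ≤ ‖x‖)
    (hAB : ∀ x, A (B x) = x) (hBA : ∀ x, B (A x) = x) : A ∈ unitary (H →L[ℂ] H) := by
  have hiso : ∀ x, ‖A x‖ = ‖x‖ := fun x => le_antisymm (hA x) (by
    calc ‖x‖ = ‖B (A x)‖ := by rw [hBA]
      _ ≤ ‖A x‖ := hB _)
  have h1 := (ContinuousLinearMap.norm_map_iff_adjoint_comp_self A).1 hiso
  have h2 : ContinuousLinearMap.adjoint A = B := by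
    ext x
    have h3 : ContinuousLinearMap.adjoint A (A (B x)) = B x := by
      have h4 := congrArg (fun T : H →L[ℂ] H => T (B x)) h1
      simpa using h4
    rwa [hAB] at h3
  rw [Unitary.mem_iff]
  constructor
  · exact h1
  · rw [ContinuousLinearMap.star_eq_adjoint, h2]
    ext x
    simp [hAB]

theorem der_uniform {G : Type u} [Group G] (hG : Unitarisable G) (H : ℕ → Type u)
    [∀ n, NormedAddCommGroup (H n)] [∀ n, InnerProductSpace ℂ (H n)] [∀ n, CompleteSpace (H n)]
    (π : ∀ n, G →* (H n →L[ℂ] H n)) (hπ : ∀ n g, π n g ∈ unitary (H n →L[ℂ] H n))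
    (D : ∀ n, G → (H n →L[ℂ] H n)) (hD : ∀ n g, ‖D n g‖ ≤ 2)
    (hder : ∀ n g h, D n (g * h) = D n g ∘L π n h + π n g ∘L D n h) :
    ∃ (K : ℝ) (T : ∀ n, H n →L[ℂ] H n), ∀ n, ‖T n‖ ≤ K ∧
      ∀ g, D n g = T n ∘L π n g - π n g ∘L T n := by
  classical
  have hnorm : ∀ n g, ‖π n g‖ ≤ 1 := fun n g =>
    ContinuousLinearMap.opNorm_le_bound _ zero_le_one fun x => by
      rw [ContinuousLinearMap.norm_map_of_mem_unitary (hπ n g), one_mul]
  choose Pi hPi hPin using fun g => blk_exists H (fun n => π n g) (fun n => hnorm n g)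
  choose De hDe hDen using fun g => blk_exists H (fun n => D n g) (fun n => hD n g)
  let P : G →* (lp H 2 →L[ℂ] lp H 2) :=
    { toFun := Pi
      map_one' := by
        ext ξ n
        rw [hPi, map_one]
        rfl
      map_mul' := fun g h => by
        ext ξ n
        rw [hPi, map_mul]
        change π n g (π n h (ξ n)) = (Pi g (Pi h ξ) : ∀ n, H n) n
        rw [hPi, hPi] }
  have hP1 : ∀ g (ξ : lp H 2), ‖Pi g ξ‖ ≤ ‖ξ‖ := fun g ξ => by
    have := (Pi g).le_of_opNorm_le (hPin g) ξ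
    simpa using this
  have hPinv : ∀ g (ξ : lp H 2), Pi g (Pi g⁻¹ ξ) = ξ := fun g ξ => by
    have h1 : P (g * g⁻¹) ξ = ξ := by rw [mul_inv_cancel, map_one]; rfl
    rw [map_mul] at h1
    exact h1
  have hPinv' : ∀ g (ξ : lp H 2), Pi g⁻¹ (Pi g ξ) = ξ := fun g ξ => by
    have h1 : P (g⁻¹ * g) ξ = ξ := by rw [inv_mul_cancel, map_one]; rfl
    rw [map_mul] at h1
    exact h1
  have hPu : ∀ g, P g ∈ unitary (lp H 2 →L[ℂ] lp H 2) := fun g =>
    mem_unitary_of_inverse (hP1 g) (hP1 g⁻¹) (hPinv g) (hPinv' g)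
  have hDder : ∀ g h, De (g * h) = De g ∘L P h + P g ∘L De h := by
    intro g h
    ext ξ n
    rw [hDe, hder]
    change D n g (π n h (ξ n)) + π n g (D n h (ξ n)) =
      (De g (Pi h ξ) : ∀ n, H n) n + (Pi g (De h ξ) : ∀ n, H n) n
    rw [hDe, hPi, hPi, hDe]
  obtain ⟨T, hT⟩ := der_inner hG P hPu De hDen hDder
  let emb : ∀ n, H n →L[ℂ] lp H 2 := fun n => lp.singleContinuousLinearMap ℂ H 2 n
  have hemb : ∀ n x, emb n x = lp.single 2 n x := fun n x => rfl
  let Tn : ∀ n, H n →L[ℂ] H n := fun n =>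
    LinearMap.mkContinuous
      { toFun := fun x => (T (emb n x) : ∀ n, H n) n
        map_add' := fun x y => by simp only [map_add]; rfl
        map_smul' := fun c x => by simp only [map_smul]; rfl } ‖T‖ (fun x => by
          refine (lp.norm_apply_le_norm (by norm_num) (T (emb n x)) n).trans ?_
          refine (T.le_opNorm _).trans (mul_le_mul_of_nonneg_left ?_ (norm_nonneg _))
          rw [hemb, lp.norm_single (by norm_num)])
  refine ⟨‖T‖, Tn, fun n => ⟨LinearMap.mkContinuous_norm_le _ (norm_nonneg _) _, fun g => ?_⟩⟩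
  ext x
  have h1 := congrArg (fun A : lp H 2 →L[ℂ] lp H 2 => (A (emb n x) : ∀ n, H n) n) (hT g)
  rw [hDe] at h1
  have h2 : (emb n x : ∀ n, H n) n = x := by
    rw [hemb]; exact lp.single_apply_self 2 n x
  have h3 : P g (emb n x) = emb n (π n g x) := by
    ext m
    change (Pi g (emb n x) : ∀ n, H n) m = (emb n (π n g x) : ∀ n, H n) m
    rw [hPi, hemb, hemb]
    by_cases hm : m = n
    · subst hm
      rw [lp.single_apply_self, lp.single_apply_self]
    · rw [lp.single_apply_ne 2 n x hm, lp.single_apply_ne 2 n _ hm, map_zero]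
  rw [h2] at h1
  rw [h1]
  change (T (P g (emb n x)) : ∀ n, H n) n - (Pi g (T (emb n x)) : ∀ n, H n) n =
    (T (emb n (π n g x)) : ∀ n, H n) n - π n g ((T (emb n x) : ∀ n, H n) n)
  rw [h3, hPi]

end Pool.Agent.H59.MO
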