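import Pool.Agent.H59.MO.GW2

/-!
[H59 MO] GW3: weights of large mass with small return weights.

PROOF. `exists_base` gives `r < 1`; by induction with `exists_square` for every `j` there is a weight with
`IsP (r ^ (2 ^ j)) T w`. Choose `j` with `c * r ^ (2 ^ j) ≤ 1 / 2` (`r ^ m → 0`). Then `c • w` satisfies
`IsWt c T (c • w)`: `opw (c • w) T = c • opw w T` has norm at most `1 / 2`, and `ret_le_opw`.
-/

namespace Pool.Agent.H59.MO

universe u

theorem exists_weights {Γ : Type u} [Group Γ] {S : Finset Γ} (hS : S.Nonempty)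
    (h : ‖∑ s ∈ S, lam Γ s‖ < (S.card : ℝ)) (c : ℕ) :
    ∃ (T : Finset Γ) (w : Γ → ℝ), IsWt (c : ℝ) T w := by
  classical
  obtain ⟨r, T, w, hr0, hr1, hP⟩ := exists_base hS h
  have hiter : ∀ j : ℕ, ∃ (T' : Finset Γ) (w' : Γ → ℝ), IsP (r ^ (2 ^ j)) T' w' := by
    intro j
    induction j with
    | zero => exact ⟨T, w, by simpa using hP⟩
    | succ j ih =>
      obtain ⟨T', w', h'⟩ := ih
      obtain ⟨T'', w'', h''⟩ := exists_square h'
      refine ⟨T'', w'', ?_⟩
      rw [← pow_mul, ← pow_succ] at h''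
      exact h''
  have hlim : Filter.Tendsto (fun m : ℕ => (c : ℝ) * r ^ m) Filter.atTop (nhds 0) := by
    have := (tendsto_pow_atTop_nhds_zero_of_lt_one hr0 hr1).const_mul (c : ℝ)
    simpa using this
  obtain ⟨m, hm⟩ := ((hlim.eventually (gt_mem_nhds (show (0 : ℝ) < 1 / 2 by norm_num))).and
    (Filter.eventually_ge_atTop 0)).exists
  obtain ⟨j, hj⟩ : ∃ j : ℕ, m ≤ 2 ^ j := ⟨m, Nat.lt_two_pow_self.le⟩
  have hcr : (c : ℝ) * r ^ (2 ^ j) ≤ 1 / 2 := by
    have h1 : r ^ (2 ^ j) ≤ r ^ m := pow_le_pow_of_le_one hr0 hr1.le hj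
    have h2 : (c : ℝ) * r ^ (2 ^ j) ≤ c * r ^ m := by gcongr
    linarith [hm.1]
  obtain ⟨T', w', h0, hsupp, hsym, hTs, hsum, hn⟩ := hiter j
  refine ⟨T', fun x => c * w' x, fun x => mul_nonneg (Nat.cast_nonneg _) (h0 x),
    fun x hx => by simp [hsupp x hx], fun x => by simp [hsym], hTs, ?_, ?_⟩
  · rw [← Finset.mul_sum, hsum, mul_one]
  · intro k _
    refine (ret_le_opw _ _ k).trans ?_
    refine pow_le_pow_left₀ (norm_nonneg _) ?_ k
    have h3 : opw (fun x => (c : ℝ) * w' x) T' = ((c : ℝ) : ℂ) • opw w' T' := by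
      unfold opw
      rw [Finset.smul_sum]
      refine Finset.sum_congr rfl fun x _ => ?_
      rw [smul_smul]
      push_cast
      rfl
    rw [h3, norm_smul]
    have h4 : ‖((c : ℝ) : ℂ)‖ = c := by simp
    rw [h4]
    refine le_trans ?_ hcr
    gcongr

end Pool.Agent.H59.MO
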