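import Pool.Agent.H59.MO.MeanLim

/-!
[H59 MO] Mean: almost invariant probability vectors give an invariant mean.

PROOF. For `S : Finset Γ` let `η S` be the vector of the hypothesis for `S` and
`ε := 1 / (S.card + 1)`. Let `U` be an ultrafilter on `Finset Γ` finer than `atTop`
(`Ultrafilter.of atTop`). For bounded `f` the numbers `a S := ∑' x, η S x * f x` lie in the compact
interval `[-C, C]`, so they converge along `U`; define `m f := limUnder U a` (for all `f`; for bounded `f`
it is the limit: `Tendsto a U (𝓝 (m f))`, via `isCompact_Icc`, `IsCompact.ultrafilter_le_nhds`).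
Additivity, homogeneity, positivity, normalisation: `tendsto_nhds_unique` and the corresponding
identities for the sums (summability of `η S x * f x` from boundedness). Invariance: for `g : Γ`
`∑' x, η S x * f (g * x) = ∑' x, η S (g⁻¹ * x) * f x` (`Equiv.mulLeft g`), so the difference to `a S` is
at most `C * ∑' |η S (g⁻¹ x) - η S x| ≤ C / (S.card + 1)` as soon as `g ∈ S`. This tends to zero
along `atTop` if `Γ` is infinite (`S.card → ∞`: `Filter.tendsto_atTop`..., for every `N` eventually
`N ≤ S.card`). If `Γ` is finite take the mean `m f = (∑ x, f x) / |Γ|` instead. (Alternative without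
case distinction: index the net by `Finset Γ × ℕ` with `ε = 1 / (k + 1)`.)
-/

open Filter Topology

namespace Pool.Agent.H59.MO

open Pool.Agent.H58.Lit

universe u

theorem amenable_of_reiter {Γ : Type u} [Group Γ]
    (h : ∀ (S : Finset Γ) (ε : ℝ), 0 < ε → ∃ η : Γ → ℝ, (∀ x, 0 ≤ η x) ∧ Summable η ∧
      ∑' x, η x = 1 ∧ ∀ s ∈ S, ∑' x, |η (s⁻¹ * x) - η x| ≤ ε) : Amenable Γ := by
  classical
  choose η h0 hs h1 hinv using fun p : Finset Γ × ℕ => h p.1 (1 / ((p.2 : ℝ) + 1)) (by positivity)
  have hsum : ∀ p (f : Γ → ℝ), Bdd f → Summable fun x => η p x * f x := by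
    intro p f hf
    obtain ⟨C, hC⟩ := hf
    refine Summable.of_norm_bounded (g := fun x => η p x * C) ((hs p).mul_right C) fun x => ?_
    rw [norm_mul, Real.norm_eq_abs, Real.norm_eq_abs, abs_of_nonneg (h0 p x)]
    exact mul_le_mul_of_nonneg_left (hC x) (h0 p x)
  refine amenable_of_net (Ultrafilter.of (atTop : Filter (Finset Γ × ℕ)))
    (fun p f => ∑' x, η p x * f x) ?_ ?_ ?_ ?_ ?_
  · intro p f g hf hg
    rw [← (hsum p f hf).tsum_add (hsum p g hg)]
    refine tsum_congr fun x => ?_
    simp only [Pi.add_apply]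
    ring
  · intro p c f _
    rw [← tsum_mul_left]
    refine tsum_congr fun x => ?_
    simp only [Pi.smul_apply, smul_eq_mul]
    ring
  · intro p f _ hf0
    exact tsum_nonneg fun x => mul_nonneg (h0 p x) (hf0 x)
  · intro p
    simp only [mul_one]
    exact h1 p
  · intro g f hf
    obtain ⟨C, hC⟩ := hf
    have hC0 : 0 ≤ C := (abs_nonneg _).trans (hC 1)
    have hbound : ∀ p : Finset Γ × ℕ, g ∈ p.1 →
        |∑' x, η p x * f (g * x) - ∑' x, η p x * f x| ≤ C * (1 / ((p.2 : ℝ) + 1)) := by
      intro p hg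
      have e1 : ∑' x, η p x * f (g * x) = ∑' x, η p (g⁻¹ * x) * f x := by
        rw [← (Equiv.mulLeft g).tsum_eq (fun x => η p (g⁻¹ * x) * f x)]
        refine tsum_congr fun x => ?_
        simp
      have hsη : Summable fun x => η p (g⁻¹ * x) := (Equiv.mulLeft g⁻¹).summable_iff.2 (hs p)
      have hs1 : Summable fun x => η p (g⁻¹ * x) * f x := by
        refine Summable.of_norm_bounded (g := fun x => η p (g⁻¹ * x) * C) (hsη.mul_right C)
          fun x => ?_
        rw [norm_mul, Real.norm_eq_abs, Real.norm_eq_abs, abs_of_nonneg (h0 p _)]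
        exact mul_le_mul_of_nonneg_left (hC x) (h0 p _)
      have hsd : Summable fun x => |η p (g⁻¹ * x) - η p x| := (hsη.sub (hs p)).abs
      rw [e1, ← hs1.tsum_sub (hsum p f ⟨C, hC⟩)]
      have hs2 : Summable fun x => C * |η p (g⁻¹ * x) - η p x| := hsd.mul_left C
      have hle : ∀ x, ‖η p (g⁻¹ * x) * f x - η p x * f x‖ ≤ C * |η p (g⁻¹ * x) - η p x| := by
        intro x
        rw [← sub_mul, norm_mul, Real.norm_eq_abs, Real.norm_eq_abs, mul_comm]
        exact mul_le_mul_of_nonneg_right (hC x) (abs_nonneg _)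
      have h2 := tsum_of_norm_bounded hs2.hasSum hle
      rw [Real.norm_eq_abs, tsum_mul_left] at h2
      exact h2.trans (mul_le_mul_of_nonneg_left (hinv p g hg) hC0)
    have hlim : Tendsto (fun p : Finset Γ × ℕ => C * (1 / ((p.2 : ℝ) + 1)))
        (atTop : Filter (Finset Γ × ℕ)) (𝓝 0) := by
      have h3 : Tendsto (fun n : ℕ => C * (1 / ((n : ℝ) + 1))) atTop (𝓝 (C * 0)) :=
        tendsto_one_div_add_atTop_nhds_zero_nat.const_mul C
      rw [mul_zero] at h3
      rw [← prod_atTop_atTop_eq]
      exact h3.comp tendsto_snd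
    have hev : ∀ᶠ p in (atTop : Filter (Finset Γ × ℕ)), g ∈ p.1 := by
      filter_upwards [eventually_ge_atTop ((({g} : Finset Γ), 0) : Finset Γ × ℕ)] with p hp
      exact hp.1 (Finset.mem_singleton_self g)
    refine squeeze_zero_norm' ?_ (hlim.mono_left (Ultrafilter.of_le _))
    filter_upwards [Ultrafilter.of_le (atTop : Filter (Finset Γ × ℕ)) hev] with p hp
    exact hbound p hp

end Pool.Agent.H59.MO
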