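import Pool.Agent.H59.MO.Reiter
import Pool.Agent.H59.MO.Mean

/-!
[H59 MO] GapSub: a nonamenable group has a countable subgroup with a norm gap.

PROOF. By `amenable_of_reiter` and `reiter_of_norm` there is a nonempty finite `S ⊆ Γ` with
`‖∑ s ∈ S, lam Γ s‖ < |S|`. Let `Γ0 := Subgroup.closure S` (countable: `Subgroup.FG` /
`Subgroup.closure` of a finite set is countable, `Subgroup.countable_closure_finset` or
`Set.Countable`), `S0 : Finset Γ0` the preimage (`S.subtype` or `S.attach.map`), `|S0| = |S|`. Let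
`J : ℓ²(Γ0) → ℓ²(Γ)` be the extension by zero (a linear isometry; `J ξ x = ξ ⟨x, h⟩` if `x ∈ Γ0`, else
`0`). `lam Γ s (J ξ) = J (lam Γ0 s ξ)` for `s ∈ Γ0` (pointwise: `s⁻¹ x ∈ Γ0 ↔ x ∈ Γ0`). So
`‖(∑ s ∈ S0, lam Γ0 s) ξ‖ = ‖J (..)‖ = ‖(∑ s ∈ S, lam Γ s) (J ξ)‖ ≤ ‖∑ s ∈ S, lam Γ s‖ ‖ξ‖`.
-/

namespace Pool.Agent.H59.MO

open Pool.Agent.H58.Lit

universe u

theorem exists_gap_subgroup {Γ : Type u} [Group Γ] (h : ¬ Amenable Γ) :
    ∃ Γ0 : Subgroup Γ, Countable Γ0 ∧ ∃ S : Finset Γ0, S.Nonempty ∧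
      ‖∑ s ∈ S, lam Γ0 s‖ < (S.card : ℝ) := by
  classical
  obtain ⟨S, hS, hn⟩ : ∃ S : Finset Γ, S.Nonempty ∧ ‖∑ s ∈ S, lam Γ s‖ < (S.card : ℝ) := by
    by_contra hcon
    push Not at hcon
    exact h (amenable_of_reiter fun S ε hε => reiter_of_norm hcon S hε)
  let Γ0 : Subgroup Γ := Subgroup.closure (S : Set Γ)
  have hcount : Countable Γ0 := by
    have h1 : ((Γ0 : Subgroup Γ) : Set Γ) = Set.range (fun w : List ({x // x ∈ (S : Set Γ)} × Bool) =>
        FreeGroup.lift (Subtype.val : {x // x ∈ (S : Set Γ)} → Γ) (FreeGroup.mk w)) := by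
      have h2 := FreeGroup.range_lift_eq_closure (f := (Subtype.val : {x // x ∈ (S : Set Γ)} → Γ))
      rw [Subtype.range_val] at h2
      change ((Subgroup.closure (S : Set Γ) : Subgroup Γ) : Set Γ) = _
      rw [← h2]
      ext x
      simp only [MonoidHom.coe_range, Set.mem_range]
      constructor
      · rintro ⟨y, rfl⟩
        obtain ⟨w, rfl⟩ := Quot.exists_rep y
        exact ⟨w, rfl⟩
      · rintro ⟨w, rfl⟩
        exact ⟨_, rfl⟩
    have h3 : ((Γ0 : Subgroup Γ) : Set Γ).Countable := by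
      rw [h1]
      exact Set.countable_range _
    exact h3.to_subtype
  have hSm : ∀ s ∈ S, s ∈ Γ0 := fun s hs => Subgroup.subset_closure hs
  let e : {x // x ∈ S} → Γ0 := fun s => ⟨s.1, hSm s.1 s.2⟩
  have he : Function.Injective e := fun a b hab => Subtype.ext (congrArg (fun z : Γ0 => (z : Γ)) hab)
  let S0 : Finset Γ0 := S.attach.image e
  have hcard : S0.card = S.card := by
    rw [Finset.card_image_of_injective _ he, Finset.card_attach]
  refine ⟨Γ0, hcount, S0, ?_, ?_⟩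
  · rw [← Finset.card_pos, hcard]
    exact hS.card_pos
  rw [hcard]
  refine lt_of_le_of_lt ?_ hn
  -- extension by zero
  let jf : L2 Γ0 → Γ → ℂ := fun ξ x => if hx : x ∈ Γ0 then ξ ⟨x, hx⟩ else 0
  have hts : ∀ (ξ : L2 Γ0), HasSum (fun x => ‖jf ξ x‖ ^ (2 : ENNReal).toReal)
      (‖ξ‖ ^ (2 : ENNReal).toReal) := by
    intro ξ
    have h1 := lp.hasSum_norm (E := fun _ : Γ0 => ℂ) (p := 2) (by norm_num) ξ
    have h2 : HasSum ((fun x => ‖jf ξ x‖ ^ (2 : ENNReal).toReal) ∘ (Subtype.val : Γ0 → Γ))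
        (‖ξ‖ ^ (2 : ENNReal).toReal) := by
      refine h1.congr_fun ?_
      intro x
      simp only [Function.comp_apply, jf, dif_pos x.2]
    refine (Function.Injective.hasSum_iff Subtype.val_injective ?_).1 h2
    intro x hx
    have hx' : x ∉ Γ0 := fun h' => hx ⟨⟨x, h'⟩, rfl⟩
    simp only [jf, dif_neg hx']
    simp
  have hmem : ∀ ξ : L2 Γ0, Memℓp (jf ξ) 2 := fun ξ =>
    (memℓp_gen_iff (by norm_num)).2 (hts ξ).summable
  let J : L2 Γ0 → L2 Γ := fun ξ => ⟨jf ξ, hmem ξ⟩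
  have hJ : ∀ ξ x, (J ξ : Γ → ℂ) x = if hx : x ∈ Γ0 then ξ ⟨x, hx⟩ else 0 := fun ξ x => rfl
  have hJn : ∀ ξ, ‖J ξ‖ = ‖ξ‖ := by
    intro ξ
    have h1 := lp.norm_rpow_eq_tsum (E := fun _ : Γ => ℂ) (p := 2) (by norm_num) (J ξ)
    have h2 : ∑' x, ‖(J ξ : Γ → ℂ) x‖ ^ (2 : ENNReal).toReal = ‖ξ‖ ^ (2 : ENNReal).toReal :=
      (hts ξ).tsum_eq
    rw [h2] at h1
    exact (Real.rpow_left_inj (norm_nonneg _) (norm_nonneg _) (by norm_num)).1 h1
  have hcomm : ∀ ξ : L2 Γ0, J ((∑ s ∈ S0, lam Γ0 s) ξ) = (∑ s ∈ S, lam Γ s) (J ξ) := by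
    intro ξ
    ext x
    rw [hJ, ContinuousLinearMap.sum_apply, ContinuousLinearMap.sum_apply, lp.coeFn_sum,
      lp.coeFn_sum, Finset.sum_apply]
    have hR : ∀ s ∈ S, (lam Γ s (J ξ) : Γ → ℂ) x =
        if hx : x ∈ Γ0 then (if hs : s ∈ Γ0 then (lam Γ0 ⟨s, hs⟩ ξ : Γ0 → ℂ) ⟨x, hx⟩ else 0)
        else 0 := by
      intro s hs
      rw [lam_apply, hJ]
      have hsm := hSm s hs
      by_cases hx : x ∈ Γ0
      · rw [dif_pos hx, dif_pos hsm, lam_apply, dif_pos (Γ0.mul_mem (Γ0.inv_mem hsm) hx)]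
        rfl
      · rw [dif_neg hx, dif_neg]
        intro h'
        apply hx
        have := Γ0.mul_mem hsm h'
        rwa [mul_inv_cancel_left] at this
    rw [Finset.sum_congr rfl hR]
    by_cases hx : x ∈ Γ0
    · rw [dif_pos hx]
      simp only [dif_pos hx]
      rw [Finset.sum_apply, Finset.sum_image (fun a _ b _ hab => he hab), ← Finset.sum_attach S]
      refine Finset.sum_congr rfl fun s _ => ?_
      rw [dif_pos (hSm s.1 s.2)]
    · rw [dif_neg hx]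
      simp only [dif_neg hx]
      simp
  refine ContinuousLinearMap.opNorm_le_bound _ (norm_nonneg _) fun ξ => ?_
  rw [← hJn, hcomm, ← hJn ξ]
  exact ContinuousLinearMap.le_opNorm _ _

end Pool.Agent.H59.MO
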