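import Pool.Agent.H59.MO.VAmen
import Pool.Agent.H58.Lit.Extension

/-!
[H59 MO] LitExt: the Littlewood exponent of `V ⋊ Γ`.

PROOF. `lit_le_of_extension` (file `H58/Lit/Extension.lean`) with `N := ker rightHom`,
`φ := SemidirectProduct.rightHom` (surjective: `SemidirectProduct.rightHom_surjective`). An element of `N`
has `right = 1`, so its square is `(left * vact 1 left, 1) = (left * left, 1) = 1`
(`Int.units_mul_self` / `Int.units_eq_one_or` pointwise); `amenable_of_sq_eq_one`. The second statement:
every `G` amenable has `Lit G ≤ 1`: apply `lit_le_of_extension` with `N := ⊤` and `φ : G →* PUnit` and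
`Lit PUnit ≤ 1` (all functions on a one-point group are in `ℓᵖ` for every `p`; e.g. `Lit_le_of_good` with
`p = 1`; the mean on `⊤ ≃* G` from the one on `G`).
-/

namespace Pool.Agent.H59.MO

open Pool.Agent.H58.Lit

universe u

theorem lit_ext_le (Γ : Type u) [Group Γ] : Lit (Ext Γ) ≤ max 1 (Lit Γ) := by
  refine lit_le_of_extension (SemidirectProduct.rightHom : Ext Γ →* Γ).ker
    (SemidirectProduct.rightHom : Ext Γ →* Γ) SemidirectProduct.rightHom_surjective
    (fun g => MonoidHom.mem_ker) (amenable_of_sq_eq_one ?_)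
  rintro ⟨x, hx⟩
  apply Subtype.ext
  change x * x = 1
  have hr : x.right = 1 := hx
  apply SemidirectProduct.ext
  · rw [SemidirectProduct.mul_left, hr, map_one, SemidirectProduct.one_left]
    apply Subtype.ext
    funext ω
    change x.left.1 ω * x.left.1 ω = 1
    exact Int.units_mul_self _
  · rw [SemidirectProduct.mul_right, hr, one_mul, SemidirectProduct.one_right]

theorem lit_le_one_of_amenable {G : Type u} [Group G] (h : Amenable G) : Lit G ≤ 1 := by
  have htop : Amenable (⊤ : Subgroup G) := by
    obtain ⟨m, hadd, hsmul, hnn, hone, hinv⟩ := h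
    let e : G → (⊤ : Subgroup G) := fun g => ⟨g, Subgroup.mem_top g⟩
    refine ⟨fun f => m (fun g => f (e g)), ?_, ?_, ?_, ?_, ?_⟩
    · intro f g hf hg
      exact hadd _ _ (bdd_comp hf e) (bdd_comp hg e)
    · intro c f hf
      exact hsmul c _ (bdd_comp hf e)
    · intro f hf h0
      exact hnn _ (bdd_comp hf e) fun x => h0 _
    · exact hone
    · intro g f hf
      exact hinv g.1 (fun x => f (e x)) (bdd_comp hf e)
  have h1 := lit_le_of_extension (⊤ : Subgroup G) (1 : G →* PUnit.{1})
    (fun x => ⟨1, rfl⟩) (fun g => by simp) htop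
  have h2 : Lit PUnit.{1} ≤ 1 :=
    Lit_le_of_good ⟨one_pos, ENNReal.one_lt_top, fun f _ => Memℓp.all f⟩
  exact h1.trans (max_le le_rfl h2)

end Pool.Agent.H59.MO
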