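import Pool.Agent.H59.MO.Defs
import Pool.Agent.H58.Lit.Basic

/-!
[H59 MO] LitSub: the Littlewood exponent of a subgroup.

PROOF. `sInf_le_sInf`: let `p` be good for `Γ` and `f : Γ0 → ℂ` a Littlewood function with kernels
`f₁, f₂` (`IsLittlewood.exists_le`, constant `C`). Extend `f` by zero to `F : Γ → ℂ`. `F` is a Littlewood
function by `isLittlewood_of_le`: choose for every left coset a representative, i.e. a map
`t : Γ → Γ` with `t x ∈ x Γ0` constant on the left cosets (`Quotient.out`; `(t x)⁻¹ x ∈ Γ0`), and put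
`h i x y := ‖f i ((t x)⁻¹ x) ((t y)⁻¹ y)‖ₑ` if `t x = t y` (same coset), `0` otherwise. If
`x⁻¹ y ∈ Γ0` then `t x = t y` and `F (x⁻¹ y) = f (((t x)⁻¹ x)⁻¹ ((t y)⁻¹ y))`. Row sums: `y` runs over
`t x Γ0`, the map `z : Γ0 ↦ t x * z` is injective with this range (`Function.Injective.tsum_eq`), so the
row sum is a row sum of `f₁`; same for columns. Hence `F ∈ ℓᵖ(Γ)` and, restricting to `Γ0`
(`memℓp_iff_tsum`, `ENNReal.tsum_comp_le_tsum_of_injective`), `f ∈ ℓᵖ(Γ0)`. See
`lit_le_of_surjective` in `H58/Lit/Basic.lean` for a similar proof.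
-/

open scoped ENNReal

namespace Pool.Agent.H59.MO

open Pool.Agent.H58.Lit

universe u

theorem lit_subgroup_le {Γ : Type u} [Group Γ] (Γ0 : Subgroup Γ) : Lit Γ0 ≤ Lit Γ := by
  classical
  refine sInf_le_sInf fun p hp => ?_
  obtain ⟨h0, htop, hall⟩ := hp
  refine ⟨h0, htop, fun f hf => ?_⟩
  obtain ⟨f₁, f₂, C, hC, hff, hr, hc⟩ := hf.exists_le
  let t : Γ → Γ := fun x => (QuotientGroup.mk x : Γ ⧸ Γ0).out
  have ht0 : ∀ x, (QuotientGroup.mk (t x) : Γ ⧸ Γ0) = QuotientGroup.mk x := fun x =>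
    Quotient.out_eq' _
  have ht : ∀ x, (t x)⁻¹ * x ∈ Γ0 := fun x => QuotientGroup.eq.1 (ht0 x)
  have htt : ∀ x y, x⁻¹ * y ∈ Γ0 → t x = t y := fun x y hxy => by
    change (QuotientGroup.mk x : Γ ⧸ Γ0).out = (QuotientGroup.mk y : Γ ⧸ Γ0).out
    rw [QuotientGroup.eq.2 hxy]
  let r : Γ → Γ0 := fun x => ⟨(t x)⁻¹ * x, ht x⟩
  let F : Γ → ℂ := fun g => if h : g ∈ Γ0 then f ⟨g, h⟩ else 0
  have htz : ∀ (x : Γ) (z : Γ0), t (t x * z) = t x := by
    intro x z
    have h1 : x⁻¹ * (t x * z) ∈ Γ0 := by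
      have h2 := Γ0.mul_mem (Γ0.inv_mem (ht x)) z.2
      rw [mul_inv_rev, inv_inv, mul_assoc] at h2
      exact h2
    exact (htt _ _ h1).symm
  have hrz : ∀ (x : Γ) (z : Γ0), r (t x * z) = z := by
    intro x z
    apply Subtype.ext
    change (t (t x * z))⁻¹ * (t x * z) = z
    rw [htz]
    group
  have hrow : ∀ (k : Γ0 → Γ0 → ℂ) (x : Γ),
      ∑' y, (if t x = t y then ‖k (r x) (r y)‖ₑ else 0) = ∑' z, ‖k (r x) z‖ₑ := by
    intro k x
    have hinj : Function.Injective (fun z : Γ0 => t x * (z : Γ)) := by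
      intro z z' hz
      exact Subtype.ext (mul_left_cancel hz)
    rw [← Function.Injective.tsum_eq hinj]
    · refine tsum_congr fun z => ?_
      rw [htz, if_pos rfl, hrz]
    · intro y hy
      simp only [Function.mem_support, ne_eq, ite_eq_right_iff, Classical.not_imp] at hy
      refine ⟨r y, ?_⟩
      change t x * ((t y)⁻¹ * y) = y
      rw [hy.1]
      group
  have hcol : ∀ (k : Γ0 → Γ0 → ℂ) (y : Γ),
      ∑' x, (if t x = t y then ‖k (r x) (r y)‖ₑ else 0) = ∑' z, ‖k z (r y)‖ₑ := by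
    intro k y
    have hinj : Function.Injective (fun z : Γ0 => t y * (z : Γ)) := by
      intro z z' hz
      exact Subtype.ext (mul_left_cancel hz)
    rw [← Function.Injective.tsum_eq hinj]
    · refine tsum_congr fun z => ?_
      rw [htz, if_pos rfl, hrz]
    · intro x hx
      simp only [Function.mem_support, ne_eq, ite_eq_right_iff, Classical.not_imp] at hx
      refine ⟨r x, ?_⟩
      change t y * ((t x)⁻¹ * x) = x
      rw [hx.1]
      group
  have hF : IsLittlewood F := by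
    refine isLittlewood_of_le (C₁ := C) (C₂ := C) hC hC
      (h₁ := fun x y => if t x = t y then ‖f₁ (r x) (r y)‖ₑ else 0)
      (h₂ := fun x y => if t x = t y then ‖f₂ (r x) (r y)‖ₑ else 0) ?_ ?_ ?_
    · intro x y
      by_cases hxy : x⁻¹ * y ∈ Γ0
      · have h1 : (r x)⁻¹ * r y = ⟨x⁻¹ * y, hxy⟩ := by
          apply Subtype.ext
          change ((t x)⁻¹ * x)⁻¹ * ((t y)⁻¹ * y) = x⁻¹ * y
          rw [htt x y hxy]
          group
        simp only [F, dif_pos hxy, if_pos (htt x y hxy)]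
        rw [← h1, hff]
        exact enorm_add_le _ _
      · simp only [F, dif_neg hxy]
        simp
    · intro x
      rw [hrow]
      exact hr _
    · intro y
      rw [hcol]
      exact hc _
  have hm := (memℓp_iff_tsum h0 htop).1 (hall F hF)
  rw [memℓp_iff_tsum h0 htop]
  intro hbad
  apply hm
  rw [eq_top_iff, ← hbad]
  calc ∑' q : Γ0, ‖f q‖ₑ ^ p.toReal = ∑' q : Γ0, ‖F (q : Γ)‖ₑ ^ p.toReal := by
        refine tsum_congr fun q => ?_
        simp only [F, dif_pos q.2]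
    _ ≤ ∑' g, ‖F g‖ₑ ^ p.toReal :=
        ENNReal.tsum_comp_le_tsum_of_injective Subtype.val_injective
          (fun g => ‖F g‖ₑ ^ p.toReal)

end Pool.Agent.H59.MO
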