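import Pool.Agent.H59.MO.KOp
import Pool.Agent.H59.MO.Der
import Pool.Agent.H58.Lit.Basic

/-!
[H59 MO] UnLit: if `G` is unitarisable then `T₁(G) ⊆ ℓ²(G)`.

PROOF. Let `f (x⁻¹ y) = f₁ x y + f₂ x y` with constant `C` (`IsLittlewood.exists_le`). For `g : G` let
`k g x y := f₁ x y - f₁ (g⁻¹ x) (g⁻¹ y)`; since `(g⁻¹ x)⁻¹ (g⁻¹ y) = x⁻¹ y` this is
`f₂ (g⁻¹ x) (g⁻¹ y) - f₂ x y`, so rows and columns of `k g` have `ℓ¹`-norm at most `2 C`. Let `K g` be its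
operator (`kernel_op`) and `D g := K g ∘ λ g`, `‖D g‖ ≤ 2 C`. `k (g h) x y = k g x y + k h (g⁻¹ x) (g⁻¹ y)`,
and the operator of `(x, y) ↦ k h (g⁻¹ x) (g⁻¹ y)` is `λ g ∘ K h ∘ λ g⁻¹` (substitution `y = g y'` in the
series). So `D (g h) = (K g + λ g K h λ g⁻¹) λ g λ h = D g ∘ λ h + λ g ∘ D h`. By `der_inner`
`D g = T ∘ λ g - λ g ∘ T`, i.e. `K g = T - λ g T λ g⁻¹`. With `t x y := (T (lp.single 2 y 1)) x` and
`λ g⁻¹ (lp.single 2 y 1) = lp.single 2 (g⁻¹ y) 1`: `k g x y = t x y - t (g⁻¹ x) (g⁻¹ y)`. So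
`ψ x y := f₁ x y - t x y` satisfies `ψ x y = ψ (g⁻¹ x) (g⁻¹ y)` for all `g`, hence `ψ x y = φ (x⁻¹ y)` with
`φ z := ψ 1 z`. (1) `φ ∈ ℓ²`: `z ↦ f₁ 1 z` is in `ℓ¹ ⊆ ℓ²`, and
`z ↦ t 1 z = ⟪δ_1, T δ_z⟫ = conj ((T* δ_1) z)` is in `ℓ²`. (2) `f - φ ∈ ℓ²`:
`(f - φ) (x⁻¹) = f₂ x 1 + t x 1` (take `y = 1`), `x ↦ f₂ x 1` is in `ℓ¹ ⊆ ℓ²`, `x ↦ t x 1 = (T δ_1) x` is in
`ℓ²`, and inversion preserves `ℓ²`. So `f ∈ ℓ²`. `lit_le_two`: `Lit_le_of_good` with `p = 2`.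
-/

open scoped ENNReal NNReal

namespace Pool.Agent.H59.MO

open Pool.Agent.H58.Lit

universe u

theorem memlp_of_l1 {G : Type u} {h : G → ℂ} (hh : ∑' z, ‖h z‖ₑ < ⊤) : Memℓp h 2 := by
  have h1 : Memℓp h 1 := by
    rw [memℓp_gen_iff (by norm_num)]
    have h2 := ENNReal.summable_toReal hh.ne
    refine h2.congr fun z => ?_
    rw [toReal_enorm, ENNReal.toReal_one, Real.rpow_one]
  exact h1.of_exponent_ge (by norm_num)

theorem memlp_inv {G : Type u} [Group G] {h : G → ℂ} (hh : Memℓp (fun x => h x⁻¹) 2) :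
    Memℓp h 2 := by
  rw [memℓp_gen_iff (by norm_num)] at hh ⊢
  exact (Equiv.inv G).summable_iff.1 hh

theorem memlp_two_of_unitarisable {G : Type u} [Group G] (hG : Unitarisable G) (f : G → ℂ)
    (hf : IsLittlewood f) : Memℓp f 2 := by
  classical
  obtain ⟨f₁, f₂, C, hC, hf12, hrow, hcol⟩ := hf.exists_le
  set A : ℝ≥0 := (C + C).toNNReal with hAdef
  have hA : (A : ℝ≥0∞) = C + C := ENNReal.coe_toNNReal (ENNReal.add_lt_top.2 ⟨hC, hC⟩).ne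
  let k : G → G → G → ℂ := fun g x y => f₁ x y - f₁ (g⁻¹ * x) (g⁻¹ * y)
  have hkrow : ∀ g x, ∑' y, ‖k g x y‖ₑ ≤ (A : ℝ≥0∞) := by
    intro g x
    rw [hA]
    calc ∑' y, ‖k g x y‖ₑ ≤ ∑' y, (‖f₁ x y‖ₑ + ‖f₁ (g⁻¹ * x) (g⁻¹ * y)‖ₑ) :=
          ENNReal.tsum_le_tsum fun y => enorm_sub_le
      _ = ∑' y, ‖f₁ x y‖ₑ + ∑' y, ‖f₁ (g⁻¹ * x) (g⁻¹ * y)‖ₑ := ENNReal.tsum_add
      _ ≤ C + C := by
          refine add_le_add (hrow x) ?_
          exact ((Equiv.mulLeft g⁻¹).tsum_eq (fun y => ‖f₁ (g⁻¹ * x) y‖ₑ)).trans_le (hrow _)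
  have hk2 : ∀ g x y, k g x y = f₂ (g⁻¹ * x) (g⁻¹ * y) - f₂ x y := by
    intro g x y
    have h1 := hf12 x y
    have h2 := hf12 (g⁻¹ * x) (g⁻¹ * y)
    have h3 : (g⁻¹ * x)⁻¹ * (g⁻¹ * y) = x⁻¹ * y := by group
    rw [h3] at h2
    change f₁ x y - f₁ (g⁻¹ * x) (g⁻¹ * y) = _
    linear_combination h2 - h1
  have hkcol : ∀ g y, ∑' x, ‖k g x y‖ₑ ≤ (A : ℝ≥0∞) := by
    intro g y
    rw [hA]
    calc ∑' x, ‖k g x y‖ₑ ≤ ∑' x, (‖f₂ (g⁻¹ * x) (g⁻¹ * y)‖ₑ + ‖f₂ x y‖ₑ) :=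
          ENNReal.tsum_le_tsum fun x => by
            rw [hk2]
            exact enorm_sub_le
      _ = ∑' x, ‖f₂ (g⁻¹ * x) (g⁻¹ * y)‖ₑ + ∑' x, ‖f₂ x y‖ₑ := ENNReal.tsum_add
      _ ≤ C + C := by
          refine add_le_add ?_ (hcol y)
          exact ((Equiv.mulLeft g⁻¹).tsum_eq (fun x => ‖f₂ x (g⁻¹ * y)‖ₑ)).trans_le (hcol _)
  have hKex := fun g => kernel_op (k g) (hkrow g) (hkcol g)
  choose K hK hKn using hKex
  have hlam1 : ∀ g, ‖lam G g‖ ≤ 1 := fun g =>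
    ContinuousLinearMap.opNorm_le_bound _ zero_le_one fun ξ => by rw [lam_norm, one_mul]
  let D : G → (L2 G →L[ℂ] L2 G) := fun g => K g ∘L lam G g
  have hDa : ∀ g ξ x, (D g ξ : G → ℂ) x = ∑' y, k g x y * ξ (g⁻¹ * y) := by
    intro g ξ x
    change (K g (lam G g ξ) : G → ℂ) x = _
    rw [(hK g (lam G g ξ) x).2]
    exact tsum_congr fun y => by rw [lam_apply]
  have hDs : ∀ g (ξ : L2 G) x, Summable (fun y => k g x y * ξ (g⁻¹ * y)) := by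
    intro g ξ x
    refine (hK g (lam G g ξ) x).1.congr fun y => ?_
    rw [lam_apply]
  have hD : ∀ g, ‖D g‖ ≤ (A : ℝ) := by
    intro g
    refine (ContinuousLinearMap.opNorm_comp_le _ _).trans ?_
    calc ‖K g‖ * ‖lam G g‖ ≤ A * 1 :=
          mul_le_mul (hKn g) (hlam1 g) (norm_nonneg _) (by positivity)
      _ = A := mul_one _
  have hder : ∀ g h, D (g * h) = D g ∘L lam G h + lam G g ∘L D h := by
    intro g h
    apply ContinuousLinearMap.ext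
    intro ξ
    ext x
    have e1 : ((D g ∘L lam G h + lam G g ∘L D h) ξ : G → ℂ) x =
        (D g (lam G h ξ) : G → ℂ) x + (lam G g (D h ξ) : G → ℂ) x := rfl
    have e2 : ∑' y, k h (g⁻¹ * x) y * ξ (h⁻¹ * y) =
        ∑' y, k h (g⁻¹ * x) (g⁻¹ * y) * ξ (h⁻¹ * (g⁻¹ * y)) :=
      ((Equiv.mulLeft g⁻¹).tsum_eq (fun y => k h (g⁻¹ * x) y * ξ (h⁻¹ * y))).symm
    have e3 : Summable (fun y => k h (g⁻¹ * x) (g⁻¹ * y) * ξ (h⁻¹ * (g⁻¹ * y))) :=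
      (Equiv.mulLeft g⁻¹).summable_iff.2 (hDs h ξ (g⁻¹ * x))
    rw [e1, hDa, hDa, lam_apply, hDa, e2, ← (hDs g (lam G h ξ) x).tsum_add e3]
    refine tsum_congr fun y => ?_
    rw [lam_apply, mul_inv_rev, mul_assoc, ← add_mul]
    congr 1
    change f₁ x y - f₁ ((g * h)⁻¹ * x) ((g * h)⁻¹ * y) = (f₁ x y - f₁ (g⁻¹ * x) (g⁻¹ * y)) +
      (f₁ (g⁻¹ * x) (g⁻¹ * y) - f₁ (h⁻¹ * (g⁻¹ * x)) (h⁻¹ * (g⁻¹ * y)))
    rw [mul_inv_rev, mul_assoc, mul_assoc]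
    ring
  obtain ⟨T, hT⟩ := der_inner hG (lam G) lam_unitary D hD hder
  let t : G → G → ℂ := fun x y => (T (lp.single 2 y (1 : ℂ)) : G → ℂ) x
  have hsing : ∀ (b x : G), ((lp.single 2 b (1 : ℂ) : L2 G) : G → ℂ) x = if x = b then 1 else 0 := by
    intro b x
    rw [lp.coeFn_single, Pi.single_apply]
  have hls : ∀ g b : G, lam G g (lp.single 2 b (1 : ℂ)) = lp.single 2 (g * b) (1 : ℂ) := by
    intro g b
    ext x
    rw [lam_apply, hsing, hsing]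
    by_cases hx : g⁻¹ * x = b
    · rw [if_pos hx, if_pos (by rw [← hx, mul_inv_cancel_left])]
    · rw [if_neg hx, if_neg (fun e => hx (by rw [e, inv_mul_cancel_left]))]
  have hkt : ∀ g x y, k g x y = t x y - t (g⁻¹ * x) (g⁻¹ * y) := by
    intro g x y
    have h1 : (D g (lp.single 2 (g⁻¹ * y) (1 : ℂ)) : G → ℂ) x = k g x y := by
      rw [hDa, tsum_eq_single y]
      · rw [hsing, if_pos rfl, mul_one]
      · intro z hz
        rw [hsing, if_neg (fun e => hz (mul_left_cancel e)), mul_zero]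
    have h2 : (D g (lp.single 2 (g⁻¹ * y) (1 : ℂ)) : G → ℂ) x =
        (T (lam G g (lp.single 2 (g⁻¹ * y) (1 : ℂ))) : G → ℂ) x -
        (lam G g (T (lp.single 2 (g⁻¹ * y) (1 : ℂ))) : G → ℂ) x := by
      rw [hT g]
      rfl
    rw [← h1, h2, hls, mul_inv_cancel_left, lam_apply]
  have hψ : ∀ x y, f₁ x y - t x y = f₁ 1 (x⁻¹ * y) - t 1 (x⁻¹ * y) := by
    intro x y
    have h1 := hkt x x y
    change f₁ x y - f₁ (x⁻¹ * x) (x⁻¹ * y) = _ at h1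
    rw [inv_mul_cancel] at h1
    linear_combination h1
  -- the first half
  have hφ1 : Memℓp (fun z => f₁ 1 z) 2 := memlp_of_l1 ((hrow 1).trans_lt hC)
  have ht1 : Memℓp (fun z => t 1 z) 2 := by
    have h1 := lp.memℓp (ContinuousLinearMap.adjoint T (lp.single 2 (1 : G) (1 : ℂ)))
    have h2 : ∀ z, ‖t 1 z‖ =
        ‖(ContinuousLinearMap.adjoint T (lp.single 2 (1 : G) (1 : ℂ)) : G → ℂ) z‖ := by
      intro z
      have h3 := ContinuousLinearMap.adjoint_inner_left T (lp.single 2 z (1 : ℂ))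
        (lp.single 2 (1 : G) (1 : ℂ))
      rw [lp.inner_single_left, lp.inner_single_right] at h3
      simp only [RCLike.inner_apply, map_one, mul_one, one_mul] at h3
      change ‖(T (lp.single 2 z (1 : ℂ)) : G → ℂ) 1‖ = _
      rw [← h3, RCLike.norm_conj]
    rw [memℓp_gen_iff (by norm_num)] at h1 ⊢
    exact h1.congr fun z => by rw [h2]
  have hφ : Memℓp (fun z => f₁ 1 z - t 1 z) 2 := hφ1.sub ht1
  -- the second half
  have hg : Memℓp (fun z => f z - (f₁ 1 z - t 1 z)) 2 := by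
    apply memlp_inv
    have h1 : (fun x : G => f x⁻¹ - (f₁ 1 x⁻¹ - t 1 x⁻¹)) = fun x => f₂ x 1 + t x 1 := by
      funext x
      have h2 := hf12 x 1
      have h3 := hψ x 1
      rw [mul_one] at h2 h3
      linear_combination h2 + h3
    rw [h1]
    have h4 : Memℓp (fun x => f₂ x 1) 2 := memlp_of_l1 ((hcol 1).trans_lt hC)
    exact h4.add (lp.memℓp (T (lp.single 2 (1 : G) (1 : ℂ))))
  have h5 := hg.add hφ
  have h6 : ((fun z => f z - (f₁ 1 z - t 1 z)) + fun z => f₁ 1 z - t 1 z) = f := by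
    funext z
    simp only [Pi.add_apply, sub_add_cancel]
  rwa [h6] at h5

theorem lit_le_two {G : Type u} [Group G] (hG : Unitarisable G) : Lit G ≤ 2 :=
  Lit_le_of_good ⟨by simp, by simp, fun f hf => memlp_two_of_unitarisable hG f hf⟩

end Pool.Agent.H59.MO
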