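import Pool.Agent.H59.MO.NonUn
import Pool.Agent.H59.MO.GapSub
import Pool.Agent.H59.MO.GW3
import Pool.Agent.H59.MO.LitExt
import Pool.Agent.H59.MO.LitSub
import Pool.Agent.H59.MO.DD2
import Pool.Agent.H59.MO.UnLit

/-!
[H59 MO] Fin: assembly (done by helper59).
-/

namespace Pool.Agent.H59.MO

open Pool.Agent.H58.Lit

universe u

/-- every nonamenable group `Γ` has a countable subgroup `Γ₀` such that `V ⋊ Γ₀` is not unitarisable -/
theorem exists_nonunitarisable {Γ : Type u} [Group Γ] (h : ¬ Amenable Γ) :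
    ∃ Γ0 : Subgroup Γ, Countable Γ0 ∧ ¬ Unitarisable (Ext Γ0) ∧
      Lit (Ext Γ0) ≤ max 1 (Lit Γ) := by
  obtain ⟨Γ0, hc, S, hS, hn⟩ := exists_gap_subgroup h
  refine ⟨Γ0, hc, ?_, ?_⟩
  · haveI := hc
    exact not_unitarisable_ext fun c => exists_weights hS hn c
  · exact (lit_ext_le Γ0).trans (max_le_max le_rfl (lit_subgroup_le Γ0))

theorem equivalence :
    (∀ (G : Type u) [Group G], Lit G ≤ 2 → Unitarisable G) ↔
      ∀ (G : Type u) [Group G], Lit G ≤ 2 → Amenable G := by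
  constructor
  · intro hQ G _ hG
    by_contra hna
    obtain ⟨Γ0, -, hnu, hlit⟩ := exists_nonunitarisable hna
    exact hnu (hQ _ (hlit.trans (max_le (by norm_num) hG)))
  · intro hA G _ hG
    exact unitarisable_of_amenable (hA G hG)

theorem no_lit_between (hQ : ∀ (G : Type u) [Group G], Lit G ≤ 2 → Unitarisable G)
    (G : Type u) [Group G] : ¬ (1 < Lit G ∧ Lit G ≤ 2) := by
  rintro ⟨h1, h2⟩
  exact absurd (lit_le_one_of_amenable (equivalence.1 hQ G h2)) (not_le.2 h1)

theorem dixmier_of_q1 (hQ : ∀ (G : Type u) [Group G], Lit G ≤ 2 → Unitarisable G)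
    (G : Type u) [Group G] (hG : Unitarisable G) : Amenable G :=
  equivalence.1 hQ G (lit_le_two hG)

end Pool.Agent.H59.MO
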