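import Pool.Agent.H59.MO.LReg

/-!
[H59 MO] GW1: the operator of a weight, and return weights.

PROOF. `opw w T := ∑ x ∈ T, (w x) • λ x`. By induction on `k`, with `δ := lp.single 2 1 1`,
`(opw w T ^ k) δ` has the coordinates `x ↦ (ret w T k x : ℂ)`: `k = 0` clear, and
`(opw w T ζ) x = ∑ s ∈ T, w s * ζ (s⁻¹ * x)` (`lam_apply`). So
`ret w T k 1 ≤ ‖((opw w T ^ k) δ) 1‖ ≤ ‖(opw w T ^ k) δ‖ ≤ ‖opw w T‖ ^ k`
(`lp.norm_apply_le_norm`, `lp.norm_single`, `norm_pow_le`, case `k = 0` separately).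
-/

open scoped ENNReal

namespace Pool.Agent.H59.MO

universe u

/-- the operator of a weight -/
noncomputable def opw {Γ : Type u} [Group Γ] (w : Γ → ℝ) (T : Finset Γ) : L2 Γ →L[ℂ] L2 Γ :=
  ∑ x ∈ T, (w x : ℂ) • lam Γ x

theorem ret_le_opw {Γ : Type u} [Group Γ] (w : Γ → ℝ) (T : Finset Γ) (k : ℕ) :
    ret w T k 1 ≤ ‖opw w T‖ ^ k := by
  classical
  let δ : L2 Γ := lp.single 2 1 (1 : ℂ)
  have hop : ∀ (ζ : L2 Γ) (x : Γ), (opw w T ζ : Γ → ℂ) x = ∑ s ∈ T, (w s : ℂ) * ζ (s⁻¹ * x) := by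
    intro ζ x
    unfold opw
    rw [ContinuousLinearMap.sum_apply, lp.coeFn_sum, Finset.sum_apply]
    refine Finset.sum_congr rfl fun s _ => ?_
    rw [ContinuousLinearMap.smul_apply, lp.coeFn_smul, Pi.smul_apply, lam_apply, smul_eq_mul]
  have key : ∀ (k : ℕ) (x : Γ), (((opw w T) ^ k) δ : Γ → ℂ) x = ((ret w T k x : ℝ) : ℂ) := by
    intro k
    induction k with
    | zero =>
      intro x
      rw [pow_zero, ContinuousLinearMap.one_apply]
      by_cases h : x = 1
      · subst h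
        simp [δ, ret, lp.single_apply_self]
      · have h' : (δ : Γ → ℂ) x = 0 := lp.single_apply_ne (E := fun _ : Γ => ℂ) 2 1 (1 : ℂ) h
        rw [h']
        simp [ret, h]
    | succ k ih =>
      intro x
      rw [pow_succ', ContinuousLinearMap.mul_apply, hop]
      simp only [ret, Complex.ofReal_sum, Complex.ofReal_mul]
      exact Finset.sum_congr rfl fun s _ => by rw [ih]
  have h1 : ‖(((opw w T) ^ k) δ : Γ → ℂ) 1‖ ≤ ‖opw w T‖ ^ k := by
    refine (lp.norm_apply_le_norm (by norm_num) _ _).trans ?_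
    refine (ContinuousLinearMap.le_opNorm _ _).trans ?_
    have h2 : ‖δ‖ = 1 := by
      have h3 := lp.norm_single (E := fun _ : Γ => ℂ) (p := 2) (by norm_num) 1 (1 : ℂ)
      rw [h3]; simp
    rw [h2, mul_one]
    rcases Nat.eq_zero_or_pos k with rfl | hk
    · rw [pow_zero, pow_zero]
      exact ContinuousLinearMap.norm_id_le
    · exact norm_pow_le' _ hk
  rw [key] at h1
  rw [Complex.norm_real] at h1
  exact (le_abs_self _).trans h1

end Pool.Agent.H59.MO
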