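import Pool.Agent.H59.MO.GW1

/-!
[H59 MO] GW2: the first symmetric weight, and squares of weights.

PROOF. `exists_base`: let `A := ∑ s ∈ S, λ s`, `n := |S|`. `A* A = ∑ s ∈ S, ∑ t ∈ S, λ (s⁻¹ t)`
(`(λ s)* = (λ s)⁻¹ = λ s⁻¹` since `λ s` is unitary and `λ` a homomorphism), `‖A* A‖ = ‖A‖² < n²`. Let
`T := image of S × S under (s, t) ↦ s⁻¹ t` and `w x := #{(s, t) ∈ S × S | s⁻¹ t = x} / n²`; `w` is
symmetric (swap `s, t`), `∑ x ∈ T, w x = 1` (fibres), `opw w T = n⁻² A* A`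
(`Finset.sum_fiberwise`..).
`exists_square`: `T' := T * T` (`Finset.image₂`/pointwise), `w' x := ∑ y ∈ T, w y * w (y⁻¹ * x)` (as a
sum over `T`, `w = 0` off `T`). `w' ≥ 0`, `w' = 0` off `T'`, `∑ x ∈ T', w' x = (∑ w)² = 1`,
`opw w' T' = opw w T * opw w T`, so the norm is at most `r²`. Symmetry:
`w' x⁻¹ = ∑ y, w y w (y⁻¹ x⁻¹) = ∑ y, w y w (x y) = ∑ z, w (x⁻¹ z) w z = ∑ z, w (z⁻¹ x) w z = w' x`
(substitute `z = x y`; in each sum only finitely many terms are nonzero: `finsum` or sums over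
`T`, using `w (x y) ≠ 0 → x y ∈ T`).
-/

open scoped ENNReal

namespace Pool.Agent.H59.MO

universe u

/-- symmetric probability weight with operator norm at most `r` -/
def IsP {Γ : Type u} [Group Γ] (r : ℝ) (T : Finset Γ) (w : Γ → ℝ) : Prop :=
  (∀ x, 0 ≤ w x) ∧ (∀ x, x ∉ T → w x = 0) ∧ (∀ x, w x⁻¹ = w x) ∧ (∀ x ∈ T, x⁻¹ ∈ T) ∧
    ∑ x ∈ T, w x = 1 ∧ ‖opw w T‖ ≤ r

theorem star_lam {Γ : Type u} [Group Γ] (s : Γ) : star (lam Γ s) = lam Γ s⁻¹ := by
  have h1 := (Unitary.mem_iff.1 (lam_unitary s)).1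
  have h2 : lam Γ s * lam Γ s⁻¹ = 1 := by rw [← map_mul, mul_inv_cancel, map_one]
  calc star (lam Γ s) = star (lam Γ s) * (lam Γ s * lam Γ s⁻¹) := by rw [h2, mul_one]
    _ = lam Γ s⁻¹ := by rw [← mul_assoc, h1, one_mul]

theorem sum_shift {Γ : Type u} [Group Γ] {M : Type*} [AddCommMonoid M] (T T' : Finset Γ) (y : Γ)
    (h : ∀ z ∈ T, y * z ∈ T') (F : Γ → M) (hF : ∀ u, y⁻¹ * u ∉ T → F u = 0) :
    ∑ u ∈ T', F u = ∑ z ∈ T, F (y * z) := by
  classical
  have h1 : ∑ u ∈ T.image (fun z => y * z), F u = ∑ z ∈ T, F (y * z) :=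
    Finset.sum_image (fun a _ b _ hab => mul_left_cancel hab)
  rw [← h1]
  symm
  refine Finset.sum_subset ?_ ?_
  · intro u hu
    obtain ⟨z, hz, rfl⟩ := Finset.mem_image.1 hu
    exact h z hz
  · intro u _ hu
    apply hF
    intro hz
    exact hu (Finset.mem_image.2 ⟨_, hz, by simp⟩)

theorem exists_base {Γ : Type u} [Group Γ] {S : Finset Γ} (hS : S.Nonempty)
    (h : ‖∑ s ∈ S, lam Γ s‖ < (S.card : ℝ)) :
    ∃ (r : ℝ) (T : Finset Γ) (w : Γ → ℝ), 0 ≤ r ∧ r < 1 ∧ IsP r T w := by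
  classical
  set A : L2 Γ →L[ℂ] L2 Γ := ∑ s ∈ S, lam Γ s with hA
  set n : ℝ := (S.card : ℝ) with hn
  have hn0 : 0 < n := by
    rw [hn]
    exact_mod_cast hS.card_pos
  let m : Γ × Γ → Γ := fun p => p.1⁻¹ * p.2
  let T : Finset Γ := (S ×ˢ S).image m
  let w : Γ → ℝ := fun x => (((S ×ˢ S).filter (fun p => m p = x)).card : ℝ) / n ^ 2
  have hsum : ((S ×ˢ S).card : ℕ) = ∑ x ∈ T, ((S ×ˢ S).filter (fun p => m p = x)).card :=
    Finset.card_eq_sum_card_fiberwise (fun p hp => Finset.mem_image_of_mem m hp)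
  have hop : opw w T = ((1 / n ^ 2 : ℝ) : ℂ) • (star A * A) := by
    have h1 : star A * A = ∑ p ∈ S ×ˢ S, lam Γ (m p) := by
      rw [hA, star_sum, Finset.sum_mul_sum, ← Finset.sum_product']
      refine Finset.sum_congr rfl fun p _ => ?_
      rw [star_lam, ← map_mul]
    have h2 : ∑ p ∈ S ×ˢ S, lam Γ (m p) =
        ∑ x ∈ T, ∑ p ∈ (S ×ˢ S).filter (fun p => m p = x), lam Γ (m p) :=
      (Finset.sum_fiberwise_of_maps_to (fun p hp => Finset.mem_image_of_mem m hp) _).symm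
    rw [h1, h2, Finset.smul_sum]
    unfold opw
    refine Finset.sum_congr rfl fun x _ => ?_
    have h3 : ∑ p ∈ (S ×ˢ S).filter (fun p => m p = x), lam Γ (m p) =
        (((S ×ˢ S).filter (fun p => m p = x)).card : ℂ) • lam Γ x := by
      rw [Finset.sum_congr rfl (fun p hp => by rw [(Finset.mem_filter.1 hp).2] :
        ∀ p ∈ (S ×ˢ S).filter (fun p => m p = x), lam Γ (m p) = lam Γ x), Finset.sum_const,
        Nat.cast_smul_eq_nsmul]
    rw [h3, smul_smul]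
    congr 1
    simp only [w]
    push_cast
    ring
  refine ⟨(‖A‖ / n) ^ 2, T, w, by positivity, ?_, fun x => by positivity, ?_, ?_, ?_, ?_, ?_⟩
  · have h1 : ‖A‖ / n < 1 := (div_lt_one hn0).2 h
    have h2 : 0 ≤ ‖A‖ / n := by positivity
    nlinarith
  · intro x hx
    simp only [w]
    have : (S ×ˢ S).filter (fun p => m p = x) = ∅ := by
      rw [Finset.filter_eq_empty_iff]
      intro p hp hpx
      exact hx (Finset.mem_image.2 ⟨p, hp, hpx⟩)
    rw [this]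
    simp
  · intro x
    simp only [w]
    congr 2
    refine Finset.card_bij (fun p _ => (p.2, p.1)) ?_ ?_ ?_
    · intro p hp
      rw [Finset.mem_filter, Finset.mem_product] at hp ⊢
      refine ⟨⟨hp.1.2, hp.1.1⟩, ?_⟩
      have h1 : p.1⁻¹ * p.2 = x⁻¹ := hp.2
      change p.2⁻¹ * p.1 = x
      rw [← inv_inj, ← h1]
      group
    · intro p _ q _ hpq
      simp only [Prod.mk.injEq] at hpq
      exact Prod.ext hpq.2 hpq.1
    · intro p hp
      rw [Finset.mem_filter, Finset.mem_product] at hp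
      refine ⟨(p.2, p.1), ?_, rfl⟩
      rw [Finset.mem_filter, Finset.mem_product]
      refine ⟨⟨hp.1.2, hp.1.1⟩, ?_⟩
      have h1 : p.1⁻¹ * p.2 = x := hp.2
      change p.2⁻¹ * p.1 = x⁻¹
      rw [← h1]
      group
  · intro x hx
    obtain ⟨p, hp, rfl⟩ := Finset.mem_image.1 hx
    refine Finset.mem_image.2 ⟨(p.2, p.1), ?_, ?_⟩
    · rw [Finset.mem_product] at hp ⊢
      exact ⟨hp.2, hp.1⟩
    · change p.2⁻¹ * p.1 = (p.1⁻¹ * p.2)⁻¹
      group
  · simp only [w]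
    rw [← Finset.sum_div, ← Nat.cast_sum, ← hsum, Finset.card_product]
    push_cast
    rw [← hn]
    field_simp
  · have h2 : ‖star A * A‖ = ‖A‖ * ‖A‖ := ContinuousLinearMap.norm_adjoint_comp_self A
    rw [hop, norm_smul, h2]
    have h1 : ‖((1 / n ^ 2 : ℝ) : ℂ)‖ = 1 / n ^ 2 := by
      rw [Complex.norm_real, Real.norm_eq_abs, abs_of_nonneg (by positivity)]
    rw [h1]
    apply le_of_eq
    field_simp

theorem exists_square {Γ : Type u} [Group Γ] {r : ℝ} {T : Finset Γ} {w : Γ → ℝ}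
    (h : IsP r T w) : ∃ (T' : Finset Γ) (w' : Γ → ℝ), IsP (r ^ 2) T' w' := by
  classical
  obtain ⟨h0, hsupp, hsym, hTs, hsum, hn⟩ := h
  let T' : Finset Γ := (T ×ˢ T).image (fun p => p.1 * p.2)
  let w' : Γ → ℝ := fun x => ∑ y ∈ T, w y * w (y⁻¹ * x)
  have hT' : ∀ y ∈ T, ∀ z ∈ T, y * z ∈ T' := fun y hy z hz =>
    Finset.mem_image.2 ⟨(y, z), Finset.mem_product.2 ⟨hy, hz⟩, rfl⟩
  have hop : opw w' T' = opw w T * opw w T := by
    unfold opw
    rw [Finset.sum_mul_sum]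
    have h1 : ∑ x ∈ T', ((w' x : ℝ) : ℂ) • lam Γ x =
        ∑ y ∈ T, ∑ x ∈ T', ((w y * w (y⁻¹ * x) : ℝ) : ℂ) • lam Γ x := by
      rw [Finset.sum_comm]
      refine Finset.sum_congr rfl fun x _ => ?_
      rw [← Finset.sum_smul]
      simp only [w']
      push_cast
      rfl
    rw [h1]
    refine Finset.sum_congr rfl fun y hy => ?_
    rw [sum_shift T T' y (hT' y hy) (fun x => ((w y * w (y⁻¹ * x) : ℝ) : ℂ) • lam Γ x)
      (fun u hu => by simp [hsupp _ hu])]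
    refine Finset.sum_congr rfl fun z _ => ?_
    rw [inv_mul_cancel_left, map_mul, smul_mul_smul_comm]
    push_cast
    rfl
  refine ⟨T', w', fun x => Finset.sum_nonneg fun y _ => mul_nonneg (h0 _) (h0 _), ?_, ?_, ?_, ?_, ?_⟩
  · intro x hx
    refine Finset.sum_eq_zero fun y hy => ?_
    by_cases hz : y⁻¹ * x ∈ T
    · exfalso
      apply hx
      have := hT' y hy _ hz
      rwa [mul_inv_cancel_left] at this
    · rw [hsupp _ hz, mul_zero]
  · intro x
    have e1 : w' x⁻¹ = ∑' y, w y * w (x * y) := by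
      rw [tsum_eq_sum (s := T) (fun y hy => by rw [hsupp y hy, zero_mul])]
      refine Finset.sum_congr rfl fun y _ => ?_
      rw [← hsym (x * y), mul_inv_rev]
    have e2 : w' x = ∑' z, w (x⁻¹ * z) * w z := by
      rw [tsum_eq_sum (s := T) (fun y hy => by rw [hsupp y hy, mul_zero])]
      refine Finset.sum_congr rfl fun z _ => ?_
      rw [← hsym (x⁻¹ * z), mul_inv_rev, inv_inv, mul_comm]
    rw [e1, e2, ← (Equiv.mulLeft x).tsum_eq (fun z => w (x⁻¹ * z) * w z)]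
    refine tsum_congr fun y => ?_
    simp
  · intro x hx
    obtain ⟨p, hp, rfl⟩ := Finset.mem_image.1 hx
    obtain ⟨hp1, hp2⟩ := Finset.mem_product.1 hp
    rw [mul_inv_rev]
    exact hT' _ (hTs _ hp2) _ (hTs _ hp1)
  · simp only [w']
    rw [Finset.sum_comm]
    have h1 : ∀ y ∈ T, ∑ x ∈ T', w y * w (y⁻¹ * x) = w y := by
      intro y hy
      rw [sum_shift T T' y (hT' y hy) (fun x => w y * w (y⁻¹ * x))
        (fun u hu => by rw [hsupp _ hu, mul_zero])]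
      simp only [inv_mul_cancel_left]
      rw [← Finset.mul_sum, hsum, mul_one]
    rw [Finset.sum_congr rfl h1, hsum]
  · rw [hop, pow_two]
    exact (norm_mul_le _ _).trans (mul_le_mul hn hn (norm_nonneg _) ((norm_nonneg _).trans hn))

end Pool.Agent.H59.MO
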