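import Pool.Agent.H59.MO.Defs

/-!
[H59 MO] Inv: invariant closed subspaces of uniformly bounded representations of a unitarisable
group are complemented by an invariant projection.

PROOF. Take `S` from `hG K π hπ`: `u g := S ∘ π g ∘ S⁻¹` is unitary. `N := M.map S` is a closed
subspace (`S` is a homeomorphism) with `u g N ⊆ N` for all `g`. Let `Q` be the orthogonal projection
onto `N`. `u g` commutes with `Q`: for `x ∈ N` this is clear, and for `x ∈ Nᗮ` and `y ∈ N`
`⟪u g x, y⟫ = ⟪x, (u g)* y⟫ = ⟪x, u g⁻¹ y⟫ = 0` since `(u g)* = (u g)⁻¹ = u g⁻¹`, so `u g x ∈ Nᗮ` and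
both sides vanish. Put `P := S⁻¹ ∘ Q ∘ S`.
-/

namespace Pool.Agent.H59.MO

open Pool.Agent.H58.Lit

universe u

theorem inv_proj {G : Type u} [Group G] (hG : Unitarisable G) {K : Type u}
    [NormedAddCommGroup K] [InnerProductSpace ℂ K] [CompleteSpace K] (π : G →* (K →L[ℂ] K))
    (hπ : ∃ C : ℝ, ∀ g, ‖π g‖ ≤ C) (M : Submodule ℂ K) (hM : IsClosed (M : Set K))
    (hinv : ∀ g, ∀ x ∈ M, π g x ∈ M) :
    ∃ P : K →L[ℂ] K, (∀ x ∈ M, P x = x) ∧ (∀ x, P x ∈ M) ∧ ∀ g, P ∘L π g = π g ∘L P := by
  obtain ⟨S, hS⟩ := hG K π hπ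
  let N : Submodule ℂ K := M.map (S : K →ₗ[ℂ] K)
  have hNc : IsClosed (N : Set K) := by
    have h1 : (N : Set K) = S.toHomeomorph '' (M : Set K) := by
      ext x
      simp [N]
    rw [h1]
    exact S.toHomeomorph.isClosedMap _ hM
  haveI : CompleteSpace N := hNc.completeSpace_coe
  let u : G → (K →L[ℂ] K) := fun g => (S : K →L[ℂ] K) ∘L π g ∘L (S.symm : K →L[ℂ] K)
  have hu : ∀ g x, u g x = S (π g (S.symm x)) := fun g x => rfl
  have hinner : ∀ g x y, inner ℂ (u g x) (u g y) = inner ℂ x y := fun g x y =>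
    ContinuousLinearMap.inner_map_map_of_mem_unitary (hS g) x y
  have hmul : ∀ g x, u g (u g⁻¹ x) = x := by
    intro g x
    rw [hu, hu, S.symm_apply_apply]
    have h1 : π g (π g⁻¹ (S.symm x)) = S.symm x := by
      have h2 : (π g * π g⁻¹) (S.symm x) = S.symm x := by
        rw [← map_mul, mul_inv_cancel, map_one]
        rfl
      exact h2
    rw [h1, S.apply_symm_apply]
  have huN : ∀ g, ∀ x ∈ N, u g x ∈ N := by
    rintro g _ ⟨m, hm, rfl⟩
    refine ⟨π g m, hinv g m hm, ?_⟩
    rw [hu]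
    simp
  have hcomm : ∀ g x, N.starProjection (u g x) = u g (N.starProjection x) := by
    intro g x
    refine Submodule.eq_starProjection_of_mem_orthogonal
      (huN g _ (Submodule.starProjection_apply_mem N x)) ?_
    rw [← map_sub, Submodule.mem_orthogonal]
    intro y hy
    rw [← hmul g y, hinner]
    exact (Submodule.mem_orthogonal N _).1 (Submodule.sub_starProjection_mem_orthogonal x) _
      (huN g⁻¹ y hy)
  refine ⟨(S.symm : K →L[ℂ] K) ∘L N.starProjection ∘L (S : K →L[ℂ] K), ?_, ?_, ?_⟩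
  · intro x hx
    have h1 : N.starProjection (S x) = S x :=
      Submodule.starProjection_eq_self_iff.2 ⟨x, hx, rfl⟩
    change S.symm (N.starProjection (S x)) = x
    rw [h1, S.symm_apply_apply]
  · intro x
    change S.symm (N.starProjection (S x)) ∈ M
    obtain ⟨m, hm, hm2⟩ := Submodule.starProjection_apply_mem N (S x)
    rw [← hm2]
    simpa using hm
  · intro g
    ext x
    change S.symm (N.starProjection (S (π g x))) = π g (S.symm (N.starProjection (S x)))
    have h1 : S (π g x) = u g (S x) := by rw [hu, S.symm_apply_apply]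
    rw [h1, hcomm, hu, S.symm_apply_apply]

end Pool.Agent.H59.MO
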