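import Pool.Agent.H59.MO.Reiter

/-!
[H59 MO] KOp: Schur test for kernels on `ℓ²(Γ)`.

PROOF. For `ξ ∈ ℓ²` and `x : Γ`, Cauchy-Schwarz in `ENNReal` (`ENNReal.inner_le_Lp_mul_Lq_tsum`.. or
`ENNReal.lintegral_mul_le_Lp_mul_Lq` for the counting measure, exponents two) gives
`(∑' y, ‖k x y‖ₑ ‖ξ y‖ₑ)² ≤ (∑' y, ‖k x y‖ₑ) (∑' y, ‖k x y‖ₑ ‖ξ y‖ₑ²) ≤ A ∑' y, ‖k x y‖ₑ ‖ξ y‖ₑ²`, and
summing over `x` (`ENNReal.tsum_comm`) `∑' x, (..)² ≤ A ∑' y, (∑' x, ‖k x y‖ₑ) ‖ξ y‖ₑ² ≤ A² ∑' ‖ξ y‖ₑ²`. So for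
every `x` the series `∑' y, k x y * ξ y` is absolutely summable, the function `x ↦ ∑' y, k x y * ξ y` is in
`ℓ²` with norm at most `A ‖ξ‖`, and it depends linearly on `ξ` (`tsum_add`, `tsum_mul_left`, with the
summability). `LinearMap.mkContinuous`.
-/

open scoped ENNReal NNReal

namespace Pool.Agent.H59.MO

universe u

theorem tsum_enorm_sq {Γ : Type u} (ξ : L2 Γ) :
    ∑' x, ‖ξ x‖ₑ ^ 2 = ENNReal.ofReal (‖ξ‖ ^ 2) := by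
  have h := hasSum_sq ξ
  rw [← h.tsum_eq, ENNReal.ofReal_tsum_of_nonneg (fun x => by positivity) h.summable]
  refine tsum_congr fun x => ?_
  rw [ENNReal.ofReal_pow (norm_nonneg _), ofReal_norm]

theorem memlp_of_enorm {Γ : Type u} {η : Γ → ℂ} {B : ℝ} (hB : 0 ≤ B)
    (h : ∑' x, ‖η x‖ₑ ^ 2 ≤ ENNReal.ofReal (B ^ 2)) :
    ∃ hm : Memℓp η 2, ‖(⟨η, hm⟩ : L2 Γ)‖ ≤ B := by
  have hs : Summable (fun x => ‖η x‖ ^ 2) := by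
    have h1 := ENNReal.summable_toReal (f := fun x => ‖η x‖ₑ ^ 2)
      (h.trans_lt ENNReal.ofReal_lt_top).ne
    refine h1.congr fun x => ?_
    rw [ENNReal.toReal_pow, toReal_enorm]
  have hm : Memℓp η 2 := by
    rw [memℓp_gen_iff (by norm_num)]
    have h2 : (2 : ℝ≥0∞).toReal = ((2 : ℕ) : ℝ) := by norm_num
    rw [h2]
    simpa only [Real.rpow_natCast] using hs
  refine ⟨hm, ?_⟩
  have h3 := tsum_enorm_sq (⟨η, hm⟩ : L2 Γ)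
  have h4 : ENNReal.ofReal (‖(⟨η, hm⟩ : L2 Γ)‖ ^ 2) ≤ ENNReal.ofReal (B ^ 2) := by
    rw [← h3]
    exact h
  rw [ENNReal.ofReal_le_ofReal_iff (by positivity)] at h4
  exact le_of_sq_le_sq h4 hB

/-- Cauchy-Schwarz with a weight -/
theorem tsum_mul_sq_le {ι : Type u} (a b : ι → ℝ≥0) :
    (∑' i, (a i : ℝ≥0∞) * b i) ^ 2 ≤ (∑' i, (a i : ℝ≥0∞)) * ∑' i, (a i : ℝ≥0∞) * (b i : ℝ≥0∞) ^ 2 := by
  have h1 : ∀ s : Finset ι, (∑ i ∈ s, (a i : ℝ≥0∞) * b i) ^ 2 ≤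
      (∑' i, (a i : ℝ≥0∞)) * ∑' i, (a i : ℝ≥0∞) * (b i : ℝ≥0∞) ^ 2 := by
    intro s
    have h2 : (∑ i ∈ s, a i * b i) ^ 2 ≤ (∑ i ∈ s, a i) * ∑ i ∈ s, a i * b i ^ 2 :=
      Finset.sum_sq_le_sum_mul_sum_of_sq_le_mul s (fun _ _ => bot_le) (fun _ _ => bot_le)
        (fun i _ => le_of_eq (by ring))
    have h3 : (∑ i ∈ s, (a i : ℝ≥0∞) * b i) ^ 2 ≤
        (∑ i ∈ s, (a i : ℝ≥0∞)) * ∑ i ∈ s, (a i : ℝ≥0∞) * (b i : ℝ≥0∞) ^ 2 := by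
      exact_mod_cast h2
    exact h3.trans (mul_le_mul' (ENNReal.sum_le_tsum s) (ENNReal.sum_le_tsum s))
  have h4 : HasSum (fun i => (a i : ℝ≥0∞) * b i) (∑' i, (a i : ℝ≥0∞) * b i) :=
    ENNReal.summable.hasSum
  exact le_of_tendsto' (((ENNReal.continuous_pow 2).tendsto _).comp h4) h1

theorem kernel_op {Γ : Type u} [Group Γ] (k : Γ → Γ → ℂ) {A : ℝ≥0}
    (row : ∀ x, ∑' y, ‖k x y‖ₑ ≤ (A : ℝ≥0∞)) (col : ∀ y, ∑' x, ‖k x y‖ₑ ≤ (A : ℝ≥0∞)) :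
    ∃ K : L2 Γ →L[ℂ] L2 Γ, (∀ (ξ : L2 Γ) (x : Γ), Summable (fun y => k x y * ξ y) ∧
      (K ξ : Γ → ℂ) x = ∑' y, k x y * ξ y) ∧ ‖K‖ ≤ A := by
  classical
  -- the row bound for the product
  have hrow : ∀ (ξ : L2 Γ) (x : Γ), (∑' y, ‖k x y‖ₑ * ‖ξ y‖ₑ) ^ 2 ≤
      A * ∑' y, ‖k x y‖ₑ * ‖ξ y‖ₑ ^ 2 := by
    intro ξ x
    exact (tsum_mul_sq_le (fun y => ‖k x y‖₊) (fun y => ‖ξ y‖₊)).trans
      (mul_le_mul' (row x) le_rfl)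
  have hall : ∀ ξ : L2 Γ, ∑' x, (∑' y, ‖k x y‖ₑ * ‖ξ y‖ₑ) ^ 2 ≤
      ENNReal.ofReal ((A * ‖ξ‖) ^ 2) := by
    intro ξ
    calc ∑' x, (∑' y, ‖k x y‖ₑ * ‖ξ y‖ₑ) ^ 2
        ≤ ∑' x, A * ∑' y, ‖k x y‖ₑ * ‖ξ y‖ₑ ^ 2 := ENNReal.tsum_le_tsum fun x => hrow ξ x
      _ = A * ∑' y, ∑' x, ‖k x y‖ₑ * ‖ξ y‖ₑ ^ 2 := by
          rw [ENNReal.tsum_mul_left, ENNReal.tsum_comm]
      _ ≤ A * ∑' y, A * ‖ξ y‖ₑ ^ 2 := by
          refine mul_le_mul' le_rfl (ENNReal.tsum_le_tsum fun y => ?_)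
          rw [ENNReal.tsum_mul_right]
          exact mul_le_mul' (col y) le_rfl
      _ = ENNReal.ofReal ((A * ‖ξ‖) ^ 2) := by
          rw [ENNReal.tsum_mul_left, tsum_enorm_sq, mul_pow, ENNReal.ofReal_mul (by positivity),
            ← mul_assoc]
          congr 1
          rw [ENNReal.ofReal_pow (by positivity), ENNReal.ofReal_coe_nnreal, sq]
  have hsm : ∀ (ξ : L2 Γ) (x : Γ), Summable (fun y => k x y * ξ y) := by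
    intro ξ x
    have h1 : (∑' y, ‖k x y‖ₑ * ‖ξ y‖ₑ) ^ 2 < ⊤ :=
      (ENNReal.le_tsum x).trans_lt ((hall ξ).trans_lt ENNReal.ofReal_lt_top)
    have h2 : ∑' y, ‖k x y‖ₑ * ‖ξ y‖ₑ ≠ ⊤ := by
      intro h3
      rw [h3] at h1
      simp at h1
    have h3 := ENNReal.summable_toReal h2
    refine Summable.of_norm (h3.congr fun y => ?_)
    rw [ENNReal.toReal_mul, toReal_enorm, toReal_enorm, norm_mul]
  have hen : ∀ (ξ : L2 Γ), ∑' x, ‖∑' y, k x y * ξ y‖ₑ ^ 2 ≤ ENNReal.ofReal ((A * ‖ξ‖) ^ 2) := by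
    intro ξ
    refine (ENNReal.tsum_le_tsum fun x => ?_).trans (hall ξ)
    have h1 : ‖∑' y, k x y * ξ y‖ₑ ≤ ∑' y, ‖k x y‖ₑ * ‖ξ y‖ₑ := by
      refine enorm_tsum_le_tsum_enorm.trans (le_of_eq (tsum_congr fun y => ?_))
      rw [enorm_mul]
    gcongr
  have hm := fun ξ : L2 Γ => memlp_of_enorm (η := fun x => ∑' y, k x y * ξ y) (by positivity)
    (hen ξ)
  let K : L2 Γ →L[ℂ] L2 Γ :=
    LinearMap.mkContinuous
      { toFun := fun ξ => ⟨fun x => ∑' y, k x y * ξ y, (hm ξ).choose⟩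
        map_add' := fun ξ η => by
          ext x
          change ∑' y, k x y * (ξ + η : L2 Γ) y = ∑' y, k x y * ξ y + ∑' y, k x y * η y
          rw [← (hsm ξ x).tsum_add (hsm η x)]
          refine tsum_congr fun y => ?_
          rw [lp.coeFn_add, Pi.add_apply, mul_add]
        map_smul' := fun c ξ => by
          ext x
          change ∑' y, k x y * (c • ξ : L2 Γ) y = c * ∑' y, k x y * ξ y
          rw [← tsum_mul_left]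
          refine tsum_congr fun y => ?_
          rw [lp.coeFn_smul, Pi.smul_apply, smul_eq_mul]
          ring } A (fun ξ => (hm ξ).choose_spec)
  exact ⟨K, fun ξ x => ⟨hsm ξ x, rfl⟩, LinearMap.mkContinuous_norm_le _ (by positivity) _⟩

end Pool.Agent.H59.MO
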