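import Pool.Agent.H59.MO.Defs

/-!
[H59 MO] LReg: the left regular representation on `ℓ²(Γ)`.

PROOF. For `g : Γ`, `ξ ∈ ℓ²` the function `x ↦ ξ (g⁻¹ * x)` is in `ℓ²` with the same norm
(`Equiv.mulLeft g⁻¹`, `Equiv.summable_iff`, `Equiv.tsum_eq`, `lp.norm_rpow_eq_tsum`). This defines a
linear isometric map; multiplicativity is checked pointwise; `L g` is an isometry with inverse `L g⁻¹`,
hence unitary.
-/

open scoped ENNReal

namespace Pool.Agent.H59.MO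

universe u

theorem lreg_exists (Γ : Type u) [Group Γ] : ∃ L : Γ →* (L2 Γ →L[ℂ] L2 Γ),
    (∀ (g : Γ) (ξ : L2 Γ) (x : Γ), (L g ξ : Γ → ℂ) x = ξ (g⁻¹ * x)) ∧
      ∀ g, L g ∈ unitary (L2 Γ →L[ℂ] L2 Γ) := by
  classical
  have hmem : ∀ (g : Γ) (ξ : L2 Γ), Memℓp (fun x => ξ (g⁻¹ * x)) 2 := by
    intro g ξ
    have h1 := (memℓp_gen_iff (E := fun _ : Γ => ℂ) (p := 2) (by norm_num)).1 (lp.memℓp ξ)
    rw [memℓp_gen_iff (by norm_num)]
    exact (Equiv.mulLeft g⁻¹).summable_iff.2 h1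
  have hnorm : ∀ (g : Γ) (ξ : L2 Γ), ‖(⟨fun x => ξ (g⁻¹ * x), hmem g ξ⟩ : L2 Γ)‖ = ‖ξ‖ := by
    intro g ξ
    have h1 := lp.norm_rpow_eq_tsum (E := fun _ : Γ => ℂ) (p := 2) (by norm_num) ξ
    have h2 := lp.norm_rpow_eq_tsum (E := fun _ : Γ => ℂ) (p := 2) (by norm_num)
      (⟨fun x => ξ (g⁻¹ * x), hmem g ξ⟩ : L2 Γ)
    have h3 : ∑' x, ‖ξ (g⁻¹ * x)‖ ^ (2 : ℝ≥0∞).toReal = ∑' x, ‖ξ x‖ ^ (2 : ℝ≥0∞).toReal :=
      (Equiv.mulLeft g⁻¹).tsum_eq (fun x => ‖ξ x‖ ^ (2 : ℝ≥0∞).toReal)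
    have h4 : ‖(⟨fun x => ξ (g⁻¹ * x), hmem g ξ⟩ : L2 Γ)‖ ^ (2 : ℝ≥0∞).toReal =
        ‖ξ‖ ^ (2 : ℝ≥0∞).toReal := by
      rw [h2, h1]
      exact h3
    have h5 : (2 : ℝ≥0∞).toReal ≠ 0 := by norm_num
    exact (Real.rpow_left_inj (norm_nonneg _) (norm_nonneg _) h5).1 h4
  let A : Γ → (L2 Γ →L[ℂ] L2 Γ) := fun g =>
    LinearMap.mkContinuous
      { toFun := fun ξ => ⟨fun x => ξ (g⁻¹ * x), hmem g ξ⟩
        map_add' := fun ξ η => by
          ext x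
          rfl
        map_smul' := fun c ξ => by
          ext x
          rfl } 1 (fun ξ => by
          rw [one_mul]
          exact (hnorm g ξ).le)
  have hA : ∀ g ξ x, (A g ξ : Γ → ℂ) x = ξ (g⁻¹ * x) := fun g ξ x => rfl
  have hAn : ∀ g ξ, ‖A g ξ‖ = ‖ξ‖ := fun g ξ => hnorm g ξ
  let L : Γ →* (L2 Γ →L[ℂ] L2 Γ) :=
    { toFun := A
      map_one' := by
        apply ContinuousLinearMap.ext
        intro ξ
        ext x
        rw [hA]
        simp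
      map_mul' := fun g h => by
        apply ContinuousLinearMap.ext
        intro ξ
        ext x
        change (A (g * h) ξ : Γ → ℂ) x = (A g (A h ξ) : Γ → ℂ) x
        rw [hA, hA, hA, mul_inv_rev, mul_assoc] }
  refine ⟨L, fun g ξ x => rfl, fun g => ?_⟩
  have h1 : ∀ ξ, L g (L g⁻¹ ξ) = ξ := fun ξ => by
    have h2 : (L g * L g⁻¹) ξ = ξ := by
      rw [← map_mul, mul_inv_cancel, map_one]
      rfl
    exact h2
  have h3 := (ContinuousLinearMap.norm_map_iff_adjoint_comp_self (L g)).1 (fun ξ => hAn g ξ)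
  have h4 : ContinuousLinearMap.adjoint (L g) = L g⁻¹ := by
    apply ContinuousLinearMap.ext
    intro x
    have h5 : ContinuousLinearMap.adjoint (L g) (L g (L g⁻¹ x)) = L g⁻¹ x := by
      have h6 := congrArg (fun T : L2 Γ →L[ℂ] L2 Γ => T (L g⁻¹ x)) h3
      simpa using h6
    rwa [h1] at h5
  rw [Unitary.mem_iff]
  constructor
  · exact h3
  · rw [ContinuousLinearMap.star_eq_adjoint, h4]
    apply ContinuousLinearMap.ext
    intro x
    exact h1 x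

/-- the left regular representation -/
noncomputable def lam (Γ : Type u) [Group Γ] : Γ →* (L2 Γ →L[ℂ] L2 Γ) := (lreg_exists Γ).choose

theorem lam_apply {Γ : Type u} [Group Γ] (g : Γ) (ξ : L2 Γ) (x : Γ) :
    (lam Γ g ξ : Γ → ℂ) x = ξ (g⁻¹ * x) := (lreg_exists Γ).choose_spec.1 g ξ x

theorem lam_unitary {Γ : Type u} [Group Γ] (g : Γ) : lam Γ g ∈ unitary (L2 Γ →L[ℂ] L2 Γ) :=
  (lreg_exists Γ).choose_spec.2 g

end Pool.Agent.H59.MO
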