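import Pool.Agent.H59.MO.Defs

/-!
[H59 MO] MInv: the Bernoulli measure is invariant under translations.

PROOF. Measurability is `measurable_act`. For the equality of measures use
`MeasureTheory.Measure.eq_infinitePi` for `ν := (Pm w).map (act g)`: for a finite set `s` of pairs and
measurable `t z ⊆ Bool` the preimage of `Set.pi s t` under `act g` is
`{ω | ∀ z ∈ s, ω (g⁻¹ z) ∈ t z} = Set.pi (s.image (g⁻¹ ·)) (fun z => t (g z))`, where `g z` stands for
`Sym2.map (fun x => g * x) z`; its measure is by `Measure.infinitePi_pi`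
`∏ z ∈ s, ber (ew w (g⁻¹ z)) (t z)` and `ew w (g⁻¹ z) = ew w z` because
`(g⁻¹ x)⁻¹ (g⁻¹ y) = x⁻¹ y` (`Sym2.ind`). (Alternatively `Measure.infinitePi_map_piCongrLeft`.)
-/

open MeasureTheory

namespace Pool.Agent.H59.MO

universe u

variable {Γ : Type u} [Group Γ]

theorem ew_map (w : Γ → ℝ) (g : Γ) (z : Sym2 Γ) : ew w (Sym2.map (fun x => g * x) z) = ew w z := by
  induction z using Sym2.ind with
  | _ x y => simp [ew, Sym2.map_mk, mul_assoc]

theorem measurePreserving_act (w : Γ → ℝ) (g : Γ) :
    MeasurePreserving (act g : Conf Γ → Conf Γ) (Pm w) (Pm w) := by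
  classical
  refine ⟨measurable_act g, ?_⟩
  unfold Pm
  refine Measure.eq_infinitePi _ fun s t ht => ?_
  let e : Sym2 Γ ≃ Sym2 Γ :=
    { toFun := Sym2.map (fun x => g⁻¹ * x)
      invFun := Sym2.map (fun x => g * x)
      left_inv := fun z => by rw [Sym2.map_map]; simp [Function.comp_def]
      right_inv := fun z => by rw [Sym2.map_map]; simp [Function.comp_def] }
  have hew : ∀ z, ew w (e z) = ew w z := fun z => ew_map w g⁻¹ z
  rw [Measure.map_apply (measurable_act g)
    (MeasurableSet.pi s.countable_toSet (fun i _ => ht i))]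
  have h1 : (act g : Conf Γ → Conf Γ) ⁻¹' (Set.pi (s : Set (Sym2 Γ)) t) =
      Set.pi ((s.map e.toEmbedding : Finset (Sym2 Γ)) : Set (Sym2 Γ)) (fun z => t (e.symm z)) := by
    ext ω
    simp only [Set.mem_preimage, Set.mem_pi, Finset.coe_map, Set.mem_image]
    constructor
    · rintro h _ ⟨z, hz, rfl⟩
      have := h z hz
      simp only [Equiv.coe_toEmbedding, Equiv.symm_apply_apply]
      exact this
    · intro h z hz
      have := h (e z) ⟨z, hz, rfl⟩
      simp only [Equiv.symm_apply_apply] at this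
      exact this
  rw [h1, Measure.infinitePi_pi _ (fun i _ => ht _), Finset.prod_map]
  refine Finset.prod_congr rfl fun z _ => ?_
  simp only [Equiv.coe_toEmbedding, Equiv.symm_apply_apply]
  have h2 : ∀ (p q : NNReal) (hp : p ≤ 1) (hq : q ≤ 1), p = q →
      (PMF.bernoulli p hp).toMeasure = (PMF.bernoulli q hq).toMeasure := by
    rintro p q hp hq rfl
    rfl
  exact congrArg (fun m : Measure Bool => m (t z)) (h2 _ _ _ (min_le_left _ _) (hew z))

end Pool.Agent.H59.MO
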