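import Pool.Agent.H59.MO.Defs

/-!
A net of almost invariant means gives an invariant mean.
-/

open Filter Topology

namespace Pool.Agent.H59.MO

open Pool.Agent.H58.Lit

universe u

theorem bdd_add {α : Type*} {f g : α → ℝ} (hf : Bdd f) (hg : Bdd g) : Bdd (f + g) := by
  obtain ⟨a, ha⟩ := hf
  obtain ⟨b, hb⟩ := hg
  exact ⟨a + b, fun x => (abs_add_le _ _).trans (add_le_add (ha x) (hb x))⟩

theorem bdd_smul {α : Type*} {f : α → ℝ} (c : ℝ) (hf : Bdd f) : Bdd (c • f) := by
  obtain ⟨a, ha⟩ := hf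
  refine ⟨|c| * a, fun x => ?_⟩
  simp only [Pi.smul_apply, smul_eq_mul, abs_mul]
  exact mul_le_mul_of_nonneg_left (ha x) (abs_nonneg _)

theorem bdd_const {α : Type*} (c : ℝ) : Bdd (fun _ : α => c) := ⟨|c|, fun _ => le_rfl⟩

theorem bdd_comp {α β : Type*} {f : α → ℝ} (hf : Bdd f) (e : β → α) : Bdd (fun x => f (e x)) := by
  obtain ⟨a, ha⟩ := hf
  exact ⟨a, fun x => ha _⟩

theorem amenable_of_net {Γ : Type u} [Group Γ] {ι : Type*} (U : Ultrafilter ι)
    (m : ι → (Γ → ℝ) → ℝ)
    (hadd : ∀ i f g, Bdd f → Bdd g → m i (f + g) = m i f + m i g)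
    (hsmul : ∀ i (c : ℝ) f, Bdd f → m i (c • f) = c * m i f)
    (hpos : ∀ i f, Bdd f → (∀ x, 0 ≤ f x) → 0 ≤ m i f)
    (hone : ∀ i, m i (fun _ => 1) = 1)
    (hinv : ∀ (g : Γ) f, Bdd f →
      Tendsto (fun i => m i (fun x => f (g * x)) - m i f) (U : Filter ι) (𝓝 0)) :
    Amenable Γ := by
  classical
  have hbd : ∀ i f C, (∀ x, |f x| ≤ C) → |m i f| ≤ C := by
    intro i f C hC
    have hf : Bdd f := ⟨C, hC⟩
    have hc : m i (fun _ => C) = C := by
      have h1 := hsmul i C (fun _ => 1) (bdd_const 1)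
      rw [hone, mul_one] at h1
      have h2 : (C • fun _ : Γ => (1 : ℝ)) = fun _ => C := by
        funext x; simp
      rwa [h2] at h1
    have h3 : 0 ≤ m i ((fun _ => C) + (-1 : ℝ) • f) := by
      refine hpos i _ (bdd_add (bdd_const C) (bdd_smul _ hf)) fun x => ?_
      have := (abs_le.1 (hC x)).2
      simp only [Pi.add_apply, Pi.smul_apply, smul_eq_mul]
      linarith
    have h4 : 0 ≤ m i ((fun _ => C) + f) := by
      refine hpos i _ (bdd_add (bdd_const C) hf) fun x => ?_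
      have := (abs_le.1 (hC x)).1
      simp only [Pi.add_apply]
      linarith
    rw [hadd i _ _ (bdd_const C) (bdd_smul _ hf), hc, hsmul i _ _ hf] at h3
    rw [hadd i _ _ (bdd_const C) hf, hc] at h4
    rw [abs_le]
    constructor <;> linarith
  let M : (Γ → ℝ) → ℝ := fun f => limUnder (U : Filter ι) (fun i => m i f)
  have hM : ∀ f, Bdd f → Tendsto (fun i => m i f) (U : Filter ι) (𝓝 (M f)) := by
    intro f hf
    obtain ⟨C, hC⟩ := hf
    have h1 : ∀ i, m i f ∈ Set.Icc (-C) C := fun i => abs_le.1 (hbd i f C hC)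
    obtain ⟨x, -, hx⟩ := (isCompact_Icc (a := -C) (b := C)).ultrafilter_le_nhds
      (U.map (fun i => m i f)) (by
        rw [le_principal_iff]
        exact Filter.mem_map.2 (Filter.univ_mem' h1))
    exact tendsto_nhds_limUnder ⟨x, hx⟩
  refine ⟨M, ?_, ?_, ?_, ?_, ?_⟩
  · intro f g hf hg
    refine tendsto_nhds_unique (hM _ (bdd_add hf hg)) ?_
    refine ((hM f hf).add (hM g hg)).congr fun i => (hadd i f g hf hg).symm
  · intro c f hf
    refine tendsto_nhds_unique (hM _ (bdd_smul c hf)) ?_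
    refine ((hM f hf).const_mul c).congr fun i => (hsmul i c f hf).symm
  · intro f hf h0
    exact ge_of_tendsto' (hM f hf) fun i => hpos i f hf h0
  · refine tendsto_nhds_unique (hM _ (bdd_const 1)) ?_
    exact tendsto_const_nhds.congr fun i => (hone i).symm
  · intro g f hf
    have h1 := (hM _ (bdd_comp hf (fun x => g * x))).sub (hM f hf)
    have h2 := tendsto_nhds_unique h1 (hinv g f hf)
    linarith

end Pool.Agent.H59.MO
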