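import Pool.Agent.H59.MO.MInv

/-!
[H59 MO] NInv: the maps `tau g` and `rho s` preserve the measure `nu w = count × Pm w`.

PROOF. `x ↦ g⁻¹ x` and `x ↦ x s` are bijections of the countable discrete space `Γ`, so they preserve
`Measure.count` (measurable since every subset of a countable space with measurable singletons is
measurable; `Measure.map` of `count` under an equivalence: `MeasurableEquiv.map..` or
`Measure.ext` + `Measure.count_apply` + `Set.encard_preimage..`). Then `MeasurePreserving.prod`
(`Measure.count` is sigma-finite on a countable type) with `measurePreserving_act w g⁻¹` respectively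
`MeasurePreserving.id`.
-/

open MeasureTheory

namespace Pool.Agent.H59.MO

universe u

variable {Γ : Type u} [Group Γ] [Countable Γ] [MeasurableSpace Γ] [MeasurableSingletonClass Γ]

omit [Group Γ] in
theorem measurePreserving_count (e : Γ ≃ Γ) :
    MeasurePreserving (e : Γ → Γ) Measure.count Measure.count := by
  have hm : Measurable (e : Γ → Γ) := measurable_of_countable _
  refine ⟨hm, ?_⟩
  ext s hs
  rw [Measure.map_apply hm hs, Measure.count_apply (hm hs), Measure.count_apply hs]
  congr 1
  exact Set.encard_preimage_of_bijective e.bijective s

theorem measurePreserving_tau (w : Γ → ℝ) (g : Γ) :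
    MeasurePreserving (tau g : Γ × Conf Γ → Γ × Conf Γ) (nu w) (nu w) := by
  have hc : MeasurePreserving (fun x : Γ => g⁻¹ * x) Measure.count Measure.count :=
    measurePreserving_count (Equiv.mulLeft g⁻¹)
  exact hc.prod (measurePreserving_act w g⁻¹)

theorem measurePreserving_rho (w : Γ → ℝ) (s : Γ) :
    MeasurePreserving (rho s : Γ × Conf Γ → Γ × Conf Γ) (nu w) (nu w) := by
  have hc : MeasurePreserving (fun x : Γ => x * s) Measure.count Measure.count :=
    measurePreserving_count (Equiv.mulRight s)
  exact hc.prod (MeasurePreserving.id (Pm w))

end Pool.Agent.H59.MO
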