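import Pool.Agent.H59.MO.WEx

/-!
[H59 MO] WMul: composition, unit, difference and adjoint of weighted composition operators.

PROOF. All by `W_spec` and `Lp.ext`. Composition: `W ν b σ ξ =ᵐ b * (ξ ∘ σ)`, compose this a.e. identity
with `τ` (`hτ.quasiMeasurePreserving.ae_eq_comp`). Adjoint: by `ContinuousLinearMap.eq_adjoint_iff`
(or `ext_inner`) one needs `⟪W ν a τ ξ, η⟫ = ⟪ξ, W ν a' τ' η⟫`; `MeasureTheory.L2.inner_def`,
`⟪z, t⟫ = conj z * t` (or its mirror): the left side is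
`∫ conj (a y * ξ (τ y)) * η y`; apply `hτ'.integral_comp'`-type change of variables `y = τ' y'`
(`MeasurePreserving.integral_comp` needs a measurable embedding: `τ'` is a measurable equivalence with
inverse `τ`; or use `integral_map` / `hτ'.map_eq`): `= ∫ conj (a (τ' y) * ξ y) * η (τ' y)`.
-/

open MeasureTheory
open scoped ENNReal

namespace Pool.Agent.H59.MO

universe u

variable {Y : Type u} [MeasurableSpace Y] {ν : Measure Y}

theorem W_comp {a b : Y → ℂ} {τ σ : Y → Y} (ha : Measurable a) (ha1 : ∀ y, ‖a y‖ ≤ 1)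
    (hτ : MeasurePreserving τ ν ν) (hb : Measurable b) (hb1 : ∀ y, ‖b y‖ ≤ 1)
    (hσ : MeasurePreserving σ ν ν) :
    W ν a τ ∘L W ν b σ = W ν (fun y => a y * b (τ y)) (fun y => σ (τ y)) := by
  apply ContinuousLinearMap.ext
  intro ξ
  apply Lp.ext
  have h1 := hτ.quasiMeasurePreserving.ae_eq_comp (W_spec hb hb1 hσ ξ)
  have h2 : Measurable (fun y => a y * b (τ y)) := ha.mul (hb.comp hτ.measurable)
  have h3 : ∀ y, ‖a y * b (τ y)‖ ≤ 1 := fun y => by
    rw [norm_mul]; exact mul_le_one₀ (ha1 y) (norm_nonneg _) (hb1 _)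
  filter_upwards [W_spec ha ha1 hτ (W ν b σ ξ), h1, W_spec h2 h3 (hσ.comp hτ) ξ] with y h4 h5 h6
  rw [ContinuousLinearMap.comp_apply, h4]
  simp only [Function.comp_apply] at h5 h6
  rw [h5]
  rw [Function.comp_def] at h6
  rw [h6]
  ring

theorem W_one : W ν (fun _ => 1) (fun y => y) = ContinuousLinearMap.id ℂ (Lp ℂ 2 ν) := by
  apply ContinuousLinearMap.ext
  intro ξ
  apply Lp.ext
  filter_upwards [W_spec (ν := ν) (a := fun _ => 1) (τ := fun y => y) measurable_const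
    (fun y => by simp) (MeasurePreserving.id ν) ξ] with y h1
  rw [h1]
  simp

theorem W_sub {a b : Y → ℂ} {τ : Y → Y} (ha : Measurable a) (ha1 : ∀ y, ‖a y‖ ≤ 1)
    (hb : Measurable b) (hb1 : ∀ y, ‖b y‖ ≤ 1) (hab : ∀ y, ‖a y - b y‖ ≤ 1)
    (hτ : MeasurePreserving τ ν ν) :
    W ν a τ - W ν b τ = W ν (fun y => a y - b y) τ := by
  apply ContinuousLinearMap.ext
  intro ξ
  apply Lp.ext
  have hm : Measurable (fun y => a y - b y) := ha.sub hb
  filter_upwards [W_spec ha ha1 hτ ξ, W_spec hb hb1 hτ ξ, W_spec hm hab hτ ξ,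
    Lp.coeFn_sub (W ν a τ ξ) (W ν b τ ξ)] with y h1 h2 h3 h4
  rw [ContinuousLinearMap.sub_apply, h4, Pi.sub_apply, h1, h2, h3]
  ring

theorem W_adjoint {a : Y → ℂ} {τ τ' : Y → Y} (ha : Measurable a) (ha1 : ∀ y, ‖a y‖ ≤ 1)
    (hτ : MeasurePreserving τ ν ν) (hτ' : MeasurePreserving τ' ν ν) (h : ∀ y, τ (τ' y) = y)
    (h' : ∀ y, τ' (τ y) = y) :
    ContinuousLinearMap.adjoint (W ν a τ) =
      W ν (fun y => (starRingEnd ℂ) (a (τ' y))) τ' := by
  symm
  rw [ContinuousLinearMap.eq_adjoint_iff]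
  intro ξ η
  have hca : Measurable (fun y => (starRingEnd ℂ) (a (τ' y))) :=
    Complex.continuous_conj.measurable.comp (ha.comp hτ'.measurable)
  have hca1 : ∀ y, ‖(starRingEnd ℂ) (a (τ' y))‖ ≤ 1 := fun y => by
    rw [RCLike.norm_conj]; exact ha1 _
  rw [L2.inner_def, L2.inner_def]
  have h1 : ∫ y, inner ℂ (W ν (fun y => (starRingEnd ℂ) (a (τ' y))) τ' ξ y) (η y) ∂ν =
      ∫ y, (a (τ' y)) * ((starRingEnd ℂ) (ξ (τ' y)) * η y) ∂ν := by
    refine integral_congr_ae ?_
    filter_upwards [W_spec hca hca1 hτ' ξ] with y h2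
    rw [h2]
    simp only [RCLike.inner_apply, map_mul, Complex.conj_conj]
    ring
  have h3 : ∫ y, inner ℂ (ξ y) (W ν a τ η y) ∂ν =
      ∫ y, a y * ((starRingEnd ℂ) (ξ y) * η (τ y)) ∂ν := by
    refine integral_congr_ae ?_
    filter_upwards [W_spec ha ha1 hτ η] with y h2
    rw [h2]
    simp only [RCLike.inner_apply]
    ring
  rw [h1, h3]
  let e : Y ≃ᵐ Y :=
    { toFun := τ
      invFun := τ'
      left_inv := h'
      right_inv := h
      measurable_toFun := hτ.measurable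
      measurable_invFun := hτ'.measurable }
  have h4 := MeasurePreserving.integral_comp (f := τ') hτ' e.symm.measurableEmbedding
    (fun y => a y * ((starRingEnd ℂ) (ξ y) * η (τ y)))
  rw [← h4]
  refine integral_congr_ae (Filter.Eventually.of_forall fun y => ?_)
  simp only [h]

end Pool.Agent.H59.MO
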