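import Pool.Agent.H59.MO.Vec
import Pool.Agent.H59.MO.WMul
import Pool.Agent.H59.MO.Par1
import Pool.Agent.H59.MO.Par2
import Pool.Agent.H59.MO.PMeas
import Pool.Agent.H59.MO.Comm

/-!
[H59 MO] PNorm: the parent operator at the base vector is large if there are many bridges.

PROOF. By `W_spec` (composition of the a.e. identity of `vec_spec` with `rho s`) a.e.
`(pop vec) (x, ω) = ∑ s ∈ S, par1 s (x, ω) * 1[x s = 1] = 1[x⁻¹ ∈ S] * 1[Par ω x 1]`. So by `norm_sq_eq`
`‖pop vec‖² = ∑' x, Pm w {ω | x⁻¹ ∈ S ∧ Par ω x 1} ≥ ∑ s ∈ S, Pm w {ω | Par ω s 1}` (take `x = s`,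
`s⁻¹ ∈ S` by `hS`; `ENNReal.sum_le_tsum`). Pointwise in `ω`, by `Par.or_of_br`,
`∑ s ∈ S, 1[Br ω 1 s] ≤ ∑ s ∈ S, 1[Par ω 1 s] + ∑ s ∈ S, 1[Par ω s 1] ≤ 1 + ∑ s ∈ S, 1[Par ω s 1]`
(`Par.unique`). Integrate (`lintegral_indicator_one`, or measure of sets; `Pm w` is a probability
measure) and take `toReal`.
-/

open MeasureTheory

namespace Pool.Agent.H59.MO

universe u

variable {Γ : Type u} [Group Γ] [Countable Γ] [MeasurableSpace Γ] [MeasurableSingletonClass Γ]

theorem coeFn_sum_Lp {Y : Type u} [MeasurableSpace Y] {ν : Measure Y} {ι : Type*} (S : Finset ι)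
    (F : ι → Lp ℂ 2 ν) : (∑ i ∈ S, F i : Lp ℂ 2 ν) =ᵐ[ν] fun y => ∑ i ∈ S, F i y := by
  classical
  induction S using Finset.induction_on with
  | empty =>
    simp only [Finset.sum_empty]
    exact Lp.coeFn_zero _ _ _
  | insert a S ha ih =>
    rw [Finset.sum_insert ha]
    filter_upwards [Lp.coeFn_add (F a) (∑ i ∈ S, F i), ih] with y h1 h2
    rw [h1, Pi.add_apply, h2, Finset.sum_insert ha]

open Classical in
theorem pop_vec_ae (w : Γ → ℝ) (idx : Γ → ℕ) (S : Finset Γ) (hS : ∀ s ∈ S, s⁻¹ ∈ S) {s : Γ}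
    (hs : s ∈ S) :
    ∀ᵐ ω ∂(Pm w), pop idx S w (vec w 1) (s, ω) = if Par idx S ω s 1 then (1 : ℂ) else 0 := by
  have hpm : ∀ s, Measurable (par1 idx S s) := fun s => measurable_par1 idx S s
  have hp1 : ∀ s y, ‖par1 idx S s y‖ ≤ 1 := fun s y => by
    rw [norm_par1]; split_ifs <;> norm_num
  have hρ := fun s => measurePreserving_rho (Γ := Γ) w s
  have h1 : ∀ t, W (nu w) (par1 idx S t) (rho t) (vec w 1) =ᵐ[nu w]
      fun y => par1 idx S t y * (if y.1 * t = 1 then (1 : ℂ) else 0) := by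
    intro t
    have h2 := (hρ t).quasiMeasurePreserving.ae_eq_comp (vec_spec w 1)
    filter_upwards [W_spec (hpm t) (hp1 t) (hρ t) (vec w 1), h2] with y h3 h4
    rw [h3]
    congr 1
  have h5 : pop idx S w (vec w 1) =ᵐ[nu w]
      fun y => ∑ t ∈ S, par1 idx S t y * (if y.1 * t = 1 then (1 : ℂ) else 0) := by
    have h6 : pop idx S w (vec w 1) = ∑ t ∈ S, W (nu w) (par1 idx S t) (rho t) (vec w 1) := by
      unfold pop
      rw [ContinuousLinearMap.sum_apply]
    rw [h6]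
    have h7 : ∀ᵐ y ∂(nu w), ∀ t ∈ S, W (nu w) (par1 idx S t) (rho t) (vec w 1) y =
        par1 idx S t y * (if y.1 * t = 1 then (1 : ℂ) else 0) := by
      rw [Filter.eventually_all_finset]
      exact fun t _ => h1 t
    filter_upwards [coeFn_sum_Lp S (fun t => W (nu w) (par1 idx S t) (rho t) (vec w 1)), h7]
      with y h8 h9
    rw [h8]
    exact Finset.sum_congr rfl h9
  filter_upwards [ae_slice w h5 s] with ω hω
  rw [hω]
  rw [Finset.sum_eq_single s⁻¹]
  · simp [par1]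
  · intro b _ hb
    have : s * b ≠ 1 := fun h => hb (eq_inv_of_mul_eq_one_right h)
    simp [this]
  · intro h
    exact absurd (hS s hs) h

theorem bridges_le (w : Γ → ℝ) {idx : Γ → ℕ} (hidx : Function.Injective idx) (S : Finset Γ)
    (hS : ∀ s ∈ S, s⁻¹ ∈ S) :
    ∑ s ∈ S, (Pm w {ω : Conf Γ | Br S ω 1 s}).toReal ≤ ‖pop idx S w (vec w 1)‖ ^ 2 + 1 := by
  classical
  have hB : ∀ s ∈ S, Pm w {ω : Conf Γ | Br S ω 1 s} ≤
      Pm w {ω : Conf Γ | Par idx S ω 1 s} + Pm w {ω : Conf Γ | Par idx S ω s 1} := by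
    intro s _
    refine (measure_mono ?_).trans (measure_union_le _ _)
    intro ω hω
    exact Par.or_of_br hidx hω
  have h1 : ∑ s ∈ S, Pm w {ω : Conf Γ | Par idx S ω 1 s} ≤ 1 := by
    rw [← measure_biUnion_finset]
    · exact prob_le_one
    · intro a _ b _ hab
      refine Set.disjoint_left.2 fun ω h1 h2 => hab ?_
      exact Par.unique h1 h2
    · intro s _
      exact measurableSet_par idx S 1 s
  have h2 : ∑ s ∈ S, Pm w {ω : Conf Γ | Par idx S ω s 1} ≤
      ENNReal.ofReal (‖pop idx S w (vec w 1)‖ ^ 2) := by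
    rw [norm_sq_eq]
    refine le_trans (Finset.sum_le_sum fun s hs => ?_) (ENNReal.sum_le_tsum S)
    have h3 : ∫⁻ ω, ENNReal.ofReal (‖pop idx S w (vec w 1) (s, ω)‖ ^ 2) ∂(Pm w) =
        ∫⁻ ω, {ω : Conf Γ | Par idx S ω s 1}.indicator (fun _ => 1) ω ∂(Pm w) := by
      refine lintegral_congr_ae ?_
      filter_upwards [pop_vec_ae w idx S hS hs] with ω hω
      rw [hω]
      by_cases h : Par idx S ω s 1
      · rw [if_pos h, Set.indicator_of_mem (by exact h)]
        simp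
      · rw [if_neg h, Set.indicator_of_notMem (by exact h)]
        simp
    rw [h3, lintegral_indicator (measurableSet_par idx S s 1)]
    simp
  have h4 : ∑ s ∈ S, Pm w {ω : Conf Γ | Br S ω 1 s} ≤
      1 + ENNReal.ofReal (‖pop idx S w (vec w 1)‖ ^ 2) := by
    refine (Finset.sum_le_sum hB).trans ?_
    rw [Finset.sum_add_distrib]
    exact add_le_add h1 h2
  have hfin : ∀ s ∈ S, Pm w {ω : Conf Γ | Br S ω 1 s} ≠ ⊤ := fun s _ => measure_ne_top _ _
  have h5 := ENNReal.toReal_mono (by simp) h4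
  rw [ENNReal.toReal_sum hfin, ENNReal.toReal_add (by simp) ENNReal.ofReal_ne_top,
    ENNReal.toReal_ofReal (by positivity), ENNReal.toReal_one] at h5
  linarith

end Pool.Agent.H59.MO
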