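import Pool.Agent.H59.MO.Vec
import Pool.Agent.H59.MO.WMul
import Pool.Agent.H59.MO.Schur
import Pool.Agent.H59.MO.Par1
import Pool.Agent.H59.MO.PMeas
import Pool.Agent.H59.MO.Comm

/-!
[H59 MO] PStar: the adjoint of the parent operator at the base vector.

PROOF. Let `q y := if y.1 = 1 then 1 else 0`, `Q := W (nu w) q (fun y => y)`. `Q` is self-adjoint
(`W_adjoint` with `τ = τ' = id`) and `Q (vec w 1) = vec w 1` (`W_spec`, `vec_spec`). By `W_comp`
`Q ∘ pop = ∑ s ∈ S, W (q * par1 s) (rho s)`, with norm at most one by `schur` (`R := rho`,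
`R' s := rho s⁻¹`, `M = 1`): row: at most one `s` has `par1 s y ≠ 0` (`Par.unique`); column at `(x, ω)`:
`q (x s⁻¹, ω) ≠ 0` only if `s = x`. So
`pop* (vec w 1) = pop* (Q* (vec w 1)) = (Q ∘ pop)* (vec w 1)` has norm at most `‖vec w 1‖ = 1`.
-/

open MeasureTheory

namespace Pool.Agent.H59.MO

universe u

variable {Γ : Type u} [Group Γ] [Countable Γ] [MeasurableSpace Γ] [MeasurableSingletonClass Γ]

theorem adjoint_pop_vec_le (w : Γ → ℝ) (idx : Γ → ℕ) (S : Finset Γ) :
    ‖ContinuousLinearMap.adjoint (pop idx S w) (vec w 1)‖ ≤ 1 := by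
  classical
  let q : Γ × Conf Γ → ℂ := fun y => if y.1 = 1 then 1 else 0
  have hq : Measurable q := Measurable.ite (measurable_fst (measurableSet_singleton 1))
    measurable_const measurable_const
  have hq1 : ∀ y, ‖q y‖ ≤ 1 := fun y => by
    simp only [q]; split_ifs <;> simp
  have hid : MeasurePreserving (fun y : Γ × Conf Γ => y) (nu w) (nu w) := MeasurePreserving.id _
  have hpm : ∀ s, Measurable (par1 idx S s) := fun s => measurable_par1 idx S s
  have hp1 : ∀ s y, ‖par1 idx S s y‖ ≤ 1 := fun s y => by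
    rw [norm_par1]; split_ifs <;> norm_num
  have hρ := fun s => measurePreserving_rho (Γ := Γ) w s
  set Q := W (nu w) q (fun y => y) with hQ
  have hQadj : ContinuousLinearMap.adjoint Q = Q := by
    rw [hQ, W_adjoint hq hq1 hid hid (fun y => rfl) (fun y => rfl)]
    congr 1
    funext y
    simp only [q]
    split_ifs <;> simp
  have hQvec : Q (vec w 1) = vec w 1 := by
    apply Lp.ext
    filter_upwards [W_spec hq hq1 hid (vec w 1), vec_spec w 1] with y h1 h2
    rw [h1, h2]
    simp only [q]
    split_ifs <;> simp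
  have hcomp : Q ∘L pop idx S w =
      ∑ s ∈ S, W (nu w) (fun y => q y * par1 idx S s y) (rho s) := by
    unfold pop
    rw [ContinuousLinearMap.comp_finset_sum]
    refine Finset.sum_congr rfl fun s _ => ?_
    rw [hQ, W_comp hq hq1 hid (hpm s) (hp1 s) (hρ s)]
  have hnorm : ‖Q ∘L pop idx S w‖ ≤ 1 := by
    rw [hcomp]
    refine schur S (fun s y => q y * par1 idx S s y) (fun s => rho s) (fun s => rho s⁻¹)
      (fun s _ => hq.mul (hpm s)) (fun s _ y => ?_) (fun s _ => hρ s) (fun s _ => hρ s⁻¹)
      (fun s _ y => ?_) (fun y => ?_) (fun y => ?_) (by norm_num)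
    · rw [norm_mul]
      exact mul_le_one₀ (hq1 y) (norm_nonneg _) (hp1 s y)
    · simp [rho]
    · refine le_trans (Finset.sum_le_sum fun s _ => ?_) (row_par1 idx S y)
      rw [norm_mul]
      exact mul_le_of_le_one_left (norm_nonneg _) (hq1 y)
    · have h1 : ∀ s ∈ S, ‖q (rho s⁻¹ y) * par1 idx S s (rho s⁻¹ y)‖ ≤
          if y.1 = s then (1 : ℝ) else 0 := by
        intro s _
        rw [norm_mul]
        by_cases h : y.1 = s
        · rw [if_pos h]
          exact mul_le_one₀ (hq1 _) (norm_nonneg _) (hp1 _ _)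
        · rw [if_neg h]
          have : q (rho s⁻¹ y) = 0 := by
            simp only [q, rho]
            rw [if_neg]
            intro h2
            exact h (mul_inv_eq_one.1 h2)
          rw [this]; simp
      refine (Finset.sum_le_sum h1).trans (sum_ite_le_one S (fun s => y.1 = s) ?_)
      intro s s' h h'
      exact h.symm.trans h'
  have h2 : ContinuousLinearMap.adjoint (pop idx S w) (vec w 1) =
      ContinuousLinearMap.adjoint (Q ∘L pop idx S w) (vec w 1) := by
    rw [ContinuousLinearMap.adjoint_comp, ContinuousLinearMap.comp_apply, hQadj, hQvec]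
  rw [h2]
  refine (ContinuousLinearMap.le_opNorm _ _).trans ?_
  rw [norm_vec, mul_one, LinearIsometryEquiv.norm_map]
  exact hnorm

end Pool.Agent.H59.MO
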