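import Pool.Agent.H59.MO.TrA

/-!
[H59 MO] TrB: the trace property of the commutant.

PROOF. By `norm_sq_eq` and `coeff_adjoint`
`‖K vec‖² = ∑' x, ∫⁻ ‖h' (x⁻¹, act x⁻¹ ω)‖² dPm` with `h' := K* vec w 1`; `act x⁻¹` preserves `Pm w`
(`measurePreserving_act`, `MeasurePreserving.lintegral_comp`; measurability of `ω ↦ h' (x⁻¹, ω)`:
`(Lp.stronglyMeasurable h').measurable.comp measurable_prodMk_left`), so this is
`∑' x, ∫⁻ ‖h' (x⁻¹, ω)‖² dPm = ∑' x, ∫⁻ ‖h' (x, ω)‖² dPm = ‖h'‖²` (`Equiv.inv Γ`, `Equiv.tsum_eq`).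
Norms are nonnegative, so equality of squares suffices.
-/

open MeasureTheory

namespace Pool.Agent.H59.MO

universe u

variable {Γ : Type u} [Group Γ] [Countable Γ] [MeasurableSpace Γ] [MeasurableSingletonClass Γ]

theorem trace_property (w : Γ → ℝ)
    (K : Lp ℂ 2 (nu w : Measure (Γ × Conf Γ)) →L[ℂ] Lp ℂ 2 (nu w : Measure (Γ × Conf Γ)))
    (hK : ∀ γ : Ext Γ, K ∘L op w γ = op w γ ∘L K) :
    ‖K (vec w 1)‖ = ‖ContinuousLinearMap.adjoint K (vec w 1)‖ := by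
  classical
  set h' := ContinuousLinearMap.adjoint K (vec w 1) with hh'
  have h1 : ENNReal.ofReal (‖K (vec w 1)‖ ^ 2) = ENNReal.ofReal (‖h'‖ ^ 2) := by
    rw [norm_sq_eq, norm_sq_eq]
    have h2 : ∀ x : Γ, ∫⁻ ω, ENNReal.ofReal (‖K (vec w 1) (x, ω)‖ ^ 2) ∂(Pm w) =
        ∫⁻ ω, ENNReal.ofReal (‖h' (x⁻¹, ω)‖ ^ 2) ∂(Pm w) := by
      intro x
      have hm : Measurable fun ω : Conf Γ => ENNReal.ofReal (‖h' (x⁻¹, ω)‖ ^ 2) := by
        have h3 : Measurable (h' : Γ × Conf Γ → ℂ) := (Lp.stronglyMeasurable h').measurable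
        exact ENNReal.measurable_ofReal.comp
          (((h3.comp measurable_prodMk_left).norm).pow_const 2)
      have h4 := (measurePreserving_act w x⁻¹).lintegral_comp hm
      rw [← h4]
      refine lintegral_congr_ae ?_
      filter_upwards [coeff_adjoint w K hK x] with ω hω
      rw [hω, RCLike.norm_conj]
    simp_rw [h2]
    exact (Equiv.inv Γ).tsum_eq (fun x => ∫⁻ ω, ENNReal.ofReal (‖h' (x, ω)‖ ^ 2) ∂(Pm w))
  have h5 : ‖K (vec w 1)‖ ^ 2 = ‖h'‖ ^ 2 := by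
    have := congrArg ENNReal.toReal h1
    rwa [ENNReal.toReal_ofReal (by positivity), ENNReal.toReal_ofReal (by positivity)] at this
  exact (pow_left_inj₀ (norm_nonneg _) (norm_nonneg _) (by norm_num)).1 h5

end Pool.Agent.H59.MO
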