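import Pool.Agent.H59.MO.Crit
import Pool.Agent.H59.MO.TrB
import Pool.Agent.H59.MO.Comm
import Pool.Agent.H59.MO.PStar
import Pool.Agent.H59.MO.PNorm
import Pool.Agent.H59.MO.Deg

/-!
[H59 MO] NonUn: `V ⋊ Γ` is not unitarisable.

PROOF. `not_unitarisable_of_models`. Give `Γ` the measurable space `⊤` (`letI : MeasurableSpace Γ := ⊤`)
and let `idx : Γ → ℕ` be injective (`exists_injective_nat` / `Countable.exists_injective_nat`). For `n` let
`T, w` be the weight of mass `c := n ^ 2 + 2`. `H := Lp ℂ 2 (nu w)`, `π` the homomorphism with values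
`op w γ` (`op_one`, `op_mul`), `f := pop idx T w`, `ξ := vec w 1`. The conditions are `op_unitary`,
`commutator_le`, `norm_vec`, `trace_property`, `adjoint_pop_vec_le`, and
`n ^ 2 + 2 ≤ ∑ .. + 1 ≤ ‖f ξ‖ ^ 2 + 2` by `expected_bridges`, `bridges_le`, so `n ≤ ‖f ξ‖`.
-/

namespace Pool.Agent.H59.MO

open Pool.Agent.H58.Lit

universe u

theorem not_unitarisable_ext {Γ : Type u} [Group Γ] [Countable Γ]
    (h : ∀ c : ℕ, ∃ (T : Finset Γ) (w : Γ → ℝ), IsWt (c : ℝ) T w) : ¬ Unitarisable (Ext Γ) := by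
  classical
  letI : MeasurableSpace Γ := ⊤
  haveI : MeasurableSingletonClass Γ := ⟨fun _ => trivial⟩
  obtain ⟨idx, hidx⟩ := Countable.exists_injective_nat Γ
  apply not_unitarisable_of_models
  intro n
  obtain ⟨T, w, hw⟩ := h (n ^ 2 + 2)
  let π : Ext Γ →* (MeasureTheory.Lp ℂ 2 (nu w : MeasureTheory.Measure (Γ × Conf Γ)) →L[ℂ]
      MeasureTheory.Lp ℂ 2 (nu w)) :=
    { toFun := op w
      map_one' := op_one w
      map_mul' := fun γ γ' => op_mul w γ γ' }
  have hs : ∀ s ∈ T, s⁻¹ ∈ T := hw.2.2.2.1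
  refine ⟨_, inferInstance, inferInstance, inferInstance, π, pop idx T w, vec w 1,
    fun γ => op_unitary w γ, fun γ => commutator_le w hidx T γ, norm_vec w 1,
    fun K hK => trace_property w K hK, adjoint_pop_vec_le w idx T, ?_⟩
  have h1 := expected_bridges hw
  have h2 := bridges_le w hidx T hs
  push_cast at h1
  have h3 : (n : ℝ) ^ 2 ≤ ‖pop idx T w (vec w 1)‖ ^ 2 := by linarith
  exact le_of_sq_le_sq h3 (norm_nonneg _)

end Pool.Agent.H59.MO
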