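import Pool.Agent.H59.MO.LReg

/-!
[H59 MO] Reiter: if no finite sum `∑ s ∈ S, λ s` has norm smaller than `|S|`, then there are almost
invariant probability vectors.

PROOF. Let `S' := insert 1 S`, `n := |S'|`, `A := ∑ s ∈ S', λ s`, `0 < δ ≤ 1` small. `n ≤ ‖A‖`, so
(`ContinuousLinearMap.exists_lt_apply_of_lt_opNorm`) there is `ξ` with `‖ξ‖ < 1`, `‖A ξ‖ > n - δ`. Since
every `‖λ s ξ‖ = ‖ξ‖ < 1`: `‖ξ‖ ≥ ‖A ξ‖ / n ≥ 1 - δ`, and for `t ∈ S`, `t ≠ 1`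
`‖λ t ξ + ξ‖ ≥ ‖A ξ‖ - (n - 2) ≥ 2 - δ`, so by the parallelogram identity
`‖λ t ξ - ξ‖² = 2 ‖λ t ξ‖² + 2 ‖ξ‖² - ‖λ t ξ + ξ‖² ≤ 4 - (2 - δ)² ≤ 4 δ` (for `t = 1` it is zero). Put
`η x := ‖ξ x‖² / ‖ξ‖²`. Then `η ≥ 0`, `∑' η = 1`, and with `|‖a‖² - ‖b‖²| ≤ ‖a - b‖ (‖a‖ + ‖b‖)` and
Cauchy-Schwarz for `ℓ²`
`∑' |η (t⁻¹ x) - η x| ≤ ‖λ t ξ - ξ‖ (‖λ t ξ‖ + ‖ξ‖) / ‖ξ‖² ≤ 4 √δ / (1 - δ)²`. Choose `δ` with this
at most `ε`.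
-/

open scoped ENNReal

namespace Pool.Agent.H59.MO

universe u

theorem lam_norm {Γ : Type u} [Group Γ] (g : Γ) (ξ : L2 Γ) : ‖lam Γ g ξ‖ = ‖ξ‖ := by
  have h := (Unitary.mem_iff.1 (lam_unitary g)).1
  exact (ContinuousLinearMap.norm_map_iff_adjoint_comp_self (lam Γ g)).2 h ξ

theorem hc2 : (2 : ℝ≥0∞).toReal.HolderConjugate (2 : ℝ≥0∞).toReal := by
  have : (2 : ℝ≥0∞).toReal = 2 := by norm_num
  rw [this]
  exact Real.HolderConjugate.two_two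

theorem hasSum_sq {Γ : Type u} (ξ : L2 Γ) : HasSum (fun x => ‖ξ x‖ ^ 2) (‖ξ‖ ^ 2) := by
  have h1 := lp.hasSum_norm (E := fun _ : Γ => ℂ) (p := 2) (by norm_num) ξ
  have h2 : (2 : ℝ≥0∞).toReal = ((2 : ℕ) : ℝ) := by norm_num
  rw [h2] at h1
  simpa only [Real.rpow_natCast] using h1

theorem tsum_diff_sq {Γ : Type u} (a b : L2 Γ) :
    ∑' x, |‖a x‖ ^ 2 - ‖b x‖ ^ 2| ≤ ‖a - b‖ * (‖a‖ + ‖b‖) := by
  obtain ⟨s1, t1⟩ := lp.tsum_mul_le_mul_norm (E := fun _ : Γ => ℂ) hc2 (a - b) a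
  obtain ⟨s2, t2⟩ := lp.tsum_mul_le_mul_norm (E := fun _ : Γ => ℂ) hc2 (a - b) b
  have hle : ∀ x, |‖a x‖ ^ 2 - ‖b x‖ ^ 2| ≤
      ‖(a - b : L2 Γ) x‖ * ‖a x‖ + ‖(a - b : L2 Γ) x‖ * ‖b x‖ := by
    intro x
    have h1 : ‖a x‖ ^ 2 - ‖b x‖ ^ 2 = (‖a x‖ - ‖b x‖) * (‖a x‖ + ‖b x‖) := by ring
    have h2 : |‖a x‖ - ‖b x‖| ≤ ‖(a - b : L2 Γ) x‖ := by
      have h3 : (a - b : L2 Γ) x = a x - b x := by
        simp
      rw [h3]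
      exact abs_norm_sub_norm_le _ _
    have h4 : 0 ≤ ‖a x‖ + ‖b x‖ := by positivity
    rw [h1, abs_mul, abs_of_nonneg h4, ← mul_add]
    exact mul_le_mul_of_nonneg_right h2 h4
  have hs := s1.add s2
  calc ∑' x, |‖a x‖ ^ 2 - ‖b x‖ ^ 2|
      ≤ ∑' x, (‖(a - b : L2 Γ) x‖ * ‖a x‖ + ‖(a - b : L2 Γ) x‖ * ‖b x‖) :=
        (Summable.of_nonneg_of_le (fun x => abs_nonneg _) hle hs).tsum_le_tsum hle hs
    _ = ∑' x, ‖(a - b : L2 Γ) x‖ * ‖a x‖ + ∑' x, ‖(a - b : L2 Γ) x‖ * ‖b x‖ := s1.tsum_add s2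
    _ ≤ ‖a - b‖ * ‖a‖ + ‖a - b‖ * ‖b‖ := add_le_add t1 t2
    _ = ‖a - b‖ * (‖a‖ + ‖b‖) := by ring

/-- a vector of norm at most one which is moved little by every element of the finite set -/
theorem exists_almost_inv {Γ : Type u} [Group Γ]
    (h : ∀ S : Finset Γ, S.Nonempty → (S.card : ℝ) ≤ ‖∑ s ∈ S, lam Γ s‖) (S : Finset Γ) {δ : ℝ}
    (hδ : 0 < δ) (hδ1 : δ ≤ 1) :
    ∃ ξ : L2 Γ, ‖ξ‖ ≤ 1 ∧ 1 - δ ≤ ‖ξ‖ ∧ ∀ t ∈ S, ‖lam Γ t ξ - ξ‖ ^ 2 ≤ 4 * δ := by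
  classical
  have hne : (insert 1 S : Finset Γ).Nonempty := ⟨1, Finset.mem_insert_self _ _⟩
  set n : ℝ := ((insert 1 S : Finset Γ).card : ℝ) with hn
  have hn1 : 1 ≤ n := by
    have : 1 ≤ (insert 1 S : Finset Γ).card := hne.card_pos
    rw [hn]
    exact_mod_cast this
  obtain ⟨ξ, hξ, hA⟩ := ContinuousLinearMap.exists_lt_apply_of_lt_opNorm
    (∑ s ∈ (insert 1 S : Finset Γ), lam Γ s) (r := n - δ) (by
      have := h _ hne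
      rw [← hn] at this
      linarith)
  rw [ContinuousLinearMap.sum_apply] at hA
  have hup : ‖∑ s ∈ (insert 1 S : Finset Γ), lam Γ s ξ‖ ≤ n * ‖ξ‖ := by
    refine (norm_sum_le _ _).trans ?_
    rw [Finset.sum_congr rfl fun s _ => lam_norm s ξ, Finset.sum_const, nsmul_eq_mul]
  have hlow : 1 - δ ≤ ‖ξ‖ := by
    have h1 : n - δ < n * ‖ξ‖ := hA.trans_le hup
    have h2 : n * (1 - ‖ξ‖) < δ := by linarith
    have h3 : 1 * (1 - ‖ξ‖) ≤ n * (1 - ‖ξ‖) :=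
      mul_le_mul_of_nonneg_right hn1 (by linarith)
    linarith
  refine ⟨ξ, hξ.le, hlow, fun t ht => ?_⟩
  by_cases ht1 : t = 1
  · rw [ht1, map_one]
    simp only [ContinuousLinearMap.one_apply, sub_self, norm_zero]
    nlinarith
  have htm : t ∈ (insert 1 S : Finset Γ) := Finset.mem_insert_of_mem ht
  have h1m : (1 : Γ) ∈ (insert 1 S : Finset Γ).erase t :=
    Finset.mem_erase.2 ⟨fun e => ht1 e.symm, Finset.mem_insert_self _ _⟩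
  have hsplit : ∑ s ∈ (insert 1 S : Finset Γ), lam Γ s ξ =
      (lam Γ t ξ + ξ) + ∑ s ∈ ((insert 1 S : Finset Γ).erase t).erase 1, lam Γ s ξ := by
    rw [← Finset.add_sum_erase _ _ htm, ← Finset.add_sum_erase _ _ h1m, map_one,
      ContinuousLinearMap.one_apply, add_assoc]
  have hc : ((((insert 1 S : Finset Γ).erase t).erase 1).card : ℝ) = n - 2 := by
    have e1 := Finset.card_erase_add_one htm
    have e2 := Finset.card_erase_add_one h1m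
    have : (((insert 1 S : Finset Γ).erase t).erase 1).card + 2 = (insert 1 S : Finset Γ).card := by
      omega
    have h3 : ((((insert 1 S : Finset Γ).erase t).erase 1).card : ℝ) + 2 = n := by
      rw [hn]
      exact_mod_cast this
    linarith
  have hrest : ‖∑ s ∈ ((insert 1 S : Finset Γ).erase t).erase 1, lam Γ s ξ‖ ≤ n - 2 := by
    refine (norm_sum_le _ _).trans ?_
    rw [Finset.sum_congr rfl fun s _ => lam_norm s ξ, Finset.sum_const, nsmul_eq_mul, hc]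
    have h0 : 0 ≤ n - 2 := by
      rw [← hc]
      positivity
    have := mul_le_mul_of_nonneg_left hξ.le h0
    linarith
  have hplus : 2 - δ ≤ ‖lam Γ t ξ + ξ‖ := by
    have h1 : ‖∑ s ∈ (insert 1 S : Finset Γ), lam Γ s ξ‖ ≤ ‖lam Γ t ξ + ξ‖ + (n - 2) := by
      rw [hsplit]
      exact (norm_add_le _ _).trans (add_le_add le_rfl hrest)
    linarith
  have hpar := parallelogram_law_with_norm ℂ (lam Γ t ξ) ξ
  rw [lam_norm] at hpar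
  have h5 : (2 - δ) ^ 2 ≤ ‖lam Γ t ξ + ξ‖ * ‖lam Γ t ξ + ξ‖ := by
    rw [← sq]
    exact pow_le_pow_left₀ (by linarith) hplus 2
  have h6 : ‖ξ‖ * ‖ξ‖ ≤ 1 := by nlinarith [norm_nonneg ξ]
  nlinarith

theorem reiter_of_norm {Γ : Type u} [Group Γ]
    (h : ∀ S : Finset Γ, S.Nonempty → (S.card : ℝ) ≤ ‖∑ s ∈ S, lam Γ s‖) (S : Finset Γ) {ε : ℝ}
    (hε : 0 < ε) :
    ∃ η : Γ → ℝ, (∀ x, 0 ≤ η x) ∧ Summable η ∧ ∑' x, η x = 1 ∧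
      ∀ s ∈ S, ∑' x, |η (s⁻¹ * x) - η x| ≤ ε := by
  obtain ⟨δ, hδ, hδ2, hδε⟩ : ∃ δ : ℝ, 0 < δ ∧ δ ≤ 1 / 2 ∧ 16 * Real.sqrt δ ≤ ε := by
    refine ⟨min (1 / 2) ((ε / 16) ^ 2), by positivity, min_le_left _ _, ?_⟩
    have h1 : Real.sqrt (min (1 / 2) ((ε / 16) ^ 2)) ≤ ε / 16 := by
      rw [Real.sqrt_le_left (by positivity)]
      exact min_le_right _ _
    linarith
  obtain ⟨ξ, hξ1, hξ2, hξ3⟩ := exists_almost_inv h S hδ (by linarith)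
  have hpos : 0 < ‖ξ‖ ^ 2 := by
    have : 0 < ‖ξ‖ := by linarith
    positivity
  have hsum := (hasSum_sq ξ).div_const (‖ξ‖ ^ 2)
  rw [div_self hpos.ne'] at hsum
  refine ⟨fun x => ‖ξ x‖ ^ 2 / ‖ξ‖ ^ 2, fun x => by positivity, hsum.summable, hsum.tsum_eq,
    fun s hs => ?_⟩
  have h1 : ∀ x, |‖ξ (s⁻¹ * x)‖ ^ 2 / ‖ξ‖ ^ 2 - ‖ξ x‖ ^ 2 / ‖ξ‖ ^ 2| =
      |‖(lam Γ s ξ : Γ → ℂ) x‖ ^ 2 - ‖ξ x‖ ^ 2| / ‖ξ‖ ^ 2 := by
    intro x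
    rw [← sub_div, abs_div, abs_of_pos hpos, lam_apply]
  have h2 := tsum_diff_sq (lam Γ s ξ) ξ
  have h3 : ‖lam Γ s ξ - ξ‖ ≤ 2 * Real.sqrt δ := by
    have h4 : ‖lam Γ s ξ - ξ‖ ^ 2 ≤ (2 * Real.sqrt δ) ^ 2 := by
      rw [mul_pow, Real.sq_sqrt hδ.le]
      have := hξ3 s hs
      linarith
    exact le_of_sq_le_sq h4 (by positivity)
  change ∑' x, |‖ξ (s⁻¹ * x)‖ ^ 2 / ‖ξ‖ ^ 2 - ‖ξ x‖ ^ 2 / ‖ξ‖ ^ 2| ≤ ε
  rw [tsum_congr h1, tsum_div_const, div_le_iff₀ hpos]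
  refine h2.trans ?_
  rw [lam_norm]
  have h5 : 1 / 4 ≤ ‖ξ‖ ^ 2 := by nlinarith
  have h6 : 0 ≤ Real.sqrt δ := Real.sqrt_nonneg _
  calc ‖lam Γ s ξ - ξ‖ * (‖ξ‖ + ‖ξ‖) ≤ (2 * Real.sqrt δ) * 2 := by
        apply mul_le_mul h3 (by linarith) (by positivity) (by positivity)
    _ = 16 * Real.sqrt δ * (1 / 4) := by ring
    _ ≤ ε * ‖ξ‖ ^ 2 := by
        apply mul_le_mul hδε h5 (by norm_num) hε.le

end Pool.Agent.H59.MO
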