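import Pool.Agent.H59.MO.NInv
import Pool.Agent.H59.MO.WMul

/-!
[H59 MO] Rep: the unitary representation of `V ⋊ Γ` on `L²(Γ × Conf Γ)`.

PROOF. `measurable_sgn`: `sgn v y` is `1` on the measurable set `{y | v.1 y.2 = 1}` (preimage of the set
of `V` under `Prod.snd`) and `-1` off it (`Int.units_eq_one_or`), `Measurable.ite`. `op_mul`: `W_comp`,
and the two functions agree: `(γ * γ').left = γ.left * vact γ.right γ'.left`
(`SemidirectProduct.mul_left`), whose value at `ω` is `γ.left ω * γ'.left (act γ.right⁻¹ ω)`, and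
`tau γ'.right (tau γ.right y) = tau (γ.right * γ'.right) y` by `act_mul`, `mul_inv_rev`. `op_one`:
`W_one`. `op_unitary`: `op w γ` and `op w γ⁻¹` are inverse to each other and do not increase norms
(`W_norm_le`), so `op w γ` is an isometry with an inverse: it is in `unitary`
(`W_adjoint` with `tau γ.right⁻¹` also gives the adjoint directly;
or: `‖A x‖ = ‖x‖` gives `A* A = 1` (`ContinuousLinearMap.norm_map_iff_adjoint_comp_self`), and
`A* = A* A B = B` with `B = op w γ⁻¹`).
-/

open MeasureTheory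

namespace Pool.Agent.H59.MO

universe u

variable {Γ : Type u} [Group Γ] [MeasurableSpace Γ]

theorem measurable_sgn (v : V Γ) : Measurable (sgn v : Γ × Conf Γ → ℂ) := by
  classical
  have h1 : (sgn v : Γ × Conf Γ → ℂ) = fun y => if v.1 y.2 = 1 then 1 else -1 := by
    funext y
    unfold sgn
    rcases Int.units_eq_one_or (v.1 y.2) with h | h
    · simp [h]
    · rw [h]
      simp
  rw [h1]
  refine Measurable.ite ?_ measurable_const measurable_const
  have hv : MeasurableSet {ω : Conf Γ | v.1 ω = 1} := v.2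
  exact measurable_snd hv

theorem norm_sgn (v : V Γ) (y : Γ × Conf Γ) : ‖sgn v y‖ = 1 := by
  unfold sgn
  rcases Int.units_eq_one_or (v.1 y.2) with h | h
  · simp [h]
  · rw [h]
    simp

variable [Countable Γ] [MeasurableSingletonClass Γ]

theorem op_mul (w : Γ → ℝ) (γ γ' : Ext Γ) : op w (γ * γ') = op w γ ∘L op w γ' := by
  unfold op
  rw [W_comp (measurable_sgn _) (fun y => (norm_sgn _ y).le) (measurePreserving_tau w _)
    (measurable_sgn _) (fun y => (norm_sgn _ y).le) (measurePreserving_tau w _)]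
  congr 1
  · funext y
    rw [SemidirectProduct.mul_left]
    unfold sgn
    change ((((γ.left.1 y.2 * (γ'.left.1 (act γ.right⁻¹ y.2)) : ℤˣ)) : ℤ) : ℂ) = _
    push_cast
    rfl
  · funext y
    rw [SemidirectProduct.mul_right]
    simp only [tau, mul_inv_rev, act_mul, mul_assoc]

theorem op_one (w : Γ → ℝ) : op w (1 : Ext Γ) = ContinuousLinearMap.id ℂ _ := by
  unfold op
  rw [← W_one]
  congr 1
  · funext y
    simp [sgn]
  · funext y
    simp [tau, act_one]

theorem op_unitary (w : Γ → ℝ) (γ : Ext Γ) :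
    op w γ ∈ unitary (Lp ℂ 2 (nu w : Measure (Γ × Conf Γ)) →L[ℂ] Lp ℂ 2 (nu w)) := by
  have hle : ∀ (δ : Ext Γ) (ξ : Lp ℂ 2 (nu w : Measure (Γ × Conf Γ))), ‖op w δ ξ‖ ≤ ‖ξ‖ :=
    fun δ ξ => W_norm_le (measurable_sgn _) (fun y => (norm_sgn _ y).le)
      (measurePreserving_tau w _) ξ
  have h1 : ∀ ξ : Lp ℂ 2 (nu w : Measure (Γ × Conf Γ)), op w γ (op w γ⁻¹ ξ) = ξ := by
    intro ξ
    rw [← ContinuousLinearMap.comp_apply, ← op_mul, mul_inv_cancel, op_one]
    rfl
  have h2 : ∀ ξ : Lp ℂ 2 (nu w : Measure (Γ × Conf Γ)), op w γ⁻¹ (op w γ ξ) = ξ := by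
    intro ξ
    rw [← ContinuousLinearMap.comp_apply, ← op_mul, inv_mul_cancel, op_one]
    rfl
  have hiso : ∀ x, ‖op w γ x‖ = ‖x‖ := fun x => le_antisymm (hle γ x) (by
    calc ‖x‖ = ‖op w γ⁻¹ (op w γ x)‖ := by rw [h2]
      _ ≤ ‖op w γ x‖ := hle _ _)
  have h3 := (ContinuousLinearMap.norm_map_iff_adjoint_comp_self (op w γ)).1 hiso
  have h4 : ContinuousLinearMap.adjoint (op w γ) = op w γ⁻¹ := by
    apply ContinuousLinearMap.ext
    intro x
    have h5 : ContinuousLinearMap.adjoint (op w γ) (op w γ (op w γ⁻¹ x)) = op w γ⁻¹ x := by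
      have h6 := congrArg (fun T : Lp ℂ 2 (nu w : Measure (Γ × Conf Γ)) →L[ℂ] Lp ℂ 2 (nu w) =>
        T (op w γ⁻¹ x)) h3
      simpa using h6
    rwa [h1] at h5
  rw [Unitary.mem_iff]
  constructor
  · exact h3
  · rw [ContinuousLinearMap.star_eq_adjoint, h4]
    apply ContinuousLinearMap.ext
    intro x
    exact h1 x

end Pool.Agent.H59.MO
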