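import Pool.Agent.H59.MO.Fin

/-!
Definitions in which the result is stated (short bodies), and their agreement with those of
`H58/Lit/Defs.lean`.
-/

open scoped ENNReal

namespace Pool.Agent.H59.MO

open Pool.Agent.H58.Lit

universe u

/-- the algebra of bounded operators on `H` -/
abbrev Op (H : Type u) [NormedAddCommGroup H] [InnerProductSpace ℂ H] : Type u := H →L[ℂ] H

/-- the representation `π` is uniformly bounded -/
def UnifBounded {Γ H : Type u} [Group Γ] [NormedAddCommGroup H] [InnerProductSpace ℂ H]
    (π : Γ →* Op H) : Prop := ∃ C : ℝ, ∀ g, ‖π g‖ ≤ C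

/-- the operator `S T S⁻¹` -/
def conjBy {H : Type u} [NormedAddCommGroup H] [InnerProductSpace ℂ H] (S : H ≃L[ℂ] H)
    (T : Op H) : Op H := (S : H →L[ℂ] H) ∘L T ∘L (S.symm : H →L[ℂ] H)

/-- the operator `T` is unitary -/
def IsUnitary {H : Type u} [NormedAddCommGroup H] [InnerProductSpace ℂ H] [CompleteSpace H]
    (T : Op H) : Prop := T ∈ unitary (Op H)

/-- the representation `π` is similar to a unitary representation: for some bounded invertible `S`
all operators `S π(g) S⁻¹` are unitary -/
def SimilarToUnitary {Γ H : Type u} [Group Γ] [NormedAddCommGroup H] [InnerProductSpace ℂ H]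
    [CompleteSpace H] (π : Γ →* Op H) : Prop :=
  ∃ S : H ≃L[ℂ] H, ∀ g : Γ, IsUnitary (conjBy S (π g))

/-- `Γ` is unitarisable: every uniformly bounded representation of `Γ` on a Hilbert space is
similar to a unitary one -/
def IsUnitarisable (Γ : Type u) [Group Γ] : Prop :=
  ∀ (H : Type u) [NormedAddCommGroup H] [InnerProductSpace ℂ H] [CompleteSpace H]
    (π : Γ →* Op H), UnifBounded π → SimilarToUnitary π

theorem isUnitarisable_iff (Γ : Type u) [Group Γ] : IsUnitarisable Γ ↔ Unitarisable Γ := Iff.rfl

/-- a positive answer to the question: all groups of Littlewood exponent at most two are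
unitarisable -/
def Q1 : Prop := ∀ (G : Type u) [Group G], Lit G ≤ 2 → IsUnitarisable G

/-- `G` is a split extension of `Q` whose kernel has exponent two -/
def SplitExpTwo (G Q : Type u) [Group G] [Group Q] : Prop :=
  ∃ (p : G →* Q) (s : Q →* G), (∀ x, p (s x) = x) ∧ ∀ v, p v = 1 → v * v = 1

theorem splitExpTwo_ext (Γ : Type u) [Group Γ] : SplitExpTwo (Ext Γ) Γ := by
  refine ⟨SemidirectProduct.rightHom, SemidirectProduct.inr,
    fun x => SemidirectProduct.rightHom_inr x, fun x hr => ?_⟩
  have hr' : x.right = 1 := hr
  apply SemidirectProduct.ext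
  · rw [SemidirectProduct.mul_left, hr', map_one, SemidirectProduct.one_left]
    apply Subtype.ext
    funext ω
    change x.left.1 ω * x.left.1 ω = 1
    exact Int.units_mul_self _
  · rw [SemidirectProduct.mul_right, hr', one_mul, SemidirectProduct.one_right]

end Pool.Agent.H59.MO
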