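import Pool.Agent.H59.MO.NInv

/-!
[H59 MO] Vec: the unit vectors `1_{ {x} × Conf Γ }`, and sections of functions in `L²(Γ × Conf Γ)`.

PROOF. `nu_slice`: `nu w ({x} ×ˢ B) = Pm w B` (`Measure.prod_prod`, `Measure.count_singleton`), so the
indicator of `{x} × Conf Γ` is in `L²` with norm one (`memLp_indicator_const`, `eLpNorm_indicator_const`)
and `dif_pos`. `ae_slice`: a property which holds `nu w`-a.e. holds for every `x` for `Pm w`-a.e. `ω` at
`(x, ω)`: `Measure.ae_ae_of_ae_prod` gives it for `count`-a.e. `x`, and `ae_count` (or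
`Measure.count_apply`, `Filter.Eventually` for `count`: `ae_count_iff`..) turns a.e. into all; or
restrict the null set to the slice and use `nu_slice`. `norm_sq_eq`: `‖ξ‖² = ∫⁻ ‖ξ‖² d nu`, then
`lintegral_prod` and `lintegral_count`.
-/

open MeasureTheory
open scoped ENNReal

namespace Pool.Agent.H59.MO

universe u

variable {Γ : Type u} [Group Γ] [Countable Γ] [MeasurableSpace Γ] [MeasurableSingletonClass Γ]

open Classical in
/-- the indicator function of `{x} × Conf Γ` as a vector of `L²` -/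
noncomputable def vec (w : Γ → ℝ) (x : Γ) : Lp ℂ 2 (nu w : Measure (Γ × Conf Γ)) :=
  if h : MemLp (fun y : Γ × Conf Γ => if y.1 = x then (1 : ℂ) else 0) 2 (nu w)
  then h.toLp _ else 0

theorem nu_slice (w : Γ → ℝ) (x : Γ) {B : Set (Conf Γ)} (hB : MeasurableSet B) :
    (nu w : Measure (Γ × Conf Γ)) ({x} ×ˢ B) = Pm w B := by
  unfold nu
  rw [Measure.prod_prod, Measure.count_singleton, one_mul]

theorem ae_slice (w : Γ → ℝ) {p : Γ × Conf Γ → Prop} (h : ∀ᵐ y ∂(nu w), p y) (x : Γ) :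
    ∀ᵐ ω ∂(Pm w), p (x, ω) := by
  exact Measure.ae_count_iff.1 (Measure.ae_ae_of_ae_prod h) x

open Classical in
theorem vec_fun_eq (x : Γ) : (fun y : Γ × Conf Γ => if y.1 = x then (1 : ℂ) else 0) =
    (({x} : Set Γ) ×ˢ (Set.univ : Set (Conf Γ))).indicator (fun _ => (1 : ℂ)) := by
  funext y
  simp only [Set.indicator, Set.mem_prod, Set.mem_singleton_iff, Set.mem_univ, and_true]

open Classical in
theorem memLp_vec (w : Γ → ℝ) (x : Γ) :
    MemLp (fun y : Γ × Conf Γ => if y.1 = x then (1 : ℂ) else 0) 2 (nu w) := by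
  rw [vec_fun_eq]
  refine memLp_indicator_const 2 ((measurableSet_singleton x).prod MeasurableSet.univ) 1
    (Or.inr ?_)
  rw [nu_slice w x MeasurableSet.univ]
  exact measure_ne_top _ _

open Classical in
theorem vec_spec (w : Γ → ℝ) (x : Γ) :
    vec w x =ᵐ[nu w] fun y => if y.1 = x then (1 : ℂ) else 0 := by
  unfold vec
  rw [dif_pos (memLp_vec w x)]
  exact (memLp_vec w x).coeFn_toLp

theorem norm_vec (w : Γ → ℝ) (x : Γ) : ‖vec w x‖ = 1 := by
  unfold vec
  rw [dif_pos (memLp_vec w x), Lp.norm_toLp, vec_fun_eq, eLpNorm_indicator_const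
    ((measurableSet_singleton x).prod MeasurableSet.univ) (by norm_num) (by norm_num),
    nu_slice w x MeasurableSet.univ]
  simp

theorem norm_sq_eq (w : Γ → ℝ) (ξ : Lp ℂ 2 (nu w : Measure (Γ × Conf Γ))) :
    ENNReal.ofReal (‖ξ‖ ^ 2) = ∑' x : Γ, ∫⁻ ω, ENNReal.ofReal (‖ξ (x, ω)‖ ^ 2) ∂(Pm w) := by
  have h1 : ENNReal.ofReal (‖ξ‖ ^ 2) = ∫⁻ y, ENNReal.ofReal (‖ξ y‖ ^ 2) ∂(nu w) := by
    rw [ENNReal.ofReal_pow (norm_nonneg _), Lp.norm_def, ENNReal.ofReal_toReal (Lp.eLpNorm_ne_top ξ),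
      eLpNorm_eq_lintegral_rpow_enorm_toReal (by norm_num) (by norm_num)]
    rw [← ENNReal.rpow_natCast, ← ENNReal.rpow_mul]
    simp only [ENNReal.toReal_ofNat, Nat.cast_ofNat, one_div, ne_eq, OfNat.ofNat_ne_zero,
      not_false_eq_true, inv_mul_cancel₀, ENNReal.rpow_one]
    refine lintegral_congr fun y => ?_
    rw [ENNReal.ofReal_pow (norm_nonneg _), ofReal_norm]
    norm_cast
  rw [h1]
  unfold nu
  rw [lintegral_prod _ (by
    have h3 : Measurable (ξ : Γ × Conf Γ → ℂ) := (Lp.stronglyMeasurable ξ).measurable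
    exact (ENNReal.measurable_ofReal.comp ((h3.norm).pow_const 2)).aemeasurable), lintegral_count]

end Pool.Agent.H59.MO
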