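import Pool.Agent.H59.MO.Rep
import Pool.Agent.H59.MO.Vec

/-!
[H59 MO] TrA: matrix coefficients of an operator commuting with `V ⋊ Γ`.

PROOF. Write `U_x := op w (SemidirectProduct.inr x)` and for a measurable `B ⊆ Conf Γ` let
`v_B ∈ V Γ` be `-1` on `B` and `1` off `B`; `M_B := op w (SemidirectProduct.inl v_B)` is multiplication
by `1 - 2 * 1_B`, so `1_B ξ = (ξ - M_B ξ) / 2`. `K` and (take adjoints, the `op`s are unitary with
`(op w γ)* = op w γ⁻¹`) `K*` commute with `U_x` and `M_B`. `U_x (vec w 1) = vec w x` (`W_spec`,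
`vec_spec`: `(U_x ξ) (x', ω) = ξ (x⁻¹ x', act x⁻¹ ω)`). Put `h := K (vec w 1)`, `h' := K* (vec w 1)`. For
measurable `B`, with `1_B` the multiplication operator `(1 - M_B) / 2` (self-adjoint):
`∫_B h (x, ω) dPm = ⟪1_B vec w x, K vec w 1⟫ = ⟪K* 1_B U_x vec w 1, vec w 1⟫
 = ⟪1_B U_x K* vec w 1, vec w 1⟫ = ⟪1_B U_x h', vec w 1⟫ = ∫_B conj ((U_x h') (1, ω)) dPm
 = ∫_B conj (h' (x⁻¹, act x⁻¹ ω)) dPm`.
Both functions of `ω` are integrable (square integrable on a probability space), so they agree a.e.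
(`Integrable.ae_eq_of_forall_setIntegral_eq`). Slices: `ae_slice`, `norm_sq_eq` (finiteness).
-/

open MeasureTheory

namespace Pool.Agent.H59.MO

universe u

variable {Γ : Type u} [Group Γ] [Countable Γ] [MeasurableSpace Γ] [MeasurableSingletonClass Γ]

theorem op_adjoint (w : Γ → ℝ) (γ : Ext Γ) :
    ContinuousLinearMap.adjoint (op w γ) = op w γ⁻¹ := by
  have h1 := (Unitary.mem_iff.1 (op_unitary w γ)).1
  have h2 : op w γ * op w γ⁻¹ = 1 := by
    rw [ContinuousLinearMap.mul_def, ← op_mul, mul_inv_cancel, op_one]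
    rfl
  calc ContinuousLinearMap.adjoint (op w γ) = star (op w γ) * (op w γ * op w γ⁻¹) := by
        rw [h2, mul_one]; rfl
    _ = op w γ⁻¹ := by rw [← mul_assoc, h1, one_mul]

theorem adjoint_commutes (w : Γ → ℝ)
    {K : Lp ℂ 2 (nu w : Measure (Γ × Conf Γ)) →L[ℂ] Lp ℂ 2 (nu w : Measure (Γ × Conf Γ))}
    (hK : ∀ γ : Ext Γ, K ∘L op w γ = op w γ ∘L K) (γ : Ext Γ) :
    ContinuousLinearMap.adjoint K ∘L op w γ = op w γ ∘L ContinuousLinearMap.adjoint K := by
  have h1 := congrArg ContinuousLinearMap.adjoint (hK γ⁻¹)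
  rw [ContinuousLinearMap.adjoint_comp, ContinuousLinearMap.adjoint_comp, op_adjoint,
    inv_inv] at h1
  exact h1.symm

theorem op_inr_vec (w : Γ → ℝ) (x : Γ) :
    op w (SemidirectProduct.inr x : Ext Γ) (vec w 1) = vec w x := by
  classical
  apply Lp.ext
  have h1 := W_spec (measurable_sgn (SemidirectProduct.inr x : Ext Γ).left)
    (fun y => (norm_sgn _ y).le) (measurePreserving_tau w (SemidirectProduct.inr x : Ext Γ).right)
    (vec w 1)
  have h2 := (measurePreserving_tau w (SemidirectProduct.inr x : Ext Γ).right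
    ).quasiMeasurePreserving.ae_eq_comp (vec_spec w 1)
  filter_upwards [h1, h2, vec_spec w x] with y h3 h4 h5
  unfold op
  rw [h3, h5]
  simp only [Function.comp_apply] at h4
  rw [h4]
  simp only [SemidirectProduct.left_inr, SemidirectProduct.right_inr, tau, inv_mul_eq_one]
  have h6 : sgn (1 : V Γ) y = 1 := by simp [sgn]
  rw [h6, one_mul]
  by_cases h : y.1 = x
  · rw [if_pos h.symm, if_pos h]
  · rw [if_neg (fun h' => h h'.symm), if_neg h]

open Classical in
/-- the element of `V` which is `-1` on `B` -/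
noncomputable def vB {B : Set (Conf Γ)} (hB : MeasurableSet B) : V Γ :=
  ⟨fun ω => if ω ∈ B then -1 else 1, by
    have : {ω : Conf Γ | (if ω ∈ B then (-1 : ℤˣ) else 1) = 1} = Bᶜ := by
      ext ω
      by_cases h : ω ∈ B
      · simp [h]
      · simp [h]
    change MeasurableSet {ω : Conf Γ | (if ω ∈ B then (-1 : ℤˣ) else 1) = 1}
    rw [this]
    exact hB.compl⟩

/-- multiplication by the indicator function of `B` -/
noncomputable def mB (w : Γ → ℝ) {B : Set (Conf Γ)} (hB : MeasurableSet B) :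
    Lp ℂ 2 (nu w : Measure (Γ × Conf Γ)) →L[ℂ] Lp ℂ 2 (nu w : Measure (Γ × Conf Γ)) :=
  (1 / 2 : ℂ) • (ContinuousLinearMap.id ℂ _ - op w (SemidirectProduct.inl (vB hB) : Ext Γ))

open Classical in
theorem mB_spec (w : Γ → ℝ) {B : Set (Conf Γ)} (hB : MeasurableSet B)
    (ξ : Lp ℂ 2 (nu w : Measure (Γ × Conf Γ))) :
    mB w hB ξ =ᵐ[nu w] fun y => if y.2 ∈ B then ξ y else 0 := by
  have h1 := W_spec (measurable_sgn (SemidirectProduct.inl (vB hB) : Ext Γ).left)
    (fun y => (norm_sgn _ y).le)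
    (measurePreserving_tau w (SemidirectProduct.inl (vB hB) : Ext Γ).right) ξ
  have h2 : mB w hB ξ = (1 / 2 : ℂ) • (ξ - op w (SemidirectProduct.inl (vB hB) : Ext Γ) ξ) := rfl
  rw [h2]
  filter_upwards [Lp.coeFn_smul (1 / 2 : ℂ) (ξ - op w (SemidirectProduct.inl (vB hB) : Ext Γ) ξ),
    Lp.coeFn_sub ξ (op w (SemidirectProduct.inl (vB hB) : Ext Γ) ξ), h1] with y h3 h4 h5
  rw [h3, Pi.smul_apply, h4, Pi.sub_apply]
  unfold op
  rw [h5]
  have h6 : tau (SemidirectProduct.inl (vB hB) : Ext Γ).right y = y := by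
    simp [tau, act_one]
  rw [h6]
  have h7 : sgn (SemidirectProduct.inl (vB hB) : Ext Γ).left y = if y.2 ∈ B then -1 else 1 := by
    simp only [SemidirectProduct.left_inl, sgn, vB]
    split_ifs <;> simp
  rw [h7]
  split_ifs
  · simp only [smul_eq_mul]; ring
  · simp

theorem mB_adjoint (w : Γ → ℝ) {B : Set (Conf Γ)} (hB : MeasurableSet B) :
    ContinuousLinearMap.adjoint (mB w hB) = mB w hB := by
  have h1 : (SemidirectProduct.inl (vB hB) : Ext Γ)⁻¹ = SemidirectProduct.inl (vB hB) := by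
    rw [← map_inv]
    congr 1
    apply Subtype.ext
    funext ω
    change ((vB hB).1 ω)⁻¹ = (vB hB).1 ω
    exact Int.units_inv_eq_self _
  unfold mB
  rw [map_smulₛₗ, map_sub, op_adjoint, h1]
  have h2 : ContinuousLinearMap.adjoint (ContinuousLinearMap.id ℂ
      (Lp ℂ 2 (nu w : Measure (Γ × Conf Γ)))) = ContinuousLinearMap.id ℂ _ := by
    rw [ContinuousLinearMap.adjoint_id]
  rw [h2]
  congr 1
  rw [map_div₀, map_one, map_ofNat]

theorem mB_commutes (w : Γ → ℝ) {B : Set (Conf Γ)} (hB : MeasurableSet B)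
    {K : Lp ℂ 2 (nu w : Measure (Γ × Conf Γ)) →L[ℂ] Lp ℂ 2 (nu w : Measure (Γ × Conf Γ))}
    (hK : ∀ γ : Ext Γ, K ∘L op w γ = op w γ ∘L K)
    (ξ : Lp ℂ 2 (nu w : Measure (Γ × Conf Γ))) : K (mB w hB ξ) = mB w hB (K ξ) := by
  have h1 : ∀ ζ, mB w hB ζ = (1 / 2 : ℂ) • (ζ - op w (SemidirectProduct.inl (vB hB) : Ext Γ) ζ) :=
    fun ζ => rfl
  rw [h1, h1, map_smul, map_sub]
  congr 2
  exact congrArg (fun T : Lp ℂ 2 (nu w : Measure (Γ × Conf Γ)) →L[ℂ]
    Lp ℂ 2 (nu w : Measure (Γ × Conf Γ)) => T ξ) (hK _)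

theorem memLp_slice (w : Γ → ℝ) (ζ : Lp ℂ 2 (nu w : Measure (Γ × Conf Γ))) (x : Γ) :
    MemLp (fun ω => ζ (x, ω)) 2 (Pm w) := by
  have h3 : Measurable (ζ : Γ × Conf Γ → ℂ) := (Lp.stronglyMeasurable ζ).measurable
  refine ⟨(h3.comp measurable_prodMk_left).aestronglyMeasurable, ?_⟩
  rw [eLpNorm_lt_top_iff_lintegral_rpow_enorm_lt_top (by norm_num) (by norm_num)]
  have h1 := norm_sq_eq w ζ
  have h2 : ∫⁻ ω, ENNReal.ofReal (‖ζ (x, ω)‖ ^ 2) ∂(Pm w) ≤ ENNReal.ofReal (‖ζ‖ ^ 2) := by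
    rw [h1]
    exact ENNReal.le_tsum (f := fun x => ∫⁻ ω, ENNReal.ofReal (‖ζ (x, ω)‖ ^ 2) ∂(Pm w)) x
  refine lt_of_le_of_lt (le_trans (le_of_eq ?_) h2) ENNReal.ofReal_lt_top
  refine lintegral_congr fun ω => ?_
  rw [ENNReal.ofReal_pow (norm_nonneg _), ofReal_norm]
  simp only [ENNReal.toReal_ofNat]
  norm_cast

theorem inner_slice (w : Γ → ℝ) {B : Set (Conf Γ)} (hB : MeasurableSet B) (x : Γ)
    (h : Lp ℂ 2 (nu w : Measure (Γ × Conf Γ))) :
    inner ℂ (mB w hB (vec w x)) h = ∫ ω in B, h (x, ω) ∂(Pm w) := by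
  classical
  rw [L2.inner_def]
  have h1 : (fun y => inner ℂ (mB w hB (vec w x) y) (h y)) =ᵐ[nu w]
      (({x} : Set Γ) ×ˢ B).indicator h := by
    filter_upwards [mB_spec w hB (vec w x), vec_spec w x] with y h2 h3
    rw [h2]
    by_cases hy : y.2 ∈ B
    · rw [if_pos hy, h3]
      by_cases hx : y.1 = x
      · rw [if_pos hx, Set.indicator_of_mem (by exact ⟨hx, hy⟩)]
        simp
      · rw [if_neg hx, Set.indicator_of_notMem (by exact fun h' => hx h'.1)]
        simp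
    · rw [if_neg hy, Set.indicator_of_notMem (by exact fun h' => hy h'.2)]
      simp
  rw [integral_congr_ae h1, integral_indicator ((measurableSet_singleton x).prod hB)]
  have hfin : (nu w : Measure (Γ × Conf Γ)) ({x} ×ˢ B) ≠ ⊤ := by
    rw [nu_slice w x hB]
    exact measure_ne_top _ _
  have hint : IntegrableOn (h : Γ × Conf Γ → ℂ) ({x} ×ˢ B)
      ((Measure.count : Measure Γ).prod (Pm w)) := by
    have hm : MemLp (h : Γ × Conf Γ → ℂ) 2 ((nu w).restrict ({x} ×ˢ B)) := (Lp.memLp h).restrict _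
    haveI : IsFiniteMeasure ((nu w : Measure (Γ × Conf Γ)).restrict ({x} ×ˢ B)) :=
      ⟨by rw [Measure.restrict_apply_univ]; exact hfin.lt_top⟩
    exact hm.integrable (by norm_num)
  have h4 := setIntegral_prod (μ := (Measure.count : Measure Γ)) (ν := Pm w)
    (h : Γ × Conf Γ → ℂ) hint
  refine h4.trans ?_
  rw [integral_singleton]
  simp [Measure.real]

theorem coeff_adjoint (w : Γ → ℝ)
    (K : Lp ℂ 2 (nu w : Measure (Γ × Conf Γ)) →L[ℂ] Lp ℂ 2 (nu w : Measure (Γ × Conf Γ)))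
    (hK : ∀ γ : Ext Γ, K ∘L op w γ = op w γ ∘L K) (x : Γ) :
    ∀ᵐ ω ∂(Pm w), K (vec w 1) (x, ω) =
      (starRingEnd ℂ) (ContinuousLinearMap.adjoint K (vec w 1) (x⁻¹, act x⁻¹ ω)) := by
  classical
  set h' := ContinuousLinearMap.adjoint K (vec w 1) with hh'
  set u : Ext Γ := SemidirectProduct.inr x with hu
  have hKs := adjoint_commutes w hK
  have hcomm : ContinuousLinearMap.adjoint K (vec w x) = op w u h' := by
    rw [← op_inr_vec w x]
    exact congrArg (fun T : Lp ℂ 2 (nu w : Measure (Γ × Conf Γ)) →L[ℂ]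
      Lp ℂ 2 (nu w : Measure (Γ × Conf Γ)) => T (vec w 1)) (hKs u)
  have hslice : ∀ᵐ ω ∂(Pm w), (op w u h') (1, ω) = h' (x⁻¹, act x⁻¹ ω) := by
    have h1 := W_spec (measurable_sgn u.left) (fun y => (norm_sgn _ y).le)
      (measurePreserving_tau w u.right) h'
    filter_upwards [ae_slice w h1 1] with ω hω
    unfold op
    rw [hω]
    simp [hu, sgn, tau]
  have key : (fun ω => K (vec w 1) (x, ω)) =ᵐ[Pm w]
      fun ω => (starRingEnd ℂ) ((op w u h') (1, ω)) := by
    refine Integrable.ae_eq_of_forall_setIntegral_eq _ _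
      ((memLp_slice w (K (vec w 1)) x).integrable (by norm_num)) ?_ ?_
    · have h2 := (memLp_slice w (op w u h') 1).integrable (by norm_num)
      exact (Complex.conjLIE.toContinuousLinearEquiv.toContinuousLinearMap.integrable_comp h2)
    · intro B hB _
      rw [← inner_slice w hB x (K (vec w 1)), integral_conj, ← inner_slice w hB 1 (op w u h'),
        inner_conj_symm, ← ContinuousLinearMap.adjoint_inner_left, mB_commutes w hB hKs, hcomm]
      rw [← ContinuousLinearMap.adjoint_inner_right, mB_adjoint]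
  filter_upwards [key, hslice] with ω h1 h2
  rw [h1, h2]

end Pool.Agent.H59.MO
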