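import Pool.Agent.H59.MO.MeanLim

/-!
[H59 MO] VAmen: groups of exponent two are amenable.

PROOF. Let `N` be a group with `x * x = 1` for all `x`; it is commutative. The finite subgroups of `N` are
directed: the subgroup generated by a finite set is finite (induction: adding `a` to a finite subgroup `A`
gives `A ∪ a A`). For a finite subset `S` of `N` let `A S := Subgroup.closure S`, finite, and
`m S f := (∑ x ∈ A S, f x) / |A S|`. Let `U` be an ultrafilter on `Finset N` finer than `atTop`. For
bounded `f` the averages lie in `[-C, C]`, so they converge along `U`; `m f := limUnder U (fun S => m S f)`.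
Additivity, homogeneity, positivity, normalisation pass to the limit. Invariance under `g`: for `S ∋ g`
the average of `x ↦ f (g * x)` over `A S` equals that of `f` (`g ∈ A S`), eventually along `atTop`.
-/

open Filter Topology

namespace Pool.Agent.H59.MO

open Pool.Agent.H58.Lit

universe u

theorem amenable_of_sq_eq_one {N : Type u} [Group N] (h : ∀ x : N, x * x = 1) : Amenable N := by
  classical
  have hcomm : ∀ x y : N, x * y = y * x := by
    intro x y
    have h1 := h (x * y)
    have h2 : x⁻¹ = x := inv_eq_of_mul_eq_one_right (h x)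
    have h3 : y⁻¹ = y := inv_eq_of_mul_eq_one_right (h y)
    have h4 : (x * y)⁻¹ = x * y := inv_eq_of_mul_eq_one_right h1
    rw [mul_inv_rev, h2, h3] at h4
    exact h4.symm
  letI : CommGroup N := { (inferInstance : Group N) with mul_comm := hcomm }
  let P : Finset N → Finset N := fun S => S.powerset.image (fun A => ∏ x ∈ A, x)
  have hP1 : ∀ S, (1 : N) ∈ P S := fun S => Finset.mem_image.2 ⟨∅, by simp, by simp⟩
  have hPc : ∀ S, (0 : ℝ) < (P S).card := fun S => by
    exact_mod_cast Finset.card_pos.2 ⟨1, hP1 S⟩
  have hPg : ∀ (S : Finset N) (g : N), g ∈ S → ∀ x ∈ P S, g * x ∈ P S := by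
    intro S g hg x hx
    obtain ⟨A, hA, rfl⟩ := Finset.mem_image.1 hx
    rw [Finset.mem_powerset] at hA
    by_cases hgA : g ∈ A
    · refine Finset.mem_image.2 ⟨A.erase g, Finset.mem_powerset.2
        ((Finset.erase_subset _ _).trans hA), ?_⟩
      rw [← Finset.mul_prod_erase A (fun x => x) hgA, ← mul_assoc, h, one_mul]
    · refine Finset.mem_image.2 ⟨insert g A, Finset.mem_powerset.2
        (Finset.insert_subset hg hA), ?_⟩
      rw [Finset.prod_insert hgA]
  have hsum : ∀ (S : Finset N) (g : N), g ∈ S → ∀ f : N → ℝ,
      ∑ x ∈ P S, f (g * x) = ∑ x ∈ P S, f x := by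
    intro S g hg f
    refine Finset.sum_bij (fun x _ => g * x) (hPg S g hg) (fun a _ b _ hab => mul_left_cancel hab)
      (fun b hb => ⟨g * b, hPg S g hg b hb, ?_⟩) (fun _ _ => rfl)
    rw [← mul_assoc, h, one_mul]
  refine amenable_of_net (Ultrafilter.of (atTop : Filter (Finset N)))
    (fun S f => (∑ x ∈ P S, f x) / (P S).card) ?_ ?_ ?_ ?_ ?_
  · intro S f g _ _
    simp only [Pi.add_apply, Finset.sum_add_distrib, add_div]
  · intro S c f _
    simp only [Pi.smul_apply, smul_eq_mul, ← Finset.mul_sum, mul_div_assoc]
  · intro S f _ h0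
    exact div_nonneg (Finset.sum_nonneg fun x _ => h0 x) (hPc S).le
  · intro S
    simp only [Finset.sum_const, nsmul_eq_mul, mul_one]
    exact div_self (hPc S).ne'
  · intro g f _
    have h1 : ∀ᶠ S in (atTop : Filter (Finset N)), ({g} : Finset N) ≤ S :=
      eventually_ge_atTop _
    have h2 := Ultrafilter.of_le (atTop : Filter (Finset N)) h1
    refine Tendsto.congr' ?_ tendsto_const_nhds
    filter_upwards [h2] with S hS
    rw [hsum S g (hS (Finset.mem_singleton_self g)) f, sub_self]

end Pool.Agent.H59.MO
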