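import Pool.Agent.H59.MO.Defs

/-!
[H59 MO] WEx: existence and norm of weighted composition operators.

PROOF. For `ξ : Lp ℂ 2 ν` the function `ξ ∘ τ` is in `L²` with the same norm
(`Lp.compMeasurePreserving`, there is the linear isometry `Lp.compMeasurePreservingₗᵢ`; or
`MemLp.comp_measurePreserving`), and multiplication by the measurable function `a` with `‖a‖ ≤ 1` keeps
`MemLp` (`MemLp.of_le` / `MemLp.bdd_mul`) and does not increase the norm
(`eLpNorm_mono` / `Lp.norm_le_norm_of_ae_le`). Build `T` with `LinearMap.mkContinuous` (additivity and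
homogeneity: a.e. identities; for the composition use `hτ.quasiMeasurePreserving.ae_eq_comp` with
`Lp.coeFn_add ξ η`). This proves the existential in the definition of `W`; then `dif_pos` and
`Exists.choose_spec`. Norm: `Lp.norm_le_norm_of_ae_le` against `Lp.compMeasurePreserving τ hτ ξ`,
`Lp.norm_compMeasurePreserving`.
-/

open MeasureTheory
open scoped ENNReal

namespace Pool.Agent.H59.MO

universe u

theorem memLp_W {Y : Type u} [MeasurableSpace Y] {ν : Measure Y} {a : Y → ℂ} {τ : Y → Y}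
    (ha : Measurable a) (h1 : ∀ y, ‖a y‖ ≤ 1) (hτ : MeasurePreserving τ ν ν)
    (ξ : Lp ℂ 2 ν) : MemLp (fun y => a y * ξ (τ y)) 2 ν := by
  have h2 : MemLp (fun y => ξ (τ y)) 2 ν := (Lp.memLp ξ).comp_measurePreserving hτ
  refine h2.of_le (ha.aestronglyMeasurable.mul h2.1) (Filter.Eventually.of_forall fun y => ?_)
  rw [norm_mul]
  exact mul_le_of_le_one_left (norm_nonneg _) (h1 y)

theorem W_exists {Y : Type u} [MeasurableSpace Y] {ν : Measure Y} {a : Y → ℂ} {τ : Y → Y}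
    (ha : Measurable a) (h1 : ∀ y, ‖a y‖ ≤ 1) (hτ : MeasurePreserving τ ν ν) :
    ∃ T : Lp ℂ 2 ν →L[ℂ] Lp ℂ 2 ν, ∀ ξ : Lp ℂ 2 ν, T ξ =ᵐ[ν] fun y => a y * ξ (τ y) := by
  refine ⟨LinearMap.mkContinuous
    { toFun := fun ξ => (memLp_W ha h1 hτ ξ).toLp _
      map_add' := fun ξ η => ?_
      map_smul' := fun c ξ => ?_ } 1 fun ξ => ?_, fun ξ => ?_⟩
  · apply Lp.ext
    have h3 := hτ.quasiMeasurePreserving.ae_eq_comp (Lp.coeFn_add ξ η)
    filter_upwards [(memLp_W ha h1 hτ (ξ + η)).coeFn_toLp,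
      Lp.coeFn_add ((memLp_W ha h1 hτ ξ).toLp _) ((memLp_W ha h1 hτ η).toLp _),
      (memLp_W ha h1 hτ ξ).coeFn_toLp, (memLp_W ha h1 hτ η).coeFn_toLp, h3] with y h4 h5 h6 h7 h8
    rw [h4, h5, Pi.add_apply, h6, h7]
    simp only [Function.comp_apply, Pi.add_apply] at h8
    rw [h8]
    ring
  · apply Lp.ext
    have h3 := hτ.quasiMeasurePreserving.ae_eq_comp (Lp.coeFn_smul c ξ)
    filter_upwards [(memLp_W ha h1 hτ (c • ξ)).coeFn_toLp,
      Lp.coeFn_smul c ((memLp_W ha h1 hτ ξ).toLp _),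
      (memLp_W ha h1 hτ ξ).coeFn_toLp, h3] with y h4 h5 h6 h8
    simp only [RingHom.id_apply]
    rw [h4, h5, Pi.smul_apply, h6]
    simp only [Function.comp_apply, Pi.smul_apply, smul_eq_mul] at h8 ⊢
    rw [h8]
    ring
  · rw [one_mul]
    have h2 : ‖(memLp_W ha h1 hτ ξ).toLp _‖ ≤ ‖Lp.compMeasurePreserving τ hτ ξ‖ := by
      apply Lp.norm_le_norm_of_ae_le
      filter_upwards [(memLp_W ha h1 hτ ξ).coeFn_toLp, Lp.coeFn_compMeasurePreserving ξ hτ]
        with y h3 h4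
      rw [h3, h4, norm_mul]
      exact mul_le_of_le_one_left (norm_nonneg _) (h1 y)
    rwa [Lp.norm_compMeasurePreserving] at h2
  · exact (memLp_W ha h1 hτ ξ).coeFn_toLp

theorem W_spec {Y : Type u} [MeasurableSpace Y] {ν : Measure Y} {a : Y → ℂ} {τ : Y → Y}
    (ha : Measurable a) (h1 : ∀ y, ‖a y‖ ≤ 1) (hτ : MeasurePreserving τ ν ν)
    (ξ : Lp ℂ 2 ν) : W ν a τ ξ =ᵐ[ν] fun y => a y * ξ (τ y) := by
  have h := W_exists ha h1 hτ
  unfold W
  rw [dif_pos h]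
  exact h.choose_spec ξ

theorem W_norm_le {Y : Type u} [MeasurableSpace Y] {ν : Measure Y} {a : Y → ℂ} {τ : Y → Y}
    (ha : Measurable a) (h1 : ∀ y, ‖a y‖ ≤ 1) (hτ : MeasurePreserving τ ν ν)
    (ξ : Lp ℂ 2 ν) : ‖W ν a τ ξ‖ ≤ ‖ξ‖ := by
  have h2 : ‖W ν a τ ξ‖ ≤ ‖Lp.compMeasurePreserving τ hτ ξ‖ := by
    apply Lp.norm_le_norm_of_ae_le
    filter_upwards [W_spec ha h1 hτ ξ, Lp.coeFn_compMeasurePreserving ξ hτ] with y h3 h4
    rw [h3, h4, norm_mul]
    exact mul_le_of_le_one_left (norm_nonneg _) (h1 y)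
  rwa [Lp.norm_compMeasurePreserving] at h2

end Pool.Agent.H59.MO
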