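import Pool.Agent.H59.MO.Defs

/-!
[H59 MO] Walk: an edge which is not a bridge lies on an open cycle.

PROOF. `Gm S ω 1 s` connects `1` and `s`; let `p` be a path from `s` to `1` in `Gm S ω 1 s`
(`Reachable.exists_isPath` or `SimpleGraph.Walk.toPath`). For a walk `p : u ⟶ v` define its increments
`incs p : List Γ` by recursion (`nil ↦ []`, `cons (h : Adj u x) p ↦ (u⁻¹ * x) :: incs p`). By induction
`edgesFrom u (incs p) = p.edges`, `(incs p).prod = u⁻¹ * v`, `(incs p).length = p.length`. Put
`l := s :: incs p`: `edgesFrom 1 l = s(1, 1 * s) :: p.edges`; `p.edges` has no duplicates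
(`IsPath.isTrail.edges_nodup`), all its elements are edges of `Gm S ω 1 s`, hence open and different from
`s(1, s)`. `l.prod = s * (s⁻¹ * 1) = 1`. `p.length ≥ 2`: `s ≠ 1` excludes length zero, and length one
would make `s(s, 1)` an edge of `Gm S ω 1 s`.
-/

namespace Pool.Agent.H59.MO

universe u

/-- the increments of a walk -/
def incs {Γ : Type u} [Group Γ] {G : SimpleGraph Γ} : {u v : Γ} → G.Walk u v → List Γ
  | _, _, SimpleGraph.Walk.nil => []
  | u, _, @SimpleGraph.Walk.cons _ _ _ x _ _ p => (u⁻¹ * x) :: incs p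

theorem prod_incs {Γ : Type u} [Group Γ] {G : SimpleGraph Γ} {u v : Γ} (p : G.Walk u v) :
    (incs p).prod = u⁻¹ * v := by
  induction p with
  | nil => simp [incs]
  | cons h p ih => rw [incs, List.prod_cons, ih]; group

theorem length_incs {Γ : Type u} [Group Γ] {G : SimpleGraph Γ} {u v : Γ} (p : G.Walk u v) :
    (incs p).length = p.length := by
  induction p with
  | nil => simp [incs]
  | cons h p ih => rw [incs, List.length_cons, ih, SimpleGraph.Walk.length_cons]

theorem edgesFrom_incs {Γ : Type u} [Group Γ] {G : SimpleGraph Γ} {u v : Γ} (p : G.Walk u v) :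
    edgesFrom u (incs p) = p.edges := by
  induction p with
  | nil => simp [incs, edgesFrom]
  | cons h p ih =>
    rw [incs, edgesFrom, SimpleGraph.Walk.edges_cons, mul_inv_cancel_left, ih]

theorem exists_open_cycle {Γ : Type u} [Group Γ] {S : Finset Γ} {ω : Conf Γ} {s : Γ}
    (h : (Gr S ω).Adj 1 s) (hb : ¬ Br S ω 1 s) :
    ∃ l : List Γ, l.head? = some s ∧ l.prod = 1 ∧ 3 ≤ l.length ∧ Open l ω := by
  have hreach : (Gm S ω 1 s).Reachable 1 s := by
    by_contra hn
    exact hb ⟨h, hn⟩
  classical
  obtain ⟨q⟩ := hreach.symm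
  let p := q.toPath
  have hp : (p : (Gm S ω 1 s).Walk s 1).IsPath := p.2
  set pw : (Gm S ω 1 s).Walk s 1 := (p : (Gm S ω 1 s).Walk s 1) with hpw
  have hs1 : s ≠ 1 := h.ne'
  refine ⟨s :: incs pw, rfl, ?_, ?_, ?_⟩
  · rw [List.prod_cons, prod_incs]
    simp
  · rw [List.length_cons, length_incs]
    have h0 : pw.length ≠ 0 := fun h0 => hs1 (SimpleGraph.Walk.eq_of_length_eq_zero h0)
    have h1 : pw.length ≠ 1 := by
      intro h1
      have hadj : (Gm S ω 1 s).Adj s 1 := SimpleGraph.Walk.adj_of_length_eq_one h1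
      unfold Gm at hadj
      rw [SimpleGraph.deleteEdges_adj] at hadj
      exact hadj.2 (by rw [Set.mem_singleton_iff, Sym2.eq_swap])
    omega
  · have he : edgesFrom 1 (s :: incs pw) = s(1, s) :: pw.edges := by
      have := edgesFrom_incs pw
      simp only [edgesFrom, one_mul]
      rw [this]
    unfold Open
    rw [he]
    have hmem : ∀ z ∈ pw.edges, z ∈ (Gm S ω 1 s).edgeSet := fun z hz =>
      pw.edges_subset_edgeSet hz
    have hG : ∀ z ∈ (Gr S ω).edgeSet, ω z = true := by
      intro z hz
      induction z using Sym2.ind with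
      | _ a b => exact hz.2.2.2
    constructor
    · rw [List.nodup_cons]
      refine ⟨fun hin => ?_, hp.isTrail.edges_nodup⟩
      have := hmem _ hin
      unfold Gm at this
      rw [SimpleGraph.edgeSet_deleteEdges] at this
      exact this.2 rfl
    · intro z hz
      rw [List.mem_cons] at hz
      rcases hz with rfl | hz
      · exact h.2.2.2
      · have := hmem _ hz
        unfold Gm at this
        rw [SimpleGraph.edgeSet_deleteEdges] at this
        exact hG z this.1

end Pool.Agent.H59.MO
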